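import Pool.Agent.helper14.SP.HOne

/-!
# Indices of images of operators
-/

namespace Pool.Agent.helper14.SP

section Index

variable {R : Type} [CommRing R]
variable {M N : Type} [AddCommGroup M] [Module R M] [AddCommGroup N] [Module R N]

/-- The index of a submodule. -/
noncomputable def idx (S : Submodule R M) : ℕ := S.toAddSubgroup.index

/-- The multiples of `2 ^ j`. -/
def mul2 (R M : Type) [CommRing R] [AddCommGroup M] [Module R M] (j : ℕ) : Submodule R M :=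
  LinearMap.range (LinearMap.lsmul R M ((2 : R) ^ j))

theorem mem_mul2 {j : ℕ} {x : M} : x ∈ mul2 R M j ↔ ∃ y, (2 ^ j : R) • y = x := Iff.rfl

/-- Image of `T` plus the multiples of `2 ^ j`. -/
def NN (T : M →ₗ[R] M) (j : ℕ) : Submodule R M := LinearMap.range T ⊔ mul2 R M j

theorem mem_NN {T : M →ₗ[R] M} {j : ℕ} {x : M} :
    x ∈ NN T j ↔ ∃ a b, T a + (2 ^ j : R) • b = x := by
  rw [NN, Submodule.mem_sup]
  constructor
  · rintro ⟨_, ⟨a, rfl⟩, _, ⟨b, rfl⟩, rfl⟩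
    exact ⟨a, b, rfl⟩
  · rintro ⟨a, b, rfl⟩
    exact ⟨_, ⟨a, rfl⟩, _, ⟨b, rfl⟩, rfl⟩

/-- `ker T + (im T : 2 ^ n) + 2 ^ i`. -/
def JJ (T : M →ₗ[R] M) (n i : ℕ) : Submodule R M :=
  (LinearMap.ker T ⊔ (LinearMap.range T).comap (LinearMap.lsmul R M ((2 : R) ^ n))) ⊔ mul2 R M i

theorem mem_JJ {T : M →ₗ[R] M} {n i : ℕ} {x : M} :
    x ∈ JJ T n i ↔ ∃ k p q, T k = 0 ∧ (∃ z, T z = (2 ^ n : R) • p) ∧
      k + p + (2 ^ i : R) • q = x := by
  rw [JJ, Submodule.mem_sup]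
  constructor
  · rintro ⟨u, hu, _, ⟨b, rfl⟩, rfl⟩
    rw [Submodule.mem_sup] at hu
    obtain ⟨k, hk, p, hp, rfl⟩ := hu
    exact ⟨k, p, b, hk, hp, rfl⟩
  · rintro ⟨k, p, q, hk, hp, rfl⟩
    exact ⟨k + p, Submodule.mem_sup.2 ⟨k, hk, p, hp, rfl⟩, _, ⟨q, rfl⟩, rfl⟩

/-- The image of `T` divided by `2 ^ n`, plus `2 ^ i`. -/
def QQ (T : M →ₗ[R] M) (n i : ℕ) : Submodule R M :=
  ((LinearMap.range T).comap (LinearMap.lsmul R M ((2 : R) ^ n))) ⊔ mul2 R M i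

theorem mem_QQ {T : M →ₗ[R] M} {n i : ℕ} {x : M} :
    x ∈ QQ T n i ↔ ∃ p q, (∃ z, T z = (2 ^ n : R) • p) ∧ p + (2 ^ i : R) • q = x := by
  rw [QQ, Submodule.mem_sup]
  constructor
  · rintro ⟨u, hu, _, ⟨b, rfl⟩, rfl⟩
    exact ⟨u, b, hu, rfl⟩
  · rintro ⟨p, q, hp, rfl⟩
    exact ⟨p, hp, _, ⟨q, rfl⟩, rfl⟩

theorem idx_congr (e : M ≃ₗ[R] N) (S : Submodule R M) (S' : Submodule R N)
    (h : ∀ x, x ∈ S ↔ e x ∈ S') : idx S = idx S' := by
  have h1 : S.toAddSubgroup = S'.toAddSubgroup.comap (e : M ≃+ N).toAddMonoidHom := by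
    ext x
    exact h x
  rw [idx, idx, h1]
  exact AddSubgroup.index_comap_of_surjective _ e.surjective

theorem idx_prod (S : Submodule R M) (S' : Submodule R N) :
    idx (S.prod S') = idx S * idx S' := by
  rw [idx, idx, idx, ← AddSubgroup.index_prod]
  rfl

/-- The index is multiplicative. -/
theorem idx_NN_add (htf : ∀ x : M, (2 : R) • x = 0 → x = 0) (T : M →ₗ[R] M) (n i : ℕ) :
    idx (NN T (n + i)) = idx (QQ T n i) * idx (NN T n) := by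
  have htf' : ∀ (m : ℕ) (x : M), (2 ^ m : R) • x = 0 → x = 0 := by
    intro m
    induction m with
    | zero => intro x hx; rwa [pow_zero, one_smul] at hx
    | succ m ih =>
      intro x hx
      rw [pow_succ, mul_smul] at hx
      exact htf x (ih _ hx)
  have hle : NN T (n + i) ≤ NN T n := by
    intro x hx
    obtain ⟨a, b, rfl⟩ := mem_NN.1 hx
    exact mem_NN.2 ⟨a, (2 ^ i : R) • b, by rw [smul_smul, pow_add]⟩
  have h1 : (NN T (n + i)).toAddSubgroup.relIndex (NN T n).toAddSubgroup *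
      (NN T n).toAddSubgroup.index = (NN T (n + i)).toAddSubgroup.index :=
    AddSubgroup.relIndex_mul_index hle
  have h2 : (NN T n).toAddSubgroup =
      (mul2 R M n).toAddSubgroup ⊔ (NN T (n + i)).toAddSubgroup := by
    rw [← Submodule.sup_toAddSubgroup]
    congr 1
    apply le_antisymm
    · intro x hx
      obtain ⟨a, b, rfl⟩ := mem_NN.1 hx
      exact Submodule.mem_sup.2 ⟨_, ⟨b, rfl⟩, T a, mem_NN.2 ⟨a, 0, by simp⟩, add_comm _ _⟩
    · refine sup_le ?_ hle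
      rintro x ⟨b, rfl⟩
      exact mem_NN.2 ⟨0, b, by simp⟩
  have h3 : (NN T (n + i)).toAddSubgroup.relIndex (NN T n).toAddSubgroup =
      (NN T (n + i)).toAddSubgroup.relIndex (mul2 R M n).toAddSubgroup := by
    rw [h2]
    exact AddSubgroup.relIndex_sup_right _ _
  have h4 : (QQ T n i).toAddSubgroup = (NN T (n + i)).toAddSubgroup.comap
      (LinearMap.lsmul R M ((2 : R) ^ n)).toAddMonoidHom := by
    ext x
    rw [AddSubgroup.mem_comap]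
    change x ∈ QQ T n i ↔ (2 ^ n : R) • x ∈ NN T (n + i)
    rw [mem_QQ, mem_NN]
    constructor
    · rintro ⟨p, q, ⟨z, hz⟩, rfl⟩
      exact ⟨z, q, by rw [hz, smul_add, smul_smul, pow_add]⟩
    · rintro ⟨a, b, hab⟩
      refine ⟨x - (2 ^ i : R) • b, b, ⟨a, ?_⟩, by abel⟩
      rw [smul_sub, ← hab, smul_smul, pow_add]
      abel
  have h5 : (QQ T n i).toAddSubgroup.index =
      (NN T (n + i)).toAddSubgroup.relIndex (mul2 R M n).toAddSubgroup := by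
    rw [h4, AddSubgroup.index_comap]
    rfl
  rw [idx, idx, idx, h5, ← h3, h1]

theorem idx_NN_conj (e : M ≃ₗ[R] N) (T : M →ₗ[R] M) (T' : N →ₗ[R] N)
    (h : ∀ x, T' (e x) = e (T x)) (j : ℕ) : idx (NN T j) = idx (NN T' j) := by
  refine idx_congr e _ _ fun x => ?_
  rw [mem_NN, mem_NN]
  constructor
  · rintro ⟨a, b, rfl⟩
    exact ⟨e a, e b, by rw [h, map_add, map_smul]⟩
  · rintro ⟨a, b, hab⟩
    refine ⟨e.symm a, e.symm b, e.injective ?_⟩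
    rw [map_add, ← h, map_smul, e.apply_symm_apply, e.apply_symm_apply, hab]

/-- Equivalence by two different automorphisms. -/
theorem idx_NN_equiv (e e' : M ≃ₗ[R] N) (T : M →ₗ[R] M) (T' : N →ₗ[R] N)
    (h : ∀ x, T' (e' x) = e (T x)) (j : ℕ) : idx (NN T j) = idx (NN T' j) := by
  refine idx_congr e _ _ fun x => ?_
  rw [mem_NN, mem_NN]
  constructor
  · rintro ⟨a, b, rfl⟩
    exact ⟨e' a, e b, by rw [h, map_add, map_smul]⟩
  · rintro ⟨a, b, hab⟩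
    refine ⟨e'.symm a, e.symm b, e.injective ?_⟩
    rw [map_add, ← h, map_smul, e.apply_symm_apply, e'.apply_symm_apply, hab]

theorem idx_JJ_conj (e : M ≃ₗ[R] N) (T : M →ₗ[R] M) (T' : N →ₗ[R] N)
    (h : ∀ x, T' (e x) = e (T x)) (n i : ℕ) : idx (JJ T n i) = idx (JJ T' n i) := by
  refine idx_congr e _ _ fun x => ?_
  rw [mem_JJ, mem_JJ]
  constructor
  · rintro ⟨k, p, q, hk, ⟨z, hz⟩, rfl⟩
    exact ⟨e k, e p, e q, by rw [h, hk, map_zero], ⟨e z, by rw [h, hz, map_smul]⟩,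
      by rw [map_add, map_add, map_smul]⟩
  · rintro ⟨k, p, q, hk, ⟨z, hz⟩, hx⟩
    refine ⟨e.symm k, e.symm p, e.symm q, e.injective ?_, ⟨e.symm z, e.injective ?_⟩,
      e.injective ?_⟩
    · rw [← h, e.apply_symm_apply, hk, map_zero]
    · rw [← h, e.apply_symm_apply, hz, map_smul, e.apply_symm_apply]
    · rw [map_add, map_add, map_smul, e.apply_symm_apply, e.apply_symm_apply, e.apply_symm_apply,
        hx]

theorem idx_NN_prodMap (T : M →ₗ[R] M) (T' : N →ₗ[R] N) (j : ℕ) :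
    idx (NN (T.prodMap T') j) = idx (NN T j) * idx (NN T' j) := by
  rw [← idx_prod]
  congr 1
  ext ⟨x, y⟩
  rw [mem_NN, Submodule.mem_prod, mem_NN, mem_NN]
  constructor
  · rintro ⟨⟨a, a'⟩, ⟨b, b'⟩, h⟩
    exact ⟨⟨a, b, congrArg Prod.fst h⟩, ⟨a', b', congrArg Prod.snd h⟩⟩
  · rintro ⟨⟨a, b, h⟩, ⟨a', b', h'⟩⟩
    exact ⟨(a, a'), (b, b'), Prod.ext h h'⟩

/-- The swapped square of an operator. -/
def KS (Y : M →ₗ[R] M) : M × M →ₗ[R] M × M :=
  (Y.comp (LinearMap.snd R M M)).prod (Y.comp (LinearMap.fst R M M))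

theorem KS_apply (Y : M →ₗ[R] M) (r s : M) : KS Y (r, s) = (Y s, Y r) := rfl

theorem idx_NN_KS (Y : M →ₗ[R] M) (j : ℕ) : idx (NN (KS Y) j) = idx (NN Y j) ^ 2 := by
  rw [sq, ← idx_prod]
  congr 1
  ext ⟨x, y⟩
  rw [mem_NN, Submodule.mem_prod, mem_NN, mem_NN]
  constructor
  · rintro ⟨⟨a, a'⟩, ⟨b, b'⟩, h⟩
    exact ⟨⟨a', b, congrArg Prod.fst h⟩, ⟨a, b', congrArg Prod.snd h⟩⟩
  · rintro ⟨⟨a, b, h⟩, ⟨a', b', h'⟩⟩
    exact ⟨(a', a), (b, b'), Prod.ext h h'⟩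

theorem idx_JJ_KS (Y : M →ₗ[R] M) (n i : ℕ) : idx (JJ (KS Y) n i) = idx (JJ Y n i) ^ 2 := by
  rw [sq, ← idx_prod]
  congr 1
  ext ⟨x, y⟩
  rw [mem_JJ, Submodule.mem_prod, mem_JJ, mem_JJ]
  constructor
  · rintro ⟨⟨k, k'⟩, ⟨p, p'⟩, ⟨q, q'⟩, hk, ⟨⟨z, z'⟩, hz⟩, h⟩
    exact ⟨⟨k, p, q, congrArg Prod.snd hk, ⟨z', congrArg Prod.fst hz⟩, congrArg Prod.fst h⟩,
      ⟨k', p', q', congrArg Prod.fst hk, ⟨z, congrArg Prod.snd hz⟩, congrArg Prod.snd h⟩⟩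
  · rintro ⟨⟨k, p, q, hk, ⟨z, hz⟩, h⟩, ⟨k', p', q', hk', ⟨z', hz'⟩, h'⟩⟩
    exact ⟨(k, k'), (p, p'), (q, q'), Prod.ext hk' hk, ⟨(z', z), Prod.ext hz hz'⟩,
      Prod.ext h h'⟩

/-- The doubling of an operator. -/
def dbl (Y : M →ₗ[R] M) : M × M →ₗ[R] M × M :=
  (Y.comp (LinearMap.fst R M M)).prod
    (LinearMap.fst R M M + (Y.comp (LinearMap.snd R M M) + (2 : R) • LinearMap.snd R M M))

theorem dbl_apply (Y : M →ₗ[R] M) (a b : M) : dbl Y (a, b) = (Y a, a + (Y b + (2 : R) • b)) := rfl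

/-- The change of basis attached to an idempotent. -/
def iotaE (ε : M →ₗ[R] M) (h1 : ∀ x, ε (ε x) = ε x) : (M × M) ≃ₗ[R] (M × M) where
  toFun x := (x.1 + x.2, ε x.2 - x.2 - ε x.1)
  invFun y := (y.1 - ((-y.2 - ε y.1) - (2 : R) • ε (-y.2 - ε y.1)),
    (-y.2 - ε y.1) - (2 : R) • ε (-y.2 - ε y.1))
  map_add' x y := by
    refine Prod.ext ?_ ?_
    · change (x.1 + y.1) + (x.2 + y.2) = (x.1 + x.2) + (y.1 + y.2)
      abel
    · change ε (x.2 + y.2) - (x.2 + y.2) - ε (x.1 + y.1) =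
        (ε x.2 - x.2 - ε x.1) + (ε y.2 - y.2 - ε y.1)
      rw [map_add, map_add]
      abel
  map_smul' r x := by
    refine Prod.ext ?_ ?_
    · change (r • x.1) + (r • x.2) = r • (x.1 + x.2)
      rw [smul_add]
    · change ε (r • x.2) - (r • x.2) - ε (r • x.1) = r • (ε x.2 - x.2 - ε x.1)
      rw [map_smul, map_smul]
      module
  left_inv x := by
    obtain ⟨u, v⟩ := x
    refine Prod.ext ?_ ?_
    · change (u + v) - ((-(ε v - v - ε u) - ε (u + v)) -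
        (2 : R) • ε (-(ε v - v - ε u) - ε (u + v))) = u
      simp only [map_sub, map_neg, map_add, h1]
      module
    · change (-(ε v - v - ε u) - ε (u + v)) -
        (2 : R) • ε (-(ε v - v - ε u) - ε (u + v)) = v
      simp only [map_sub, map_neg, map_add, h1]
      module
  right_inv x := by
    obtain ⟨u, v⟩ := x
    refine Prod.ext ?_ ?_
    · change (u - ((-v - ε u) - (2 : R) • ε (-v - ε u))) + ((-v - ε u) - (2 : R) • ε (-v - ε u)) = u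
      abel
    · change ε ((-v - ε u) - (2 : R) • ε (-v - ε u)) - ((-v - ε u) - (2 : R) • ε (-v - ε u)) -
        ε (u - ((-v - ε u) - (2 : R) • ε (-v - ε u))) = v
      simp only [map_sub, map_neg, map_smul, h1]
      module

theorem iotaE_apply (ε : M →ₗ[R] M) (h1 : ∀ x, ε (ε x) = ε x) (r s : M) :
    iotaE ε h1 (r, s) = (r + s, ε s - s - ε r) := rfl

theorem dbl_iotaE (ε Y : M →ₗ[R] M) (h1 : ∀ x, ε (ε x) = ε x)
    (h2 : ∀ x, Y (ε x) + (2 : R) • ε x + ε (Y x) = Y x + x) (x : M × M) :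
    dbl Y (iotaE ε h1 x) = iotaE ε h1 (KS Y x) := by
  obtain ⟨r, s⟩ := x
  rw [iotaE_apply, KS_apply, iotaE_apply, dbl_apply]
  have hr := h2 r
  have hs := h2 s
  refine Prod.ext ?_ ?_
  · simp only [map_add]
    abel
  · simp only [map_sub]
    have hr' : Y (ε r) = Y r + r - (2 : R) • ε r - ε (Y r) := by rw [← hr]; abel
    have hs' : Y (ε s) = Y s + s - (2 : R) • ε s - ε (Y s) := by rw [← hs]; abel
    rw [hr', hs']
    module

theorem idx_NN_dbl (ε Y : M →ₗ[R] M) (h1 : ∀ x, ε (ε x) = ε x)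
    (h2 : ∀ x, Y (ε x) + (2 : R) • ε x + ε (Y x) = Y x + x) (j : ℕ) :
    idx (NN (dbl Y) j) = idx (NN Y j) ^ 2 := by
  rw [← idx_NN_KS]
  exact (idx_NN_conj (iotaE ε h1) _ _ (dbl_iotaE ε Y h1 h2) j).symm

theorem idx_JJ_dbl (ε Y : M →ₗ[R] M) (h1 : ∀ x, ε (ε x) = ε x)
    (h2 : ∀ x, Y (ε x) + (2 : R) • ε x + ε (Y x) = Y x + x) (n i : ℕ) :
    idx (JJ (dbl Y) n i) = idx (JJ Y n i) ^ 2 := by
  rw [← idx_JJ_KS]
  exact (idx_JJ_conj (iotaE ε h1) _ _ (dbl_iotaE ε Y h1 h2) n i).symm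

end Index

end Pool.Agent.helper14.SP
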