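import Mathlib

/-!
# Finite abelian `2`-groups are determined by their torsion counts
-/

namespace Pool.Agent.helper14.SP

/-- The number of elements killed by `2 ^ j`. -/
noncomputable def tc (A : Type) [AddCommGroup A] (j : ℕ) : ℕ :=
  Nat.card (nsmulAddMonoidHom (2 ^ j) : A →+ A).ker

theorem mem_tc {A : Type} [AddCommGroup A] {j : ℕ} {x : A} :
    x ∈ (nsmulAddMonoidHom (2 ^ j) : A →+ A).ker ↔ 2 ^ j • x = 0 := Iff.rfl

theorem tc_congr {A B : Type} [AddCommGroup A] [AddCommGroup B] (e : A ≃+ B) (j : ℕ) :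
    tc A j = tc B j := by
  refine Nat.card_congr (e.toEquiv.subtypeEquiv fun x => ?_)
  rw [mem_tc, AddEquiv.toEquiv_eq_coe, AddEquiv.coe_toEquiv, mem_tc, ← map_nsmul, map_eq_zero_iff _ e.injective]

theorem tc_prod {A B : Type} [AddCommGroup A] [AddCommGroup B] (j : ℕ) :
    tc (A × B) j = tc A j * tc B j := by
  rw [tc, tc, tc, ← Nat.card_prod]
  exact Nat.card_congr
    { toFun := fun x => (⟨x.1.1, congrArg Prod.fst x.2⟩, ⟨x.1.2, congrArg Prod.snd x.2⟩)
      invFun := fun x => ⟨(x.1.1, x.2.1), Prod.ext x.1.2 x.2.2⟩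
      left_inv := fun _ => rfl
      right_inv := fun _ => rfl }

theorem tc_pi {ι : Type} [Fintype ι] {A : ι → Type} [∀ i, AddCommGroup (A i)] (j : ℕ) :
    tc (∀ i, A i) j = ∏ i, tc (A i) j := by
  simp only [tc]
  rw [← Nat.card_pi]
  exact Nat.card_congr
    { toFun := fun x i => ⟨x.1 i, congrFun x.2 i⟩
      invFun := fun x => ⟨fun i => (x i).1, funext fun i => (x i).2⟩
      left_inv := fun _ => rfl
      right_inv := fun _ => rfl }

theorem tc_zmod (k j : ℕ) : tc (ZMod (2 ^ k)) j = 2 ^ min k j := by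
  rw [tc, IsAddCyclic.card_nsmulAddMonoidHom_ker, Nat.card_zmod]
  rcases le_total k j with h | h
  · rw [min_eq_left h, Nat.gcd_eq_left (pow_dvd_pow 2 h)]
  · rw [min_eq_right h, Nat.gcd_eq_right (pow_dvd_pow 2 h)]

theorem index_eq_tc (A : Type) [AddCommGroup A] [Finite A] (j : ℕ) :
    (nsmulAddMonoidHom (2 ^ j) : A →+ A).range.index = tc A j :=
  AddSubgroup.index_range

/-- Equal fibres give a compatible bijection. -/
theorem exists_equiv_of_fibers {S S' : Type} [Finite S] [Finite S'] (f : S → ℕ) (f' : S' → ℕ)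
    (h : ∀ v, Nat.card {s // f s = v} = Nat.card {s // f' s = v}) :
    ∃ e : S ≃ S', ∀ s, f' (e s) = f s := by
  have hv : ∀ v, Nonempty ({s // f s = v} ≃ {s // f' s = v}) := fun v =>
    Finite.card_eq.1 (h v)
  let ev : ∀ v, {s // f s = v} ≃ {s // f' s = v} := fun v => Classical.choice (hv v)
  let e : S ≃ S' := (Equiv.sigmaFiberEquiv f).symm.trans
    ((Equiv.sigmaCongrRight ev).trans (Equiv.sigmaFiberEquiv f'))
  refine ⟨e, fun s => ?_⟩
  exact (ev (f s) ⟨s, rfl⟩).2

/-- Deleting trivial factors. -/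
def dropTriv {ι : Type} (p : ι → Prop) [DecidablePred p] (A : ι → Type) [∀ i, AddCommGroup (A i)]
    (h : ∀ i, ¬ p i → Subsingleton (A i)) : (∀ i, A i) ≃+ (∀ i : {i // p i}, A i) where
  toFun f i := f i
  invFun f i := if h : p i then f ⟨i, h⟩ else 0
  left_inv f := by
    funext i
    by_cases hi : p i
    · simp [hi]
    · haveI := h i hi
      exact Subsingleton.elim _ _
  right_inv f := by
    funext i
    simp [i.2]
  map_add' f g := rfl

/-- The multiplicities are determined by the truncated sums. -/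
theorem card_eq_of_sum_min {m m' : ℕ} (k : Fin m → ℕ) (k' : Fin m' → ℕ)
    (h : ∀ j, ∑ i, min (k i) j = ∑ i, min (k' i) j) (v : ℕ) (hv : 1 ≤ v) :
    Nat.card {i // k i = v} = Nat.card {i // k' i = v} := by
  have key : ∀ (m : ℕ) (k : Fin m → ℕ) (j : ℕ),
      ∑ i, min (k i) (j + 1) = ∑ i, min (k i) j + (Finset.univ.filter fun i => j < k i).card := by
    intro m k j
    rw [Finset.card_filter, ← Finset.sum_add_distrib]
    refine Finset.sum_congr rfl fun i _ => ?_
    split_ifs <;> omega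
  have key2 : ∀ j, (Finset.univ.filter fun i => j < k i).card =
      (Finset.univ.filter fun i => j < k' i).card := by
    intro j
    have h1 := key m k j
    have h2 := key m' k' j
    have h3 := h j
    have h4 := h (j + 1)
    omega
  have key3 : ∀ (m : ℕ) (k : Fin m → ℕ), Nat.card {i // k i = v} +
      (Finset.univ.filter fun i => v < k i).card =
      (Finset.univ.filter fun i => v - 1 < k i).card := by
    intro m k
    rw [Nat.card_eq_fintype_card, Fintype.card_subtype, Finset.card_filter, Finset.card_filter,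
      Finset.card_filter, ← Finset.sum_add_distrib]
    refine Finset.sum_congr rfl fun i _ => ?_
    split_ifs <;> omega
  have h1 := key3 m k
  have h2 := key3 m' k'
  have h3 := key2 v
  have h4 := key2 (v - 1)
  omega

/-- Products of cyclic `2`-groups with equal counts are isomorphic. -/
theorem pi_iso {m m' : ℕ} (k : Fin m → ℕ) (k' : Fin m' → ℕ)
    (h : ∀ j, ∑ i, min (k i) j = ∑ i, min (k' i) j) :
    Nonempty ((∀ i, ZMod (2 ^ k i)) ≃+ (∀ i, ZMod (2 ^ k' i))) := by
  have hsub : ∀ a : ℕ, ¬ a ≠ 0 → Subsingleton (ZMod (2 ^ a)) := by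
    intro a ha
    have : a = 0 := by omega
    subst this
    change Subsingleton (ZMod 1)
    infer_instance
  let A : ℕ → Type := fun v => ZMod (2 ^ v)
  obtain ⟨e, he⟩ := exists_equiv_of_fibers (S := {i // k i ≠ 0}) (S' := {i // k' i ≠ 0})
    (fun i => k i) (fun i => k' i) (by
      intro v
      rcases Nat.eq_zero_or_pos v with hv | hv
      · subst hv
        have h1 : IsEmpty {s : {i // k i ≠ 0} // k s = 0} := ⟨fun s => s.1.2 s.2⟩
        have h2 : IsEmpty {s : {i // k' i ≠ 0} // k' s = 0} := ⟨fun s => s.1.2 s.2⟩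
        rw [Nat.card_of_isEmpty, Nat.card_of_isEmpty]
      · have h1 : ∀ (m : ℕ) (k : Fin m → ℕ),
            Nat.card {s : {i // k i ≠ 0} // k s = v} = Nat.card {i // k i = v} := by
          intro m k
          exact Nat.card_congr
            { toFun := fun s => ⟨s.1.1, s.2⟩
              invFun := fun s => ⟨⟨s.1, by rw [s.2]; omega⟩, s.2⟩
              left_inv := fun _ => rfl
              right_inv := fun _ => rfl }
        rw [h1, h1]
        exact card_eq_of_sum_min k k' h v hv)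
  have e1 : (∀ i, ZMod (2 ^ k i)) ≃+ (∀ i : {i // k i ≠ 0}, A (k i)) :=
    dropTriv (fun i => k i ≠ 0) (fun i => ZMod (2 ^ k i)) (fun i hi => hsub _ hi)
  have e2 : (∀ i, ZMod (2 ^ k' i)) ≃+ (∀ i : {i // k' i ≠ 0}, A (k' i)) :=
    dropTriv (fun i => k' i ≠ 0) (fun i => ZMod (2 ^ k' i)) (fun i hi => hsub _ hi)
  have hk : (fun i : {i // k i ≠ 0} => k i) = fun i => k' (e i) := by
    funext i
    exact (he i).symm
  have e3 : (∀ i : {i // k i ≠ 0}, A (k i)) ≃+ (∀ i : {i // k i ≠ 0}, A (k' (e i))) := by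
    have : ∀ i : {i // k i ≠ 0}, A (k i) = A (k' (e i)) := fun i => by rw [he i]
    exact AddEquiv.piCongrRight fun i => (ZMod.ringEquivCongr (by rw [he i])).toAddEquiv
  have e4 : (∀ i : {i // k i ≠ 0}, A (k' (e i))) ≃+ (∀ i : {i // k' i ≠ 0}, A (k' i)) :=
    (LinearEquiv.piCongrLeft ℤ (fun i : {i // k' i ≠ 0} => ZMod (2 ^ k' i)) e).toAddEquiv
  exact ⟨e1.trans (e3.trans (e4.trans e2.symm))⟩

/-- The decomposition of a finite `2`-group. -/
theorem exists_decomp (A : Type) [AddCommGroup A] [Finite A] (hA : ∀ x : A, ∃ k : ℕ, 2 ^ k • x = 0) :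
    ∃ (m : ℕ) (k : Fin m → ℕ), Nonempty (A ≃+ (∀ i, ZMod (2 ^ k i))) := by
  have hT : Module.IsTorsion' A (Submonoid.powers (2 : ℤ)) := by
    intro x
    obtain ⟨k, hk⟩ := hA x
    refine ⟨⟨2 ^ k, ⟨k, rfl⟩⟩, ?_⟩
    change ((2 : ℤ) ^ k) • x = 0
    have : ((2 : ℤ) ^ k) = ((2 ^ k : ℕ) : ℤ) := by push_cast; rfl
    rw [this, natCast_zsmul, hk]
  obtain ⟨m, k, ⟨e⟩⟩ := Module.torsion_by_prime_power_decomposition Int.prime_two.irreducible hT
  refine ⟨m, k, ⟨?_⟩⟩
  refine e.toAddEquiv.trans ((DirectSum.addEquivProd _).trans (AddEquiv.piCongrRight fun i => ?_))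
  have h1 : ((2 : ℤ) ^ k i) = ((2 ^ k i : ℕ) : ℤ) := by push_cast; rfl
  have e2 : (ℤ ⧸ Submodule.span ℤ {(2 : ℤ) ^ k i}) ≃+ (ℤ ⧸ Ideal.span {((2 ^ k i : ℕ) : ℤ)}) :=
    (Submodule.quotEquivOfEq _ _ (by rw [h1])).toAddEquiv
  exact e2.trans (Int.quotientSpanNatEquivZMod (2 ^ k i)).toAddEquiv

/-- The classification. -/
theorem iso_of_tc {A B : Type} [AddCommGroup A] [AddCommGroup B] [Finite A] [Finite B]
    (hA : ∀ x : A, ∃ k : ℕ, 2 ^ k • x = 0) (hB : ∀ x : B, ∃ k : ℕ, 2 ^ k • x = 0)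
    (h : ∀ j, tc A j = tc B j) : Nonempty (A ≃+ B) := by
  obtain ⟨m, k, ⟨e⟩⟩ := exists_decomp A hA
  obtain ⟨m', k', ⟨e'⟩⟩ := exists_decomp B hB
  have h1 : ∀ j, ∑ i, min (k i) j = ∑ i, min (k' i) j := by
    intro j
    have h2 := h j
    rw [tc_congr e, tc_congr e', tc_pi, tc_pi] at h2
    simp only [tc_zmod, Finset.prod_pow_eq_pow_sum] at h2
    exact Nat.pow_right_injective le_rfl h2
  obtain ⟨f⟩ := pi_iso k k' h1
  exact ⟨e.trans (f.trans e'.symm)⟩

end Pool.Agent.helper14.SP
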