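import Pool.Agent.helper14.SP.StIdx
import Pool.Agent.helper14.SP.Grp

/-!
# Change of rings
-/

namespace Pool.Agent.helper14.SP

variable {R S : Type} [CommRing R] [CommRing S]

/-- Change of rings. -/
def mapF (f : R →+* S) : (d : ℕ) → F R d →+ F S d
  | 0 => f.toAddMonoidHom
  | d + 1 => AddMonoidHom.prodMap (mapF f d) (mapF f d)

theorem mapF_succ (f : R →+* S) (d : ℕ) (a b : F R d) :
    mapF f (d + 1) (pr a b) = pr (mapF f d a) (mapF f d b) := rfl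

theorem mapF_dg (f : R →+* S) : ∀ (d : ℕ) (g : ℕ → R) (x : F R d),
    mapF f d (dg d g x) = dg d (fun k => f (g k)) (mapF f d x)
  | 0, g, x => map_mul f (g 0) x
  | d + 1, g, x => by
    obtain ⟨a, b, rfl⟩ := exists_pr x
    rw [dg_succ, mapF_succ, mapF_succ, dg_succ, mapF_dg f d, mapF_dg f d]
    rfl

theorem mapF_ee (f : R →+* S) : ∀ (d : ℕ) (x : F R d),
    mapF f d (ee d x) = ee d (mapF f d x)
  | 0, x => by rw [ee_zero, ee_zero, map_zero]
  | d + 1, x => by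
    obtain ⟨a, b, rfl⟩ := exists_pr x
    rw [ee_succ, mapF_succ, mapF_succ, ee_succ, map_add, mapF_ee f d, mapF_ee f d]

theorem mapF_bb (f : R →+* S) (d : ℕ) (x : F R d) : mapF f d (bb d x) = bb d (mapF f d x) := by
  rw [bb_apply, bb_apply, map_add, mapF_ee, mapF_dg]
  congr 2
  congr 1
  funext k
  rw [map_mul, map_natCast, map_ofNat]

theorem mapF_surj (f : R →+* S) (hf : Function.Surjective f) : ∀ d, Function.Surjective (mapF f d)
  | 0 => hf
  | d + 1 => by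
    intro x
    obtain ⟨a, b, rfl⟩ := exists_pr x
    obtain ⟨a', ha⟩ := mapF_surj f hf d a
    obtain ⟨b', hb⟩ := mapF_surj f hf d b
    exact ⟨pr a' b', by rw [mapF_succ, ha, hb]⟩

theorem mapF_ker (f : R →+* S) (r : R) (hf : ∀ x, f x = 0 ↔ ∃ y, r * y = x) :
    ∀ (d : ℕ) (x : F R d), mapF f d x = 0 ↔ ∃ y, r • y = x
  | 0, x => hf x
  | d + 1, x => by
    obtain ⟨a, b, rfl⟩ := exists_pr x
    rw [mapF_succ, ← pr_zero, pr_inj, mapF_ker f r hf d, mapF_ker f r hf d]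
    constructor
    · rintro ⟨⟨y, hy⟩, ⟨z, hz⟩⟩
      exact ⟨pr y z, by rw [smul_pr, hy, hz]⟩
    · rintro ⟨y, hy⟩
      obtain ⟨u, v, rfl⟩ := exists_pr y
      rw [smul_pr, pr_inj] at hy
      exact ⟨⟨u, hy.1⟩, ⟨v, hy.2⟩⟩

/-- The index only depends on the residue ring. -/
theorem idx_bb_base (f : R →+* S) (hf : Function.Surjective f) (j : ℕ)
    (hk : ∀ x, f x = 0 ↔ ∃ y, 2 ^ j * y = x) (d : ℕ) :
    idx (NN (bb (R := R) d) j) = idx (LinearMap.range (bb (R := S) d)) := by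
  have h : (NN (bb (R := R) d) j).toAddSubgroup =
      (LinearMap.range (bb (R := S) d)).toAddSubgroup.comap (mapF f d) := by
    ext x
    rw [AddSubgroup.mem_comap]
    change x ∈ NN (bb (R := R) d) j ↔ mapF f d x ∈ LinearMap.range (bb (R := S) d)
    rw [mem_NN, LinearMap.mem_range]
    constructor
    · rintro ⟨a, b, rfl⟩
      refine ⟨mapF f d a, ?_⟩
      rw [map_add, (mapF_ker f (2 ^ j) hk d _).2 ⟨b, rfl⟩, add_zero, mapF_bb]
    · rintro ⟨y, hy⟩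
      obtain ⟨a, rfl⟩ := mapF_surj f hf d y
      rw [← mapF_bb] at hy
      have h1 : mapF f d (x - bb d a) = 0 := by rw [map_sub, hy, sub_self]
      obtain ⟨b, hb⟩ := (mapF_ker f (2 ^ j) hk d _).1 h1
      exact ⟨a, b, by rw [hb]; abel⟩
  rw [idx, idx, h]
  exact AddSubgroup.index_comap_of_surjective _ (mapF_surj f hf d)

theorem rr_base (f : R →+* S) (hf : Function.Surjective f) (j : ℕ)
    (hk : ∀ x, f x = 0 ↔ ∃ y, 2 ^ j * y = x) (r : R) :
    rr R r j = idx (LinearMap.range (LinearMap.lsmul S S (f r))) := by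
  have h : (NN (LinearMap.lsmul R R r) j).toAddSubgroup =
      (LinearMap.range (LinearMap.lsmul S S (f r))).toAddSubgroup.comap f.toAddMonoidHom := by
    ext x
    rw [AddSubgroup.mem_comap]
    change x ∈ NN (LinearMap.lsmul R R r) j ↔ f x ∈ LinearMap.range (LinearMap.lsmul S S (f r))
    rw [mem_NN_rr, LinearMap.mem_range]
    constructor
    · rintro ⟨a, b, rfl⟩
      refine ⟨f a, ?_⟩
      rw [map_add, (hk _).2 ⟨b, rfl⟩, add_zero, map_mul]
      rfl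
    · rintro ⟨y, hy⟩
      obtain ⟨a, rfl⟩ := hf y
      have hy' : f r * f a = f x := hy
      rw [← map_mul] at hy'
      have h1 : f (x - r * a) = 0 := by rw [map_sub, hy', sub_self]
      obtain ⟨b, hb⟩ := (hk _).1 h1
      exact ⟨a, b, by rw [hb]; ring⟩
  rw [rr, idx, idx, h]
  exact AddSubgroup.index_comap_of_surjective _ hf

theorem int_surj (j : ℕ) : Function.Surjective (Int.castRingHom (ZMod (2 ^ j))) :=
  ZMod.intCast_surjective

theorem int_ker (j : ℕ) (x : ℤ) : Int.castRingHom (ZMod (2 ^ j)) x = 0 ↔ ∃ y, 2 ^ j * y = x := by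
  rw [Int.coe_castRingHom, ZMod.intCast_zmod_eq_zero_iff_dvd]
  constructor
  · rintro ⟨y, hy⟩
    exact ⟨y, by rw [hy]; push_cast; rfl⟩
  · rintro ⟨y, hy⟩
    exact ⟨y, by rw [← hy]; push_cast; rfl⟩

theorem padic_surj (j : ℕ) : Function.Surjective (PadicInt.toZModPow (p := 2) j) :=
  ZMod.ringHom_surjective _

theorem padic_ker (j : ℕ) (x : ℤ_[2]) :
    PadicInt.toZModPow (p := 2) j x = 0 ↔ ∃ y, 2 ^ j * y = x := by
  rw [← RingHom.mem_ker, PadicInt.ker_toZModPow, Ideal.mem_span_singleton]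
  constructor
  · rintro ⟨y, hy⟩
    exact ⟨y, by rw [hy]; norm_num⟩
  · rintro ⟨y, hy⟩
    exact ⟨y, by rw [← hy]; norm_num⟩

theorem padic_odd (k : ℕ) (hk : Odd k) : IsUnit (k : ℤ_[2]) := by
  rw [PadicInt.isUnit_iff]
  by_contra h
  have h1 : ‖(k : ℤ_[2])‖ < 1 := lt_of_le_of_ne (PadicInt.norm_le_one _) h
  have h2 : ‖((k : ℤ) : ℤ_[2])‖ < 1 := by
    rw [Int.cast_natCast]
    exact h1
  rw [PadicInt.norm_int_lt_one_iff_dvd] at h2
  have h3 : (2 : ℤ) ∣ (k : ℤ) := by exact_mod_cast h2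
  have h4 : 2 ∣ k := by exact_mod_cast h3
  rw [Nat.odd_iff] at hk
  omega

/-- The index of the image of `B` modulo `2 ^ j`. -/
noncomputable def cnt (R : Type) [CommRing R] (d j : ℕ) : ℕ := idx (NN (bb (R := R) d) j)

theorem cnt_base (R S : Type) [CommRing R] [CommRing S] (f : R →+* S)
    (hf : Function.Surjective f) (j : ℕ)
    (hk : ∀ x, f x = 0 ↔ ∃ y, 2 ^ j * y = x) (d : ℕ) :
    cnt R d j = idx (LinearMap.range (bb (R := S) d)) := idx_bb_base f hf j hk d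

theorem cnt_count (R : Type) [CommRing R] [IsDomain R] [CharZero R]
    (hodd : ∀ k : ℕ, Odd k → IsUnit (k : R)) {n d : ℕ}
    (hn : 1 ≤ n) (hd : d + 1 = 2 ^ n) (j : ℕ) :
    cnt R (d + 1) j * rr R 0 j = cnt R d j ^ 2 * rr R (2 ^ (d + n)) j :=
  bb_count hodd hn hd j

/-- The operator `B` as an additive map. -/
def bbA (R : Type) [CommRing R] (d : ℕ) : F R d →+ F R d := (bb (R := R) d).toAddMonoidHom

theorem bbA_succ (R : Type) [CommRing R] (d : ℕ) (a b : F R d) :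
    bbA R (d + 1) (pr a b) = pr (bbA R d a) (a + bbA R d b + 2 • b) := by
  change bb (d + 1) (pr a b) = pr (bb d a) (a + bb d b + 2 • b)
  rw [bb_succ]
  congr 2
  exact Nat.cast_smul_eq_nsmul R 2 b

theorem bbA_zero (R : Type) [CommRing R] (x : F R 0) : bbA R 0 x = 0 := bb_zero x

theorem cnt_eq (R : Type) [CommRing R] (d j : ℕ) :
    cnt R d j = ((bbA R d).range ⊔ (nsmulAddMonoidHom (2 ^ j) : F R d →+ F R d).range).index := by
  rw [cnt, idx]
  congr 1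
  ext x
  change x ∈ NN (bb (R := R) d) j ↔ _
  rw [mem_NN, AddSubgroup.mem_sup]
  have h : ∀ b : F R d, (2 ^ j : R) • b = (2 ^ j : ℕ) • b := by
    intro b
    rw [← Nat.cast_smul_eq_nsmul R (2 ^ j) b]
    push_cast
    rfl
  constructor
  · rintro ⟨a, b, rfl⟩
    exact ⟨_, ⟨a, rfl⟩, _, ⟨b, rfl⟩, by rw [h]; rfl⟩
  · rintro ⟨_, ⟨a, rfl⟩, _, ⟨b, rfl⟩, rfl⟩
    exact ⟨a, b, by rw [h]; rfl⟩

/-- The count over the integers. -/
theorem cnt_int {n d : ℕ} (hn : 1 ≤ n) (hd : d + 1 = 2 ^ n) (j : ℕ) :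
    cnt ℤ (d + 1) j * rr ℤ 0 j = cnt ℤ d j ^ 2 * rr ℤ (2 ^ (d + n)) j := by
  have h := cnt_count ℤ_[2] padic_odd hn hd j
  rw [cnt_base _ _ _ (padic_surj j) j (padic_ker j), cnt_base _ _ _ (padic_surj j) j (padic_ker j),
    rr_base _ (padic_surj j) j (padic_ker j), rr_base _ (padic_surj j) j (padic_ker j)] at h
  rw [cnt_base _ _ _ (int_surj j) j (int_ker j), cnt_base _ _ _ (int_surj j) j (int_ker j),
    rr_base _ (int_surj j) j (int_ker j), rr_base _ (int_surj j) j (int_ker j)]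
  rw [map_zero, map_pow, map_ofNat] at h ⊢
  exact h

theorem rr_int (r : ℤ) (N j : ℕ) (h : Int.gcd r (2 ^ j) = N) : rr ℤ r j = N := by
  have h1 : (NN (LinearMap.lsmul ℤ ℤ r) j).toAddSubgroup = AddSubgroup.zmultiples (N : ℤ) := by
    ext x
    rw [AddSubgroup.mem_zmultiples_iff]
    change x ∈ NN (LinearMap.lsmul ℤ ℤ r) j ↔ _
    rw [mem_NN_rr]
    have h2 : ((Int.gcd r (2 ^ j) : ℕ) : ℤ) = r * Int.gcdA r (2 ^ j) + 2 ^ j * Int.gcdB r (2 ^ j) :=
      Int.gcd_eq_gcd_ab r (2 ^ j)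
    rw [h] at h2
    constructor
    · rintro ⟨a, b, rfl⟩
      obtain ⟨s, hs⟩ : (N : ℤ) ∣ r := by rw [← h]; exact Int.gcd_dvd_left ..
      obtain ⟨t, ht⟩ : (N : ℤ) ∣ 2 ^ j := by rw [← h]; exact Int.gcd_dvd_right ..
      refine ⟨s * a + t * b, ?_⟩
      rw [smul_eq_mul]
      linear_combination (-a) * hs - b * ht
    · rintro ⟨k, rfl⟩
      refine ⟨Int.gcdA r (2 ^ j) * k, Int.gcdB r (2 ^ j) * k, ?_⟩
      rw [smul_eq_mul, h2]
      ring
  rw [rr, idx, h1, Int.index_zmultiples, Int.natAbs_natCast]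

theorem rr_int_zero (j : ℕ) : rr ℤ 0 j = 2 ^ j := by
  refine rr_int 0 (2 ^ j) j ?_
  rw [Int.gcd_zero_left, Int.natAbs_pow]
  rfl

theorem rr_int_pow (N j : ℕ) : rr ℤ (2 ^ N) j = 2 ^ min N j := by
  refine rr_int _ _ j ?_
  rw [Int.gcd, Int.natAbs_pow, Int.natAbs_pow]
  change Nat.gcd (2 ^ N) (2 ^ j) = _
  rcases le_total N j with h | h
  · rw [min_eq_left h, Nat.gcd_eq_left (pow_dvd_pow 2 h)]
  · rw [min_eq_right h, Nat.gcd_eq_right (pow_dvd_pow 2 h)]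

theorem cnt_int' {n d : ℕ} (hn : 1 ≤ n) (hd : d + 1 = 2 ^ n) (j : ℕ) :
    cnt ℤ (d + 1) j * 2 ^ j = cnt ℤ d j ^ 2 * 2 ^ min (d + n) j := by
  rw [← rr_int_zero, ← rr_int_pow]
  exact cnt_int hn hd j

end Pool.Agent.helper14.SP
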