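import Pool.Agent.helper14.SP.Tors

/-!
# The Laplacian of the cube
-/

namespace Pool.Agent.helper14.SP

variable {R : Type} [CommRing R]

/-- Flipping a coordinate. -/
def flp {d : ℕ} (v : Fin d → Bool) (i : Fin d) : Fin d → Bool := Function.update v i (!v i)

theorem flp_zero {d : ℕ} (b : Bool) (v : Fin d → Bool) :
    flp (Fin.cons b v : Fin (d + 1) → Bool) 0 = Fin.cons (!b) v := by
  rw [flp, Fin.cons_zero, Fin.update_cons_zero]

theorem flp_succ {d : ℕ} (b : Bool) (v : Fin d → Bool) (i : Fin d) :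
    flp (Fin.cons b v : Fin (d + 1) → Bool) i.succ = Fin.cons b (flp v i) := by
  rw [flp, Fin.cons_succ, flp, Fin.cons_update]

theorem flp_inj {d : ℕ} (v : Fin d → Bool) : Function.Injective (flp v) := by
  intro i j h
  by_contra hij
  have h1 := congrFun h i
  rw [flp, flp, Function.update_self, Function.update_of_ne hij] at h1
  simp at h1

theorem adj_iff {d : ℕ} (v w : Fin d → Bool) : (cube d).Adj v w ↔ ∃ i, flp v i = w := by
  change hammingDist v w = 1 ↔ _
  rw [hammingDist, Finset.card_eq_one]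
  constructor
  · rintro ⟨i, hi⟩
    refine ⟨i, ?_⟩
    funext k
    have hk : v k ≠ w k ↔ k = i := by
      have := Finset.ext_iff.1 hi k
      simpa using this
    by_cases hki : k = i
    · subst hki
      rw [flp, Function.update_self]
      have := hk.2 rfl
      revert this
      cases v k <;> cases w k <;> simp
    · rw [flp, Function.update_of_ne hki]
      by_contra hcon
      exact hki (hk.1 hcon)
  · rintro ⟨i, rfl⟩
    refine ⟨i, ?_⟩
    ext k
    simp only [Finset.mem_filter, Finset.mem_univ, true_and, Finset.mem_singleton]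
    by_cases hki : k = i
    · subst hki
      rw [flp, Function.update_self]
      simp
    · rw [flp, Function.update_of_ne hki]
      simp [hki]

/-- The Laplacian of the cube. -/
def LL (d : ℕ) (f : (Fin d → Bool) → R) : (Fin d → Bool) → R :=
  fun v => ∑ i, (f v - f (flp v i))

theorem lap_eq (d : ℕ) (f : (Fin d → Bool) → ℤ) : lapHom (cube d) f = LL d f := by
  funext v
  change ((cube d).lapMatrix ℤ).mulVec f v = LL d f v
  rw [SimpleGraph.lapMatrix_mulVec_apply]
  have h : (cube d).neighborFinset v = Finset.univ.map ⟨flp v, flp_inj v⟩ := by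
    ext w
    rw [SimpleGraph.mem_neighborFinset, adj_iff]
    simp
  rw [← SimpleGraph.card_neighborFinset_eq_degree, h, Finset.sum_map, Finset.card_map, LL,
    Finset.sum_sub_distrib]
  simp

theorem LL_cons (d : ℕ) (f : (Fin (d + 1) → Bool) → R) (b : Bool) (v : Fin d → Bool) :
    LL (d + 1) f (Fin.cons b v) =
      LL d (fun w => f (Fin.cons b w)) v + f (Fin.cons b v) - f (Fin.cons (!b) v) := by
  rw [LL, Fin.sum_univ_succ, flp_zero]
  simp only [flp_succ]
  rw [LL]
  ring

theorem LL_add (d : ℕ) (f g : (Fin d → Bool) → R) : LL d (f + g) = LL d f + LL d g := by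
  funext v
  simp only [LL, Pi.add_apply]
  rw [← Finset.sum_add_distrib]
  exact Finset.sum_congr rfl fun i _ => by ring

theorem LL_neg (d : ℕ) (f : (Fin d → Bool) → R) : LL d (-f) = -LL d f := by
  funext v
  simp only [LL, Pi.neg_apply]
  rw [← Finset.sum_neg_distrib]
  exact Finset.sum_congr rfl fun i _ => by ring

/-- Splitting along the first coordinate. -/
def spl (R : Type) [CommRing R] (d : ℕ) :
    ((Fin (d + 1) → Bool) → R) ≃+ ((Fin d → Bool) → R) × ((Fin d → Bool) → R) where
  toFun f := (fun v => f (Fin.cons false v) + f (Fin.cons true v), fun v => -f (Fin.cons true v))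
  invFun p := fun v => if v 0 = true then -p.2 (Fin.tail v) else p.1 (Fin.tail v) + p.2 (Fin.tail v)
  left_inv f := by
    funext v
    by_cases h : v 0 = true
    · simp only [h, if_true, neg_neg]
      rw [← h, Fin.cons_self_tail]
    · have h' : v 0 = false := by simpa using h
      simp only [h, if_false]
      rw [← h', Fin.cons_self_tail]
      simp only [h', Bool.false_eq_true, if_false]
      ring
  right_inv p := by
    refine Prod.ext ?_ ?_
    · funext v
      simp
    · funext v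
      simp
  map_add' f g := by
    refine Prod.ext ?_ ?_
    · funext v
      simp only [Pi.add_apply, Prod.fst_add]
      ring
    · funext v
      simp only [Pi.add_apply, Prod.snd_add]
      ring

/-- The functions on the cube as the recursive model. -/
def toF (R : Type) [CommRing R] : (d : ℕ) → ((Fin d → Bool) → R) ≃+ F R d
  | 0 =>
    { toFun := fun f => (f default : R)
      invFun := fun x => fun _ => (show R from x)
      left_inv := fun f => by
        funext v
        rw [Subsingleton.elim v default]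
      right_inv := fun _ => rfl
      map_add' := fun _ _ => rfl }
  | d + 1 => (spl R d).trans (((toF R d).prodCongr (toF R d)).trans (prE R d).toAddEquiv)

theorem toF_succ (d : ℕ) (f : (Fin (d + 1) → Bool) → R) :
    toF R (d + 1) f = pr (toF R d (fun v => f (Fin.cons false v) + f (Fin.cons true v)))
      (toF R d (fun v => -f (Fin.cons true v))) := rfl

theorem toF_LL : ∀ (d : ℕ) (f : (Fin d → Bool) → R), toF R d (LL d f) = bbA R d (toF R d f)
  | 0, f => by
    rw [bbA_zero]
    change (∑ i : Fin 0, (f default - f (flp default i)) : R) = 0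
    simp
  | d + 1, f => by
    rw [toF_succ, toF_succ, bbA_succ, ← toF_LL d, ← toF_LL d, ← map_nsmul, ← map_add, ← map_add]
    congr 2
    · funext v
      rw [LL_cons, LL_cons]
      have h : (fun v => f (Fin.cons false v) + f (Fin.cons true v)) =
          (fun v => f (Fin.cons false v)) + fun v => f (Fin.cons true v) := rfl
      rw [h, LL_add]
      simp only [Pi.add_apply, Bool.not_false, Bool.not_true]
      ring
    · funext v
      rw [LL_cons]
      have h : (fun v => -f (Fin.cons true v)) = -fun v => f (Fin.cons true v) := rfl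
      rw [h, LL_neg]
      simp only [Pi.add_apply, Pi.neg_apply, Bool.not_true, Pi.smul_apply]
      rw [nsmul_eq_mul]
      push_cast
      ring

/-! ### The degree -/

/-- The coordinate of degree zero. -/
def c0 (R : Type) [CommRing R] : (d : ℕ) → F R d →+ R
  | 0 => AddMonoidHom.id R
  | d + 1 => (c0 R d).comp (pa R d).toAddMonoidHom

theorem c0_pr (d : ℕ) (a b : F R d) : c0 R (d + 1) (pr a b) = c0 R d a := rfl

theorem c0_bbA : ∀ (d : ℕ) (x : F R d), c0 R d (bbA R d x) = 0
  | 0, x => by rw [bbA_zero, map_zero]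
  | d + 1, x => by
    obtain ⟨a, b, rfl⟩ := exists_pr x
    rw [bbA_succ, c0_pr, c0_bbA d]

theorem c0_one : ∀ d : ℕ, c0 R d (one R d) = 1
  | 0 => rfl
  | d + 1 => c0_one d

theorem rat1 (R : Type) [CommRing R] : ∀ (d : ℕ) (g : ℕ → ℤ) (_ : ∀ k, g k ≠ 0) (x : F R d),
    ∃ N : ℤ, N ≠ 0 ∧ ∃ y, ee d y + dg d (fun k => ((g k : ℤ) : R)) y = N • x
  | 0, g, hg, x => by
    refine ⟨g 0, hg 0, x, ?_⟩
    rw [ee_zero, zero_add, dg_zero]
    exact Int.cast_smul_eq_zsmul R (g 0) x
  | d + 1, g, hg, x => by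
    obtain ⟨a, b, rfl⟩ := exists_pr x
    obtain ⟨N1, h1, y1, hy1⟩ := rat1 R d g hg a
    obtain ⟨N2, h2, y2, hy2⟩ := rat1 R d (fun k => g (k + 1)) (fun k => hg (k + 1)) (N1 • b - y1)
    refine ⟨N2 * N1, mul_ne_zero h2 h1, pr (N2 • y1) y2, ?_⟩
    have e1 : (N2 * N1) • pr a b = pr ((N2 * N1) • a) ((N2 * N1) • b) := rfl
    rw [ee_succ, dg_succ, add_pr, e1]
    congr 1
    · rw [map_zsmul, map_zsmul, ← smul_add, hy1, mul_smul]
    · have e2 : (sh fun k => ((g k : ℤ) : R)) = fun k => ((g (k + 1) : ℤ) : R) := rfl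
      rw [e2, add_assoc, hy2, smul_sub, mul_smul]
      abel

theorem rat2 (R : Type) [CommRing R] : ∀ (d : ℕ) (x : F R d) (_ : c0 R d x = 0),
    ∃ N : ℤ, N ≠ 0 ∧ ∃ y, bbA R d y = N • x
  | 0, x, hx => by
    refine ⟨1, one_ne_zero, 0, ?_⟩
    have hx' : x = 0 := hx
    rw [hx', map_zero, smul_zero]
  | d + 1, x, hx => by
    obtain ⟨a, b, rfl⟩ := exists_pr x
    obtain ⟨N1, h1, y1, hy1⟩ := rat2 R d a hx
    obtain ⟨N2, h2, y2, hy2⟩ := rat1 R d (fun k => 2 * (k : ℤ) + 2) (fun k => by positivity)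
      (N1 • b - y1)
    refine ⟨N2 * N1, mul_ne_zero h2 h1, pr (N2 • y1) y2, ?_⟩
    have e1 : (N2 * N1) • pr a b = pr ((N2 * N1) • a) ((N2 * N1) • b) := rfl
    rw [bbA_succ, e1]
    congr 1
    · rw [map_zsmul, hy1, mul_smul]
    · have e2 : bbA R d y2 + 2 • y2 = N2 • (N1 • b - y1) := by
        rw [← hy2]
        change bb d y2 + 2 • y2 = _
        rw [bb_apply]
        have e3 : (fun k : ℕ => (((2 * (k : ℤ) + 2 : ℤ)) : R)) =
            (fun k : ℕ => 2 * (k : R)) + (fun _ => 2) := by
          funext k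
          simp only [Pi.add_apply]
          push_cast
          ring
        rw [e3, dg_add_apply, dg_const_apply, add_assoc]
        congr 2
        exact (Nat.cast_smul_eq_nsmul R 2 y2).symm
      rw [add_assoc, e2, smul_sub, mul_smul]
      abel

/-! ### The count for the cube -/

theorem mem_lapR {d : ℕ} {f : (Fin d → Bool) → ℤ} :
    f ∈ (lapHom (cube d)).range ↔ ∃ y, bbA ℤ d y = toF ℤ d f := by
  rw [AddMonoidHom.mem_range]
  constructor
  · rintro ⟨g, rfl⟩
    exact ⟨toF ℤ d g, by rw [lap_eq, toF_LL]⟩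
  · rintro ⟨y, hy⟩
    refine ⟨(toF ℤ d).symm y, (toF ℤ d).injective ?_⟩
    rw [lap_eq, toF_LL, AddEquiv.apply_symm_apply, hy]

/-- The cokernel of the Laplacian of the cube. -/
abbrev CC (d : ℕ) : Type := Coker (lapHom (cube d))

/-- The projection to the cokernel. -/
def mkC (d : ℕ) : ((Fin d → Bool) → ℤ) →+ CC d := QuotientAddGroup.mk' (lapHom (cube d)).range

theorem mkC_surj (d : ℕ) : Function.Surjective (mkC d) := QuotientAddGroup.mk'_surjective _

theorem mkC_eq_zero {d : ℕ} {f : (Fin d → Bool) → ℤ} :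
    mkC d f = 0 ↔ ∃ y, bbA ℤ d y = toF ℤ d f :=
  (QuotientAddGroup.eq_zero_iff f).trans mem_lapR

/-- The degree on the quotient. -/
def degQ (d : ℕ) : CC d →+ ℤ :=
  QuotientAddGroup.lift (lapHom (cube d)).range ((c0 ℤ d).comp (toF ℤ d).toAddMonoidHom) (by
    intro f hf
    obtain ⟨y, hy⟩ := mem_lapR.1 hf
    change c0 ℤ d (toF ℤ d f) = 0
    rw [← hy, c0_bbA])

theorem degQ_mk (d : ℕ) (f : (Fin d → Bool) → ℤ) :
    degQ d (mkC d f) = c0 ℤ d (toF ℤ d f) := rfl

theorem fg_CC (d : ℕ) : AddGroup.FG (CC d) := by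
  have h1 : AddGroup.FG ((Fin d → Bool) → ℤ) := Module.Finite.iff_addGroup_fg.mp inferInstance
  exact AddGroup.fg_of_surjective (f := mkC d) (mkC_surj d)

theorem cube_count (d j : ℕ) : tc (SylK d) j * 2 ^ j = cnt ℤ d j := by
  have := fg_CC d
  have h := tors_count (A := CC d) (degQ d)
    (mkC d ((toF ℤ d).symm (one ℤ d)))
    (by rw [degQ_mk, AddEquiv.apply_symm_apply, c0_one])
    (by
      intro x hx
      obtain ⟨f, rfl⟩ := mkC_surj d x
      rw [degQ_mk] at hx
      obtain ⟨N, hN, y, hy⟩ := rat2 ℤ d _ hx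
      refine ⟨N, hN, ?_⟩
      rw [← map_zsmul, mkC_eq_zero]
      exact ⟨y, by rw [hy, map_zsmul]⟩) j
  refine h.trans ?_
  rw [cnt_eq]
  have h1 : (mI (CC d) j).comap (mkC d) =
      ((bbA ℤ d).range ⊔ (nsmulAddMonoidHom (2 ^ j) : F ℤ d →+ F ℤ d).range).comap
        (toF ℤ d).toAddMonoidHom := by
    ext f
    rw [AddSubgroup.mem_comap, AddSubgroup.mem_comap, mem_mI, AddSubgroup.mem_sup]
    constructor
    · rintro ⟨y, hy⟩
      obtain ⟨g, rfl⟩ := mkC_surj d y
      rw [← map_nsmul, ← sub_eq_zero, ← map_sub, mkC_eq_zero] at hy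
      obtain ⟨z, hz⟩ := hy
      refine ⟨_, ⟨-z, rfl⟩, _, ⟨toF ℤ d g, rfl⟩, ?_⟩
      rw [map_neg, hz, map_sub]
      change -(toF ℤ d (2 ^ j • g) - toF ℤ d f) + 2 ^ j • toF ℤ d g = toF ℤ d f
      rw [map_nsmul]
      abel
    · rintro ⟨_, ⟨z, rfl⟩, _, ⟨w, rfl⟩, hzw⟩
      refine ⟨mkC d ((toF ℤ d).symm w), ?_⟩
      rw [← map_nsmul, ← sub_eq_zero, ← map_sub, mkC_eq_zero]
      refine ⟨-z, ?_⟩
      rw [map_sub, map_neg, map_nsmul, AddEquiv.apply_symm_apply]
      change bbA ℤ d z + 2 ^ j • w = toF ℤ d f at hzw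
      rw [← hzw]
      abel
  have h2 : ((mI (CC d) j).comap (mkC d)).index = (mI (CC d) j).index :=
    AddSubgroup.index_comap_of_surjective _ (mkC_surj d)
  rw [← h2, h1]
  exact AddSubgroup.index_comap_of_surjective _ (toF ℤ d).surjective

theorem finite_SylK (d : ℕ) : Finite (SylK d) := by
  have := fg_CC d
  have h1 : Finite (AddCommGroup.torsion (CC d)) := finite_torsion (A := CC d)
  exact Subtype.finite (α := AddCommGroup.torsion (CC d))

theorem SylK_pow {d : ℕ} (x : SylK d) : ∃ k : ℕ, 2 ^ k • x = 0 := by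
  obtain ⟨k, hk⟩ := x.2
  exact ⟨k, Subtype.ext hk⟩

end Pool.Agent.helper14.SP
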