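import Mathlib

/-!
# The hypercube graph, the sandpile group of a finite graph and Sylow 2-subgroups
-/

namespace Pool.Agent.helper14.SP

/-- The hypercube graph: the vertices are the elements of `{0,1}^m`, two of them being adjacent
when they differ in exactly one coordinate. -/
def cube (m : ℕ) : SimpleGraph (Fin m → Bool) where
  Adj x y := hammingDist x y = 1
  symm := ⟨fun x y h => by rw [hammingDist_comm]; exact h⟩
  loopless := ⟨fun x h => by simp at h⟩

instance (m : ℕ) : DecidableRel (cube m).Adj := fun x y =>
  instDecidableEqNat (hammingDist x y) 1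

/-- The Laplacian `L_G : ℤ^V → ℤ^V` of a finite graph `G`, given by the Laplacian matrix
`L_G = D - A` (degree matrix minus adjacency matrix) of Mathlib. -/
def lapHom {V : Type} [Fintype V] [DecidableEq V] (G : SimpleGraph V) [DecidableRel G.Adj] :
    (V → ℤ) →+ (V → ℤ) where
  toFun f := (G.lapMatrix ℤ).mulVec f
  map_zero' := Matrix.mulVec_zero _
  map_add' f g := Matrix.mulVec_add _ f g

/-- The cokernel `A / f(A)` of an endomorphism `f` of an abelian group `A`. -/
def Coker {A : Type} [AddCommGroup A] (f : A →+ A) : Type := A ⧸ f.range

instance {A : Type} [AddCommGroup A] (f : A →+ A) : AddCommGroup (Coker f) :=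
  QuotientAddGroup.Quotient.addCommGroup f.range

/-- The torsion subgroup of an abelian group, as a type. -/
def Tor (A : Type) [AddCommGroup A] : Type := AddCommGroup.torsion A

instance (A : Type) [AddCommGroup A] : AddCommGroup (Tor A) :=
  (AddCommGroup.torsion A).toAddCommGroup

/-- The `2`-primary component of an abelian group (its Sylow `2`-subgroup if it is finite), as a
type. -/
def Syl2 (A : Type) [AddCommGroup A] : Type := AddCommGroup.primaryComponent A 2

instance (A : Type) [AddCommGroup A] : AddCommGroup (Syl2 A) :=
  (AddCommGroup.primaryComponent A 2).toAddCommGroup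

/-- The sandpile group (critical group) `K(G)` of a finite graph `G`: the torsion subgroup of
`ℤ^V / L_G ℤ^V`. -/
def Sandpile {V : Type} [Fintype V] [DecidableEq V] (G : SimpleGraph V) [DecidableRel G.Adj] :
    Type := Tor (Coker (lapHom G))

instance {V : Type} [Fintype V] [DecidableEq V] (G : SimpleGraph V) [DecidableRel G.Adj] :
    AddCommGroup (Sandpile G) :=
  (AddCommGroup.torsion (Coker (lapHom G))).toAddCommGroup

/-- `Syl_2(K(Q_m))`. -/
def SylK (m : ℕ) : Type := Syl2 (Sandpile (cube m))

instance (m : ℕ) : AddCommGroup (SylK m) :=
  (AddCommGroup.primaryComponent (Sandpile (cube m)) 2).toAddCommGroup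

/-- Two abelian groups are isomorphic. -/
def Isomorphic (A B : Type) [AddCommGroup A] [AddCommGroup B] : Prop := Nonempty (A ≃+ B)

end Pool.Agent.helper14.SP
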