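import Pool.Agent.helper14.SP.Abs

/-!
# Graded modules with a raising operator
-/

namespace Pool.Agent.helper14.SP

variable {R : Type} [CommRing R] {M : Type} [AddCommGroup M] [Module R M]

/-- A raising operator together with the diagonal operators. -/
structure Gr (R M : Type) [CommRing R] [AddCommGroup M] [Module R M] where
  /-- the raising operator -/
  e : M →ₗ[R] M
  /-- the diagonal operators -/
  D : (ℕ → R) →+* Module.End R M
  comm : ∀ g x, D g (e x) = e (D (sh g) x)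
  const : ∀ (r : R) x, D (fun _ => r) x = r • x

/-- At or above the degree `k0`. -/
def up (k0 : ℕ) : ℕ → R := fun k => if k0 ≤ k then 1 else 0

theorem lo_add_up (k0 : ℕ) : (lo k0 + up k0 : ℕ → R) = 1 := by
  funext k
  simp only [Pi.add_apply, lo, up, Pi.one_apply]
  split_ifs <;> first | omega | simp

theorem up_eq (k0 : ℕ) : (up k0 : ℕ → R) = dl k0 + hi k0 := by
  funext k
  simp only [Pi.add_apply, dl, up, hi]
  split_ifs <;> first | omega | simp

theorem hi_mul_hi (k0 : ℕ) : (hi k0 * hi k0 : ℕ → R) = hi k0 := by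
  funext k
  simp only [Pi.mul_apply, hi]
  split_ifs <;> simp

theorem dl_mul_dl (k0 : ℕ) : (dl k0 * dl k0 : ℕ → R) = dl k0 := by
  funext k
  simp only [Pi.mul_apply, dl]
  split_ifs <;> simp

theorem hi_mul_dl (k0 : ℕ) : (hi k0 * dl k0 : ℕ → R) = 0 := by
  funext k
  simp only [Pi.mul_apply, hi, dl, Pi.zero_apply]
  split_ifs <;> first | omega | simp

theorem hi_mul_lo (k0 : ℕ) : (hi k0 * lo k0 : ℕ → R) = 0 := by
  funext k
  simp only [Pi.mul_apply, hi, lo, Pi.zero_apply]
  split_ifs <;> first | omega | simp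

theorem lo_mul_up (k0 : ℕ) : (lo k0 * up k0 : ℕ → R) = 0 := by
  funext k
  simp only [Pi.mul_apply, up, lo, Pi.zero_apply]
  split_ifs <;> first | omega | simp

theorem dl_mul_lo (k0 : ℕ) : (dl k0 * lo k0 : ℕ → R) = 0 := by
  funext k
  simp only [Pi.mul_apply, dl, lo, Pi.zero_apply]
  split_ifs <;> first | omega | simp

theorem sh_hi (k0 : ℕ) : (sh (hi k0) : ℕ → R) = up k0 := by
  funext k
  simp only [sh, hi, up]
  split_ifs <;> first | omega | simp

theorem up_mul_up (k0 : ℕ) : (up k0 * up k0 : ℕ → R) = up k0 := by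
  funext k
  simp only [Pi.mul_apply, up]
  split_ifs <;> simp

theorem up_mul_lo (k0 : ℕ) : (up k0 * lo k0 : ℕ → R) = 0 := by
  rw [mul_comm, lo_mul_up]

theorem hi_g0_up (k0 : ℕ) : (hi k0 * g0 k0 * up k0 : ℕ → R) = g0 k0 * up k0 := by
  funext k
  simp only [Pi.mul_apply, hi, g0, up]
  split_ifs with h1 h2 h3
  · simp
  · omega
  · have : k = k0 := by omega
    subst this
    simp
  · simp

theorem hi_g0_lo (k0 : ℕ) : (hi k0 * g0 k0 * lo k0 : ℕ → R) = 0 := by
  rw [mul_right_comm, hi_mul_lo, zero_mul]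

theorem lo_eq_sum (k0 : ℕ) : (lo k0 : ℕ → R) = ∑ a ∈ Finset.range k0, dl a := by
  funext k
  rw [Finset.sum_apply]
  simp only [lo, dl, Finset.sum_ite_eq, Finset.mem_range]

theorem dl_g0 (k0 a : ℕ) : (dl a * g0 k0 : ℕ → R) = (fun _ => 2 * ((a : R) - k0)) * dl a := by
  funext k
  simp only [Pi.mul_apply, dl, g0]
  split_ifs with h
  · subst h; ring
  · ring

namespace Gr

variable (G : Gr R M)

/-- The shifted operator `E_0`. -/
def E0 (k0 : ℕ) : M →ₗ[R] M := G.e + G.D (g0 k0)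

theorem E0_apply (k0 : ℕ) (x : M) : G.E0 k0 x = G.e x + G.D (g0 k0) x := rfl

/-- The corrected operator `E_c`. -/
def Ec (k0 n : ℕ) : M →ₗ[R] M := G.E0 k0 + (2 ^ n : R) • G.D (dl k0)

theorem Ec_apply (k0 n : ℕ) (x : M) : G.Ec k0 n x = G.E0 k0 x + (2 ^ n : R) • G.D (dl k0) x := rfl

theorem D_mul (g h : ℕ → R) (x : M) : G.D (g * h) x = G.D g (G.D h x) := by
  rw [map_mul]; rfl

theorem D_add (g h : ℕ → R) (x : M) : G.D (g + h) x = G.D g x + G.D h x := by
  rw [map_add]; rfl

theorem D_zero (x : M) : G.D 0 x = 0 := by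
  rw [map_zero]; rfl

theorem D_one (x : M) : G.D 1 x = x := by
  rw [map_one]; rfl

theorem split_up (k0 : ℕ) (x : M) : G.D (lo k0) x + G.D (up k0) x = x := by
  rw [← D_add, lo_add_up, D_one]

theorem hi_E0_lo (k0 : ℕ) (x : M) : G.D (hi k0) (G.E0 k0 (G.D (lo k0) x)) = 0 := by
  rw [E0_apply, map_add, G.comm, ← D_mul, ← D_mul, ← D_mul, sh_hi, up_mul_lo,
    hi_g0_lo, D_zero, map_zero, add_zero]

theorem hi_E0_up (k0 : ℕ) (x : M) :
    G.D (hi k0) (G.E0 k0 (G.D (up k0) x)) = G.E0 k0 (G.D (up k0) x) := by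
  rw [E0_apply, map_add, G.comm, ← D_mul, ← D_mul, ← D_mul, sh_hi, up_mul_up,
    hi_g0_up, D_mul]

theorem E0_inj_dl [IsDomain R] [CharZero R] (htf : ∀ (r : R) (x : M), r ≠ 0 → r • x = 0 → x = 0)
    (k0 : ℕ) {x : M} (hx : G.E0 k0 x = 0) : ∀ a, a < k0 → G.D (dl a) x = 0 := by
  have hne : ∀ a, a < k0 → (2 * ((a : R) - k0)) ≠ 0 := by
    intro a ha
    refine mul_ne_zero two_ne_zero (sub_ne_zero.2 ?_)
    exact_mod_cast ha.ne
  intro a
  induction a with
  | zero =>
    intro ha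
    have h1 : G.D (dl 0) (G.E0 k0 x) = 0 := by rw [hx, map_zero]
    rw [E0_apply, map_add, G.comm, sh_dl_zero, D_zero, map_zero, zero_add, ← D_mul, dl_g0, D_mul,
      G.const] at h1
    exact htf _ _ (hne 0 ha) h1
  | succ a ih =>
    intro ha
    have h1 : G.D (dl (a + 1)) (G.E0 k0 x) = 0 := by rw [hx, map_zero]
    rw [E0_apply, map_add, G.comm, sh_dl_succ, ih (by omega), map_zero, zero_add, ← D_mul, dl_g0,
      D_mul, G.const] at h1
    exact htf _ _ (hne (a + 1) ha) h1

theorem E0_inj [IsDomain R] [CharZero R] (htf : ∀ (r : R) (x : M), r ≠ 0 → r • x = 0 → x = 0)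
    (k0 : ℕ) {x : M} (hx : G.E0 k0 x = 0) : G.D (lo k0) x = 0 := by
  rw [lo_eq_sum, map_sum, LinearMap.sum_apply]
  exact Finset.sum_eq_zero fun a ha => G.E0_inj_dl htf k0 hx a (Finset.mem_range.1 ha)

section CC

variable {k0 n : ℕ} (W : M →ₗ[R] M)

/-- The unipotent automorphism. -/
def psi (k0 : ℕ) : M ≃ₗ[R] M where
  toFun x := x - G.D (dl k0) (W (G.D (hi k0) x))
  invFun x := x + G.D (dl k0) (W (G.D (hi k0) x))
  map_add' x y := by simp only [map_add]; abel
  map_smul' r x := by simp only [map_smul, RingHom.id_apply, smul_sub]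
  left_inv x := by
    simp only [map_sub, ← G.D_mul, hi_mul_dl, map_zero, LinearMap.zero_apply, sub_zero]
    abel
  right_inv x := by
    simp only [map_add, ← G.D_mul, hi_mul_dl, map_zero, LinearMap.zero_apply, add_zero]
    abel

theorem psi_apply (k0 : ℕ) (x : M) :
    G.psi W k0 x = x - G.D (dl k0) (W (G.D (hi k0) x)) := rfl

theorem psi_symm_apply (k0 : ℕ) (x : M) :
    (G.psi W k0).symm x = x + G.D (dl k0) (W (G.D (hi k0) x)) := rfl

/-- The comparison of the two lattices. -/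
theorem idx_QQ_Ec [IsDomain R] [CharZero R]
    (htf : ∀ (r : R) (x : M), r ≠ 0 → r • x = 0 → x = 0)
    (hW1 : ∀ z, G.D (lo k0) (W z) = 0)
    (hW2 : ∀ z, G.E0 k0 (W z) = (2 ^ n : R) • G.D (hi k0) z) (i : ℕ) :
    idx (QQ (G.Ec k0 n) n i) = idx (JJ (G.E0 k0) n i) := by
  have h2n : (2 ^ n : R) ≠ 0 := pow_ne_zero _ two_ne_zero
  have hupW : ∀ z, G.D (up k0) (W z) = W z := by
    intro z
    have := G.split_up k0 (W z)
    rwa [hW1, zero_add] at this
  refine idx_congr (G.psi W k0) _ _ fun y => ?_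
  rw [mem_QQ, mem_JJ]
  constructor
  · rintro ⟨y', q, ⟨x, hx⟩, rfl⟩
    -- `y' = p + π x`
    set p := y' - G.D (dl k0) x with hp
    have hy' : y' = p + G.D (dl k0) x := by rw [hp]; abel
    have hpx : G.E0 k0 x = (2 ^ n : R) • p := by
      rw [Ec_apply] at hx
      rw [hp, smul_sub, ← hx]
      abel
    have hhip : (2 ^ n : R) • G.D (hi k0) p = G.E0 k0 (G.D (up k0) x) := by
      rw [← map_smul, ← hpx]
      conv_lhs => rw [← G.split_up k0 x]
      rw [map_add, map_add, hi_E0_lo, zero_add, hi_E0_up]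
    set k := G.D (up k0) x - W (G.D (hi k0) p) with hk
    have hk0 : G.E0 k0 k = 0 := by
      rw [hk, map_sub, hW2, ← hhip, ← G.D_mul, hi_mul_hi, sub_self]
    have hupk : G.D (up k0) k = k := by
      rw [hk, map_sub, ← G.D_mul, up_mul_up, hupW]
    have hdlk : G.D (dl k0) k = G.D (dl k0) x - G.D (dl k0) (W (G.D (hi k0) p)) := by
      rw [hk, map_sub, ← G.D_mul]
      congr 2
      rw [up_eq, mul_add, dl_mul_dl, mul_comm, hi_mul_dl, add_zero]
    have hhiy : G.D (hi k0) y' = G.D (hi k0) p := by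
      rw [hy', map_add, ← G.D_mul, hi_mul_dl, G.D_zero, add_zero]
    have hk' : G.D (dl k0) k = k - G.D (hi k0) k := by
      conv_rhs => rw [← hupk]
      rw [← G.D_mul]
      have e1 : (hi k0 * up k0 : ℕ → R) = hi k0 := by
        rw [up_eq, mul_add, hi_mul_dl, hi_mul_hi, zero_add]
      rw [e1, up_eq, G.D_add]
      abel
    refine ⟨k, p - G.D (hi k0) k, G.psi W k0 q, hk0, ⟨x - W k, ?_⟩, ?_⟩
    · rw [map_sub, hpx, hW2]
      exact (smul_sub _ _ _).symm
    · rw [map_add, map_smul]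
      congr 1
      rw [psi_apply, hhiy]
      have e2 : y' - G.D (dl k0) (W (G.D (hi k0) p)) = p + G.D (dl k0) k := by
        rw [hdlk, hy']
        abel
      rw [e2, hk']
      abel
  · rintro ⟨k, p, q, hk, ⟨x, hx⟩, hsum⟩
    have hlok : G.D (lo k0) k = 0 := G.E0_inj htf k0 hk
    have hupk : G.D (up k0) k = k := by
      have := G.split_up k0 k
      rwa [hlok, zero_add] at this
    set p' := G.D (hi k0) k + p with hp'
    set x' := W k + x with hx'
    have hpx' : G.E0 k0 x' = (2 ^ n : R) • p' := by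
      rw [hx', map_add, hW2, hx, hp', smul_add]
    have hhip' : (2 ^ n : R) • G.D (hi k0) p' = G.E0 k0 (G.D (up k0) x') := by
      rw [← map_smul, ← hpx']
      conv_lhs => rw [← G.split_up k0 x']
      rw [map_add, map_add, hi_E0_lo, zero_add, hi_E0_up]
    have hk' : k = G.D (dl k0) k + G.D (hi k0) k := by
      conv_lhs => rw [← hupk]
      rw [up_eq, G.D_add]
    have hq : k + p = G.D (dl k0) k + p' := by
      rw [hp', ← add_assoc, ← hk']
    have hhiq : G.D (hi k0) (k + p) = G.D (hi k0) p' := by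
      rw [hq, map_add, ← G.D_mul, hi_mul_dl, G.D_zero, zero_add]
    set x'' := G.D (lo k0) x' + W (G.D (hi k0) p') + k with hx''
    have hE : G.E0 k0 x'' = (2 ^ n : R) • p' := by
      rw [hx'', map_add, map_add, hk, add_zero, hW2, ← G.D_mul, hi_mul_hi, hhip', ← map_add,
        G.split_up, hpx']
    have hdl : G.D (dl k0) x'' = G.D (dl k0) (W (G.D (hi k0) p')) + G.D (dl k0) k := by
      rw [hx'', map_add, map_add, ← G.D_mul, dl_mul_lo, G.D_zero, zero_add]
    have hy : y = (G.psi W k0).symm (k + p) + (2 ^ i : R) • (G.psi W k0).symm q := by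
      rw [← map_smul, ← map_add, hsum, LinearEquiv.symm_apply_apply]
    refine ⟨(G.psi W k0).symm (k + p), (G.psi W k0).symm q, ⟨x'', ?_⟩, hy.symm⟩
    rw [psi_symm_apply, hhiq, hq, Ec_apply, hE, hdl]
    clear_value p' x''
    module

end CC

end Gr

end Pool.Agent.helper14.SP
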