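import Pool.Agent.helper14.SP.Model

/-!
# The upper half of the cube
-/

namespace Pool.Agent.helper14.SP

variable {R : Type} [CommRing R]

theorem dg_dl_big : ∀ (d a : ℕ) (_ : d < a) (x : F R d), dg d (dl a) x = 0
  | 0, a, h, x => by
    have : (dl a : ℕ → R) 0 = 0 := by
      have h1 : ¬ (0 = a) := by omega
      simp [dl, h1]
    rw [dg_zero, this, zero_smul]
  | d + 1, 0, h, z => by omega
  | d + 1, a + 1, h, z => by
    obtain ⟨x, y, rfl⟩ := exists_pr z
    rw [dg_succ, sh_dl_succ, dg_dl_big d (a + 1) (by omega) x, dg_dl_big d a (by omega) y, pr_zero]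

theorem dg_eq_sum : ∀ (d : ℕ) (g : ℕ → R) (x : F R d),
    dg d g x = ∑ a ∈ Finset.range (d + 1), g a • dg d (dl a) x
  | 0, g, x => by
    have : (dl 0 : ℕ → R) 0 = 1 := by simp [dl]
    rw [Finset.sum_range_one, dg_zero, dg_zero, this, one_smul]
  | d + 1, g, z => by
    obtain ⟨x, y, rfl⟩ := exists_pr z
    simp only [dg_succ, smul_pr, sum_pr]
    congr 1
    · rw [Finset.sum_range_succ, dg_dl_big d (d + 1) (by omega) x, smul_zero, add_zero]
      exact dg_eq_sum d g x
    · rw [Finset.sum_range_succ', sh_dl_zero, dg_zero_apply, smul_zero, add_zero]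
      simp only [sh_dl_succ]
      exact dg_eq_sum d (sh g) y

/-- Below the degree `k0`. -/
def lo (k0 : ℕ) : ℕ → R := fun k => if k < k0 then 1 else 0

/-- Above the degree `k0`. -/
def hi (k0 : ℕ) : ℕ → R := fun k => if k0 < k then 1 else 0

/-- The weights of the shifted operator. -/
def g0 (k0 : ℕ) : ℕ → R := fun k => 2 * ((k : R) - (k0 : R))

theorem exists_beta [IsDomain R] [CharZero R] (hodd : ∀ k : ℕ, Odd k → IsUnit (k : R)) (n : ℕ) :
    ∀ (i s : ℕ), i < s → s < 2 ^ (n + 1) →
      ∃ β : R, β * ((s * (s - 1).choose i : ℕ) : R) = 2 ^ n := by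
  intro i
  induction i with
  | zero =>
    intro s hs hs2
    obtain ⟨v, m, hm, rfl⟩ := Nat.exists_eq_two_pow_mul_odd (by omega : s ≠ 0)
    have hv : v ≤ n := by
      by_contra hcon
      have h1 : 2 ^ (n + 1) ≤ 2 ^ v := Nat.pow_le_pow_right (by norm_num) (by omega)
      have h2 : 2 ^ v ≤ 2 ^ v * m := Nat.le_mul_of_pos_right _ hm.pos
      omega
    obtain ⟨u, hu⟩ := hodd m hm
    refine ⟨2 ^ (n - v) * ((u⁻¹ : Rˣ) : R), ?_⟩
    rw [Nat.choose_zero_right, mul_one]
    push_cast
    rw [← hu]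
    have h3 : ((u⁻¹ : Rˣ) : R) * (u : R) = 1 := Units.inv_mul u
    calc (2 : R) ^ (n - v) * ((u⁻¹ : Rˣ) : R) * (2 ^ v * (u : R))
        = (2 ^ (n - v) * 2 ^ v) * (((u⁻¹ : Rˣ) : R) * (u : R)) := by ring
      _ = 2 ^ n := by rw [h3, mul_one, ← pow_add, Nat.sub_add_cancel hv]
  | succ i ih =>
    intro s hs hs2
    obtain ⟨t, rfl⟩ : ∃ t, s = t + 2 := ⟨s - 2, by omega⟩
    obtain ⟨β1, h1⟩ := ih (t + 1) (by omega) (by omega)
    obtain ⟨β2, h2⟩ := ih (t + 2) (by omega) hs2
    refine ⟨β1 - β2, ?_⟩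
    have e1 : t + 1 - 1 = t := rfl
    have e2 : t + 2 - 1 = t + 1 := rfl
    rw [e1] at h1
    rw [e2] at h2 ⊢
    have c1 : (t + 1) * t.choose i = (t + 1).choose (i + 1) * (i + 1) := Nat.add_one_mul_choose_eq t i
    have c2 : (t + 1).choose (i + 1) * (i + 1) = (t + 1).choose i * (t + 1 - i) :=
      Nat.choose_succ_right_eq (t + 1) i
    have hne : ((i : R) + 1) ≠ 0 := by exact_mod_cast Nat.succ_ne_zero i
    apply mul_right_cancel₀ hne
    have c1' : ((t : R) + 1) * (t.choose i : R) = ((t + 1).choose (i + 1) : R) * ((i : R) + 1) := by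
      exact_mod_cast congrArg (Nat.cast : ℕ → R) c1
    have c2' : ((t + 1).choose (i + 1) : R) * ((i : R) + 1) =
        ((t + 1).choose i : R) * ((t : R) + 1 - i) := by
      have := congrArg (Nat.cast : ℕ → R) c2
      push_cast [Nat.cast_sub (by omega : i ≤ t + 1)] at this
      exact this
    push_cast at h1 h2 ⊢
    linear_combination (-(t : R) - 2) * β1 * c1' - ((t : R) + 2) * β2 * c2' + ((t : R) + 2) * h1 -
      ((t : R) + 1 - i) * h2

theorem dg_hom {d : ℕ} {b : ℕ} {y : F R d} (hy : ∀ g : ℕ → R, dg d g y = g b • y) (t : ℕ)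
    (g : ℕ → R) : dg d g (dp d t y) = g (b + t) • dp d t y := by
  rw [dg_dp, hy, map_smul]

theorem half_gen [IsDomain R] [CharZero R] (hodd : ∀ k : ℕ, Odd k → IsUnit (k : R)) (n k0 : ℕ)
    {d b s : ℕ} {y : F R d} (hy : ∀ g : ℕ → R, dg d g y = g b • y) (hb : b ≤ k0)
    (hs : k0 < b + s) (hs2 : s < 2 ^ (n + 1)) :
    ∃ w : F R d, dg d (lo k0) w = 0 ∧
      ee d w + dg d (g0 k0) w = (2 ^ n : R) • dp d s y := by
  obtain ⟨j, rfl⟩ : ∃ j, k0 = b + j := ⟨k0 - b, by omega⟩
  obtain ⟨m, rfl⟩ : ∃ m, s = (m + 1) + j := ⟨s - j - 1, by omega⟩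
  have hβ : ∀ i : ℕ, ∃ β : R, i < (m + 1) + j →
      β * (((m + 1 + j) * (m + j).choose i : ℕ) : R) = 2 ^ n := by
    intro i
    by_cases hi : i < (m + 1) + j
    · obtain ⟨β, h⟩ := exists_beta hodd n i ((m + 1) + j) hi hs2
      refine ⟨β, fun _ => ?_⟩
      have : m + 1 + j - 1 = m + j := by omega
      rw [this] at h
      exact h
    · exact ⟨0, fun h => absurd h hi⟩
  choose β hβ using hβ
  set c : ℕ → R := fun i => (-2) ^ i * (m.choose i : R) * β i * ((m : R) + 1 + j - i) with hc
  set f : ℕ → F R d := fun i => c i • dp d (m + 1 + j - i) y with hf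
  refine ⟨∑ i ∈ Finset.range (m + 1), ((-2) ^ i * (m.choose i : R) * β i) • dp d (m + j - i) y,
    ?_, ?_⟩
  · rw [map_sum]
    refine Finset.sum_eq_zero fun i hi => ?_
    rw [Finset.mem_range] at hi
    rw [map_smul, dg_hom hy]
    have : (lo (b + j) : ℕ → R) (b + (m + j - i)) = 0 := by
      rw [lo, if_neg (by omega)]
    rw [this, zero_smul, smul_zero]
  · rw [map_sum, map_sum, ← Finset.sum_add_distrib]
    have key : ∀ i ∈ Finset.range (m + 1),
        ee d (((-2) ^ i * (m.choose i : R) * β i) • dp d (m + j - i) y) +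
          dg d (g0 (b + j)) (((-2) ^ i * (m.choose i : R) * β i) • dp d (m + j - i) y) =
        f i - f (i + 1) := by
      intro i hi
      rw [Finset.mem_range] at hi
      rw [map_smul, map_smul, ee_dp, dg_hom hy]
      have e1 : m + j - i + 1 = m + 1 + j - i := by omega
      have e2 : m + 1 + j - (i + 1) = m + j - i := by omega
      have e3 : ((m + j - i : ℕ) : R) = (m : R) + j - i := by
        rw [Nat.cast_sub (by omega)]; push_cast; ring
      rw [hf]
      simp only
      rw [e2, e1, e3]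
      have hg : (g0 (b + j) : ℕ → R) (b + (m + j - i)) = 2 * ((m : R) - i) := by
        rw [g0, Nat.cast_add, e3]; push_cast; ring
      rw [hg]
      have hkey : (-2) ^ i * (m.choose i : R) * β i * (2 * ((m : R) - i)) = - c (i + 1) := by
        rw [hc]
        simp only
        by_cases him : i = m
        · subst him
          rw [sub_self, Nat.choose_succ_self]
          push_cast; ring
        · have him' : i < m := by omega
          have b1 := hβ i (by omega)
          have b2 := hβ (i + 1) (by omega)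
          have c1 : (m.choose (i + 1) : R) * ((i : R) + 1) = (m.choose i : R) * ((m : R) - i) := by
            have := congrArg (Nat.cast : ℕ → R) (Nat.choose_succ_right_eq m i)
            push_cast [Nat.cast_sub him'.le] at this
            exact this
          have c2 : ((m + j).choose (i + 1) : R) * ((i : R) + 1) =
              ((m + j).choose i : R) * ((m : R) + j - i) := by
            have := congrArg (Nat.cast : ℕ → R) (Nat.choose_succ_right_eq (m + j) i)
            push_cast [Nat.cast_sub (by omega : i ≤ m + j)] at this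
            exact this
          have hpos : (((m + 1 + j) * (m + j).choose i : ℕ) : R) ≠ 0 := by
            rw [Nat.cast_ne_zero]
            exact Nat.mul_ne_zero (by omega) (Nat.choose_pos (by omega)).ne'
          have b3 : ((i : R) + 1) * β i = ((m : R) + j - i) * β (i + 1) := by
            apply mul_right_cancel₀ hpos
            push_cast at b1 b2 ⊢
            linear_combination ((i : R) + 1) * b1 - ((i : R) + 1) * b2 +
              ((m : R) + 1 + j) * β (i + 1) * c2
          push_cast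
          rw [pow_succ]
          linear_combination (-2 * (-2) ^ i * β i) * c1 -
            ((-2) ^ i * (m.choose (i + 1) : R) * (-2)) * b3
      have h5 : (((-2) ^ i * (m.choose i : R) * β i) • ((m : R) + j - i + 1) •
          dp d (m + 1 + j - i) y) = c i • dp d (m + 1 + j - i) y := by
        rw [smul_smul, hc]
        congr 1
        ring
      rw [h5, smul_smul, hkey, neg_smul, sub_eq_add_neg]
    rw [Finset.sum_congr rfl key, Finset.sum_range_sub']
    rw [hf]
    simp only
    have h0 : c 0 = 2 ^ n := by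
      have b0 := hβ 0 (by omega)
      rw [hc]
      simp only [pow_zero, Nat.choose_zero_right, Nat.cast_one, one_mul, Nat.cast_zero, sub_zero]
      rw [← b0, Nat.choose_zero_right, mul_one]
      push_cast
      ring
    have h1 : c (m + 1) = 0 := by
      rw [hc]
      simp only
      rw [Nat.choose_succ_self]
      push_cast; ring
    rw [h0, h1, zero_smul, sub_zero, Nat.sub_zero]

theorem half_hom [IsDomain R] [CharZero R] (hodd : ∀ k : ℕ, Odd k → IsUnit (k : R)) {n k0 : ℕ}
    (hk : 2 * k0 = 2 ^ n) {d a : ℕ} (hd : d ≤ 2 * k0) (ha : k0 < a) (z : F R d) :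
    ∃ w : F R d, dg d (lo k0) w = 0 ∧
      ee d w + dg d (g0 k0) w = (2 ^ n : R) • dg d (dl a) z := by
  have hz : TT d a (dg d (dl a) z) = dg d (dl a) z := by
    rw [TT_dl d a a le_rfl, if_pos rfl]
  have hterm : ∀ p ∈ Finset.HasAntidiagonal.antidiagonal a, ∃ w : F R d, dg d (lo k0) w = 0 ∧
      ee d w + dg d (g0 k0) w =
        (2 ^ n : R) • (((-1 : R) ^ p.1) • dp d p.2 (th d p.1 (dg d (dl a) z))) := by
    intro p hp
    rw [Finset.HasAntidiagonal.mem_antidiagonal] at hp
    by_cases hpa : d < a + p.1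
    · refine ⟨0, map_zero _, ?_⟩
      rw [th_dl d a p.1 hpa, map_zero, map_zero, map_zero, smul_zero, smul_zero, add_zero]
    · obtain ⟨w, hw1, hw2⟩ := half_gen hodd n k0 (d := d) (b := p.1) (s := p.2)
        (y := th d p.1 (dg d (dl a) z)) (fun g => dg_th d p.1 g _) (by omega) (by omega)
        (by rw [pow_succ]; omega)
      refine ⟨((-1 : R) ^ p.1) • w, ?_, ?_⟩
      · rw [map_smul, hw1, smul_zero]
      · rw [map_smul, map_smul, ← smul_add, hw2, smul_comm]
  choose! w hw1 hw2 using hterm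
  refine ⟨∑ p ∈ Finset.HasAntidiagonal.antidiagonal a, w p, ?_, ?_⟩
  · rw [map_sum]
    exact Finset.sum_eq_zero fun p hp => hw1 p hp
  · rw [map_sum, map_sum, ← Finset.sum_add_distrib, Finset.sum_congr rfl hw2, ← Finset.smul_sum]
    conv_rhs => rw [← hz]
    rfl

theorem half_all [IsDomain R] [CharZero R] (hodd : ∀ k : ℕ, Odd k → IsUnit (k : R)) {n k0 : ℕ}
    (hk : 2 * k0 = 2 ^ n) {d : ℕ} (hd : d ≤ 2 * k0) (z : F R d) :
    ∃ w : F R d, dg d (lo k0) w = 0 ∧
      ee d w + dg d (g0 k0) w = (2 ^ n : R) • dg d (hi k0) z := by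
  have hterm : ∀ a ∈ Finset.range (d + 1), ∃ w : F R d, dg d (lo k0) w = 0 ∧
      ee d w + dg d (g0 k0) w = (2 ^ n : R) • ((hi k0 : ℕ → R) a • dg d (dl a) z) := by
    intro a _
    by_cases ha : k0 < a
    · obtain ⟨w, h1, h2⟩ := half_hom hodd hk hd ha z
      refine ⟨w, h1, ?_⟩
      rw [h2, hi, if_pos ha, one_smul]
    · refine ⟨0, map_zero _, ?_⟩
      rw [hi, if_neg ha, zero_smul, smul_zero, map_zero, map_zero, add_zero]
  choose! w hw1 hw2 using hterm
  refine ⟨∑ a ∈ Finset.range (d + 1), w a, ?_, ?_⟩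
  · rw [map_sum]
    exact Finset.sum_eq_zero fun p hp => hw1 p hp
  · rw [map_sum, map_sum, ← Finset.sum_add_distrib, Finset.sum_congr rfl hw2, ← Finset.smul_sum,
      ← dg_eq_sum]

/-- A linear choice of preimages. -/
theorem exists_lift {M : Type} [AddCommGroup M] [Module R M] [Module.Projective R M]
    (E L T : M →ₗ[R] M) (h : ∀ z, ∃ w, L w = 0 ∧ E w = T z) :
    ∃ W : M →ₗ[R] M, ∀ z, L (W z) = 0 ∧ E (W z) = T z := by
  let f : M →ₗ[R] M × M := E.prod L
  let g : M →ₗ[R] M × M := T.prod 0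
  have hg : ∀ z, g z ∈ LinearMap.range f := by
    intro z
    obtain ⟨w, h1, h2⟩ := h z
    exact ⟨w, Prod.ext h2 h1⟩
  obtain ⟨W, hW⟩ := Module.projective_lifting_property f.rangeRestrict (g.codRestrict _ hg)
    f.surjective_rangeRestrict
  refine ⟨W, fun z => ?_⟩
  have h1 := congrArg Subtype.val (LinearMap.congr_fun hW z)
  exact ⟨congrArg Prod.snd h1, congrArg Prod.fst h1⟩

instance instProjF (R : Type) [CommRing R] : (d : ℕ) → Module.Projective R (F R d)
  | 0 => inferInstanceAs (Module.Projective R R)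
  | d + 1 =>
    haveI := instProjF R d
    inferInstanceAs (Module.Projective R (F R d × F R d))

theorem exists_W [IsDomain R] [CharZero R] (hodd : ∀ k : ℕ, Odd k → IsUnit (k : R)) {n k0 : ℕ}
    (hk : 2 * k0 = 2 ^ n) {d : ℕ} (hd : d ≤ 2 * k0) :
    ∃ W : F R d →ₗ[R] F R d, ∀ z, dg d (lo k0) (W z) = 0 ∧
      ee d (W z) + dg d (g0 k0) (W z) = (2 ^ n : R) • dg d (hi k0) z := by
  have h := half_all (R := R) hodd hk hd
  exact exists_lift (R := R) (M := F R d) (ee d + dg d (g0 k0)) (dg d (lo k0))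
    ((2 ^ n : R) • dg d (hi k0)) h

end Pool.Agent.helper14.SP
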