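import Pool.Agent.helper14.SP.Grad

/-!
# Doubling of a graded module
-/

namespace Pool.Agent.helper14.SP

variable {R : Type} [CommRing R] {M : Type} [AddCommGroup M] [Module R M]

namespace Gr

/-- The doubling of a graded module. -/
def dbl (G : Gr R M) : Gr R (M × M) where
  e := (G.e.comp (LinearMap.fst R M M)).prod
    (LinearMap.fst R M M + G.e.comp (LinearMap.snd R M M))
  D :=
    { toFun := fun g => (G.D g).prodMap (G.D (sh g))
      map_one' := by
        refine LinearMap.ext fun x => Prod.ext ?_ ?_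
        · exact G.D_one x.1
        · exact G.D_one x.2
      map_mul' := fun g h => by
        refine LinearMap.ext fun x => Prod.ext ?_ ?_
        · exact G.D_mul g h x.1
        · exact G.D_mul (sh g) (sh h) x.2
      map_zero' := by
        refine LinearMap.ext fun x => Prod.ext ?_ ?_
        · exact G.D_zero x.1
        · exact G.D_zero x.2
      map_add' := fun g h => by
        refine LinearMap.ext fun x => Prod.ext ?_ ?_
        · exact G.D_add g h x.1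
        · exact G.D_add (sh g) (sh h) x.2 }
  comm g x := by
    refine Prod.ext ?_ ?_
    · exact G.comm g x.1
    · change G.D (sh g) (x.1 + G.e x.2) = G.D (sh g) x.1 + G.e (G.D (sh (sh g)) x.2)
      rw [map_add, G.comm]
  const r x := by
    refine Prod.ext ?_ ?_
    · exact G.const r x.1
    · exact G.const r x.2

theorem dbl_e (G : Gr R M) (a b : M) : G.dbl.e (a, b) = (G.e a, a + G.e b) := rfl

theorem dbl_D (G : Gr R M) (g : ℕ → R) (a b : M) : G.dbl.D g (a, b) = (G.D g a, G.D (sh g) b) := rfl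

theorem dbl_E0 (G : Gr R M) (k0 : ℕ) : G.dbl.E0 k0 = SP.dbl (G.E0 k0) := by
  refine LinearMap.ext fun ⟨a, b⟩ => ?_
  rw [E0_apply, dbl_e, dbl_D, dbl_apply, E0_apply, E0_apply]
  have h : (sh (g0 k0) : ℕ → R) = g0 k0 + (fun _ => 2) := by
    funext k
    simp only [sh, g0, Pi.add_apply]
    push_cast
    ring
  rw [h, G.D_add, G.const]
  refine Prod.ext rfl ?_
  change a + G.e b + (G.D (g0 k0) b + (2 : R) • b) = a + (G.e b + G.D (g0 k0) b + (2 : R) • b)
  abel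

/-- A unit valued sequence acts invertibly. -/
def unitE (G : Gr R M) (u : ℕ → Rˣ) : M ≃ₗ[R] M where
  toFun := G.D (fun k => (u k : R))
  invFun := G.D (fun k => ((u k)⁻¹ : Rˣ))
  map_add' := map_add _
  map_smul' := map_smul _
  left_inv x := by
    rw [← G.D_mul]
    have : ((fun k => (((u k)⁻¹ : Rˣ) : R)) * fun k => (u k : R)) = 1 := by
      funext k
      exact Units.inv_mul _
    rw [this, G.D_one]
  right_inv x := by
    rw [← G.D_mul]
    have : ((fun k => (u k : R)) * fun k => (((u k)⁻¹ : Rˣ) : R)) = 1 := by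
      funext k
      exact Units.mul_inv _
    rw [this, G.D_one]

theorem unitE_apply (G : Gr R M) (u : ℕ → Rˣ) (x : M) :
    G.unitE u x = G.D (fun k => (u k : R)) x := rfl

/-- Accumulated product. -/
def accu (w : ℕ → Rˣ) : ℕ → Rˣ
  | 0 => 1
  | k + 1 => accu w k * (w k)⁻¹

/-- The scaling lemma. -/
theorem idx_scale (G : Gr R M) (g : ℕ → R) (w : ℕ → Rˣ) (j : ℕ) :
    idx (NN (G.e + G.D g) j) = idx (NN (G.e + G.D (fun k => g k * (w k : R))) j) := by
  refine idx_NN_equiv (G.unitE (accu w)) (G.unitE (fun k => accu w (k + 1))) _ _ (fun x => ?_) j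
  rw [LinearMap.add_apply, LinearMap.add_apply, unitE_apply, unitE_apply, map_add, G.comm,
    ← G.D_mul, ← G.D_mul]
  have h1 : (sh (fun k => (accu w k : R)) : ℕ → R) = fun k => (accu w (k + 1) : R) := rfl
  have h2 : ((fun k => g k * (w k : R)) * fun k => (accu w (k + 1) : R)) =
      (fun k => (accu w k : R)) * g := by
    funext k
    simp only [Pi.mul_apply, accu, Units.val_mul]
    have h3 : (w k : R) * (((w k)⁻¹ : Rˣ) : R) = 1 := Units.mul_inv _
    calc g k * (w k : R) * ((accu w k : R) * (((w k)⁻¹ : Rˣ) : R))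
        = (accu w k : R) * g k * ((w k : R) * (((w k)⁻¹ : Rˣ) : R)) := by ring
      _ = (accu w k : R) * g k := by rw [h3, mul_one]
  rw [h1, h2]

end Gr

theorem isUnit_int (hodd : ∀ k : ℕ, Odd k → IsUnit (k : R)) (z : ℤ) (hz : Odd z) :
    IsUnit (z : R) := by
  have h1 : Odd z.natAbs := Int.natAbs_odd.2 hz
  rcases Int.natAbs_eq z with h | h
  · rw [h, Int.cast_natCast]
    exact hodd _ h1
  · rw [h, Int.cast_neg, Int.cast_natCast]
    exact (hodd _ h1).neg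

theorem exists_weight (hodd : ∀ k : ℕ, Odd k → IsUnit (k : R)) {n k0 : ℕ} (hk : 2 * k0 = 2 ^ n)
    (k : ℕ) : ∃ w : Rˣ, 1 ≤ k → k < 2 ^ n →
      2 * (k : R) * (w : R) = g0 k0 k + 2 ^ n * dl k0 k := by
  by_cases hkk : k = k0
  · subst hkk
    refine ⟨1, fun _ _ => ?_⟩
    simp only [g0, dl, if_true, sub_self, mul_zero, zero_add, mul_one, Units.val_one]
    exact_mod_cast congrArg (Nat.cast : ℕ → R) hk
  by_cases hr : 1 ≤ k ∧ k < 2 ^ n
  · obtain ⟨hk1, hk2⟩ := hr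
    obtain ⟨n, rfl⟩ : ∃ n', n = n' + 1 := by
      rcases n with _ | n
      · simp at hk2; omega
      · exact ⟨n, rfl⟩
    have hk0 : k0 = 2 ^ n := by rw [pow_succ] at hk; omega
    subst hk0
    obtain ⟨v, m, hm, rfl⟩ := Nat.exists_eq_two_pow_mul_odd (by omega : k ≠ 0)
    have hv : v < n := by
      by_contra hcon
      push Not at hcon
      obtain ⟨t, rfl⟩ : ∃ t, v = n + t := ⟨v - n, by omega⟩
      have h3 : 2 ^ t * m < 2 := by
        have h4 : 2 ^ n * (2 ^ t * m) < 2 ^ n * 2 := by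
          rw [← mul_assoc, ← pow_add, ← pow_succ]
          exact hk2
        exact Nat.lt_of_mul_lt_mul_left h4
      have h5 : 2 ^ t * m = 1 := by
        have : 0 < 2 ^ t * m := Nat.mul_pos (by positivity) hm.pos
        omega
      apply hkk
      rw [pow_add, mul_assoc, h5, mul_one]
    obtain ⟨um, hum⟩ := hodd m hm
    obtain ⟨t, rfl⟩ : ∃ t, n = v + (t + 1) := ⟨n - v - 1, by omega⟩
    have hz : Odd ((m : ℤ) - 2 ^ (t + 1)) := by
      have h1 : Odd (m : ℤ) := by exact_mod_cast hm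
      have h2 : Even ((2 : ℤ) ^ (t + 1)) := by
        rw [pow_succ]
        exact even_two.mul_left _
      exact h1.sub_even h2
    obtain ⟨uz, huz⟩ := isUnit_int hodd _ hz
    refine ⟨uz * um⁻¹, fun _ _ => ?_⟩
    have h6 : (um : R) * ((um⁻¹ : Rˣ) : R) = 1 := Units.mul_inv _
    rw [dl, if_neg hkk, mul_zero, add_zero, g0]
    push_cast
    rw [huz, ← hum]
    push_cast
    rw [hum] at *
    calc 2 * (2 ^ v * (m : R)) * (((m : R) - 2 ^ (t + 1)) * ((um⁻¹ : Rˣ) : R))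
        = 2 * 2 ^ v * ((m : R) - 2 ^ (t + 1)) * ((m : R) * ((um⁻¹ : Rˣ) : R)) := by ring
      _ = 2 * (2 ^ v * (m : R) - 2 ^ (v + (t + 1))) := by rw [h6, mul_one, pow_add]; ring
  · exact ⟨1, fun h1 h2 => absurd ⟨h1, h2⟩ hr⟩

theorem NN_congr {T T' : M →ₗ[R] M} {j : ℕ} (h : ∀ x, ∃ y, T x = T' x + (2 ^ j : R) • y) :
    NN T j = NN T' j := by
  ext x
  rw [mem_NN, mem_NN]
  constructor
  · rintro ⟨a, b, rfl⟩
    obtain ⟨y, hy⟩ := h a
    exact ⟨a, y + b, by rw [hy]; module⟩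
  · rintro ⟨a, b, rfl⟩
    obtain ⟨y, hy⟩ := h a
    exact ⟨a, b - y, by rw [hy]; module⟩

/-- The invariants of the corrected operator. -/
theorem idx_Ec [IsDomain R] [CharZero R] (G : Gr R M)
    (htf : ∀ (r : R) (x : M), r ≠ 0 → r • x = 0 → x = 0) {k0 n : ℕ} (W : M →ₗ[R] M)
    (hW1 : ∀ z, G.D (lo k0) (W z) = 0)
    (hW2 : ∀ z, G.E0 k0 (W z) = (2 ^ n : R) • G.D (hi k0) z) (j : ℕ) :
    idx (NN (G.Ec k0 n) j) =
      if j ≤ n then idx (NN (G.E0 k0) j) else
        idx (JJ (G.E0 k0) n (j - n)) * idx (NN (G.E0 k0) n) := by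
  have hle : ∀ j, j ≤ n → NN (G.Ec k0 n) j = NN (G.E0 k0) j := by
    intro j hj
    refine NN_congr fun x => ⟨(2 ^ (n - j) : R) • G.D (dl k0) x, ?_⟩
    rw [Gr.Ec_apply, smul_smul, ← pow_add, Nat.add_sub_cancel' hj]
  split_ifs with hj
  · rw [hle j hj]
  · obtain ⟨i, rfl⟩ : ∃ i, j = n + i := ⟨j - n, by omega⟩
    rw [idx_NN_add (fun x hx => htf 2 x two_ne_zero hx), Nat.add_sub_cancel_left,
      G.idx_QQ_Ec W htf hW1 hW2, hle n le_rfl]

/-- The doubling theorem. -/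
theorem half_thm [IsDomain R] [CharZero R] (hodd : ∀ k : ℕ, Odd k → IsUnit (k : R)) (G : Gr R M)
    (htf : ∀ (r : R) (x : M), r ≠ 0 → r • x = 0 → x = 0) {k0 n : ℕ} (hk : 2 * k0 = 2 ^ n)
    (hsupp : ∀ h : ℕ → R, (∀ k, 1 ≤ k → k + 2 ≤ 2 ^ n → h k = 0) → G.D h = 0)
    (W : M →ₗ[R] M) (hW1 : ∀ z, G.D (lo k0) (W z) = 0)
    (hW2 : ∀ z, G.E0 k0 (W z) = (2 ^ n : R) • G.D (hi k0) z)
    (V : M × M →ₗ[R] M × M) (hV1 : ∀ z, G.dbl.D (lo k0) (V z) = 0)
    (hV2 : ∀ z, G.dbl.E0 k0 (V z) = (2 ^ n : R) • G.dbl.D (hi k0) z)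
    (ε : M →ₗ[R] M) (h1 : ∀ x, ε (ε x) = ε x)
    (h2 : ∀ x, G.E0 k0 (ε x) + (2 : R) • ε x + ε (G.E0 k0 x) = G.E0 k0 x + x) (j : ℕ) :
    idx (NN (G.dbl.e + G.dbl.D (fun k : ℕ => 2 * (k : R))) j) =
      idx (NN (G.e + G.D (fun k : ℕ => 2 * (k : R))) j) ^ 2 := by
  choose w hw using fun k => exists_weight (R := R) hodd hk k
  have hg : ∀ k : ℕ, 1 ≤ k → k < 2 ^ n →
      (fun k : ℕ => 2 * (k : R) * (w k : R)) k - (g0 k0 + (fun _ => (2 ^ n : R)) * dl k0 : ℕ → R) k = 0 := by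
    intro k hk1 hk2
    rw [sub_eq_zero]
    exact hw k hk1 hk2
  have e1 : G.D (fun k : ℕ => 2 * (k : R) * (w k : R)) =
      G.D (g0 k0 + (fun _ => (2 ^ n : R)) * dl k0) := by
    rw [← sub_eq_zero, ← map_sub]
    exact hsupp _ fun k hk1 hk2 => hg k hk1 (by omega)
  have e2 : G.D (sh (fun k : ℕ => 2 * (k : R) * (w k : R))) =
      G.D (sh (g0 k0 + (fun _ => (2 ^ n : R)) * dl k0)) := by
    rw [← sub_eq_zero, ← map_sub]
    exact hsupp _ fun k hk1 hk2 => hg (k + 1) (by omega) (by omega)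
  have e3 : G.dbl.D (fun k : ℕ => 2 * (k : R) * (w k : R)) =
      G.dbl.D (g0 k0 + (fun _ => (2 ^ n : R)) * dl k0) := by
    refine LinearMap.ext fun x => ?_
    obtain ⟨a, b⟩ := x
    rw [G.dbl_D, G.dbl_D, e1, e2]
  have e4 : G.e + G.D (fun k : ℕ => 2 * (k : R) * (w k : R)) = G.Ec k0 n := by
    refine LinearMap.ext fun x => ?_
    rw [e1, LinearMap.add_apply, G.D_add, G.D_mul, G.const, Gr.Ec_apply, Gr.E0_apply]
    abel
  have e5 : G.dbl.e + G.dbl.D (fun k : ℕ => 2 * (k : R) * (w k : R)) = G.dbl.Ec k0 n := by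
    refine LinearMap.ext fun x => ?_
    rw [e3, LinearMap.add_apply, G.dbl.D_add, G.dbl.D_mul, G.dbl.const, Gr.Ec_apply, Gr.E0_apply]
    abel
  have htf2 : ∀ (r : R) (x : M × M), r ≠ 0 → r • x = 0 → x = 0 := by
    intro r x hr hx
    exact Prod.ext (htf r x.1 hr (congrArg Prod.fst hx)) (htf r x.2 hr (congrArg Prod.snd hx))
  rw [G.idx_scale _ w, G.dbl.idx_scale _ w, e4, e5, idx_Ec G htf W hW1 hW2,
    idx_Ec G.dbl htf2 V hV1 hV2, G.dbl_E0, idx_NN_dbl ε _ h1 h2, idx_NN_dbl ε _ h1 h2,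
    idx_JJ_dbl ε _ h1 h2]
  split_ifs
  · rfl
  · rw [mul_pow]

end Pool.Agent.helper14.SP
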