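import Mathlib

/-!
# A recursive model of the functions on a cube
-/

namespace Pool.Agent.helper14.SP

/-- The free module of rank `2 ^ d`, built by doubling. -/
def F (R : Type) : ℕ → Type
  | 0 => R
  | d + 1 => F R d × F R d

/-- Additive structure on `F R d`. -/
instance instAcgF (R : Type) [CommRing R] : (d : ℕ) → AddCommGroup (F R d)
  | 0 => inferInstanceAs (AddCommGroup R)
  | d + 1 =>
    letI := instAcgF R d
    inferInstanceAs (AddCommGroup (F R d × F R d))

/-- Module structure on `F R d`. -/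
instance instModF (R : Type) [CommRing R] : (d : ℕ) → Module R (F R d)
  | 0 => inferInstanceAs (Module R R)
  | d + 1 =>
    letI := instModF R d
    inferInstanceAs (Module R (F R d × F R d))

variable {R : Type} [CommRing R]

/-- The pairing. -/
def pr {d : ℕ} (a b : F R d) : F R (d + 1) := (a, b)

/-- The first component. -/
def pa (R : Type) [CommRing R] (d : ℕ) : F R (d + 1) →ₗ[R] F R d := LinearMap.fst R (F R d) (F R d)

/-- The second component. -/
def pb (R : Type) [CommRing R] (d : ℕ) : F R (d + 1) →ₗ[R] F R d := LinearMap.snd R (F R d) (F R d)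

/-- The pairing as a linear equivalence. -/
def prE (R : Type) [CommRing R] (d : ℕ) : (F R d × F R d) ≃ₗ[R] F R (d + 1) :=
  LinearEquiv.refl R (F R d × F R d)

/-- Pairing of linear maps. -/
def prL {d : ℕ} {M : Type} [AddCommGroup M] [Module R M] (f g : M →ₗ[R] F R d) :
    M →ₗ[R] F R (d + 1) := LinearMap.prod f g

theorem exists_pr {d : ℕ} (x : F R (d + 1)) : ∃ a b : F R d, x = pr a b := ⟨x.1, x.2, rfl⟩

@[simp] theorem pa_pr {d : ℕ} (a b : F R d) : pa R d (pr a b) = a := rfl

@[simp] theorem pb_pr {d : ℕ} (a b : F R d) : pb R d (pr a b) = b := rfl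

@[simp] theorem pr_pa_pb {d : ℕ} (x : F R (d + 1)) : pr (pa R d x) (pb R d x) = x := rfl

theorem prE_apply {d : ℕ} (x : F R d × F R d) : prE R d x = pr x.1 x.2 := rfl

@[simp] theorem prL_apply {d : ℕ} {M : Type} [AddCommGroup M] [Module R M] (f g : M →ₗ[R] F R d)
    (x : M) : prL f g x = pr (f x) (g x) := rfl

@[simp] theorem add_pr {d : ℕ} (a b a' b' : F R d) : pr a b + pr a' b' = pr (a + a') (b + b') := rfl

@[simp] theorem sub_pr {d : ℕ} (a b a' b' : F R d) : pr a b - pr a' b' = pr (a - a') (b - b') := rfl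

@[simp] theorem neg_pr {d : ℕ} (a b : F R d) : -pr a b = pr (-a) (-b) := rfl

@[simp] theorem smul_pr {d : ℕ} (r : R) (a b : F R d) : r • pr a b = pr (r • a) (r • b) := rfl

theorem pr_zero {d : ℕ} : pr (0 : F R d) 0 = 0 := rfl

theorem pr_inj {d : ℕ} {a b a' b' : F R d} : pr a b = pr a' b' ↔ a = a' ∧ b = b' :=
  Prod.mk_inj

/-- The diagonal operator multiplying the degree `k` part by `g k`. -/
def dg : (d : ℕ) → (ℕ → R) → F R d →ₗ[R] F R d
  | 0, g => ((g 0) • LinearMap.id : R →ₗ[R] R)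
  | d + 1, g => prL ((dg d g).comp (pa R d)) ((dg d (fun k => g (k + 1))).comp (pb R d))

/-- The divided powers of the multiplication by the sum of the variables. -/
def dp : (d : ℕ) → ℕ → F R d →ₗ[R] F R d
  | _, 0 => LinearMap.id
  | 0, _ + 1 => 0
  | d + 1, s + 1 => prL ((dp d (s + 1)).comp (pa R d))
      ((dp d s).comp (pa R d) + (dp d (s + 1)).comp (pb R d))

/-- The multiplication by the sum of the variables. -/
def ee : (d : ℕ) → F R d →ₗ[R] F R d
  | 0 => 0
  | d + 1 => prL ((ee d).comp (pa R d)) (pa R d + (ee d).comp (pb R d))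

/-- The sum of the basis vectors of degree `b` disjoint from a given one. -/
def th : (d : ℕ) → ℕ → F R d →ₗ[R] F R d
  | 0, 0 => LinearMap.id
  | 0, _ + 1 => 0
  | d + 1, 0 => prL ((th d 0).comp (pa R d) + (th d 0).comp (pb R d)) 0
  | d + 1, b + 1 => prL ((th d (b + 1)).comp (pa R d) + (th d (b + 1)).comp (pb R d))
        ((th d b).comp (pa R d))

/-- The shift of a sequence. -/
def sh (g : ℕ → R) : ℕ → R := fun k => g (k + 1)

theorem dg_zero (g : ℕ → R) (x : F R 0) : dg 0 g x = g 0 • x := rfl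

theorem dg_succ (d : ℕ) (g : ℕ → R) (a b : F R d) :
    dg (d + 1) g (pr a b) = pr (dg d g a) (dg d (sh g) b) := rfl

theorem ee_zero (x : F R 0) : ee 0 x = 0 := rfl

theorem ee_succ (d : ℕ) (a b : F R d) :
    ee (d + 1) (pr a b) = pr (ee d a) (a + ee d b) := rfl

theorem dp_zero (d : ℕ) (x : F R d) : dp d 0 x = x := by
  cases d <;> rfl

theorem dp_zero_succ (s : ℕ) (x : F R 0) : dp 0 (s + 1) x = 0 := rfl

theorem dp_succ (d s : ℕ) (a b : F R d) :
    dp (d + 1) (s + 1) (pr a b) = pr (dp d (s + 1) a) (dp d s a + dp d (s + 1) b) := rfl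

theorem th_zero_zero (x : F R 0) : th 0 0 x = x := rfl

theorem th_zero_succ (s : ℕ) (x : F R 0) : th 0 (s + 1) x = 0 := rfl

theorem th_succ_zero (d : ℕ) (a b : F R d) :
    th (d + 1) 0 (pr a b) = pr (th d 0 a + th d 0 b) 0 := rfl

theorem th_succ_succ (d s : ℕ) (a b : F R d) :
    th (d + 1) (s + 1) (pr a b) = pr (th d (s + 1) a + th d (s + 1) b) (th d s a) := rfl

/-! ### Algebra of the operators -/

theorem dg_one_apply : ∀ (d : ℕ) (x : F R d), dg d 1 x = x
  | 0, x => one_smul R x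
  | d + 1, x => by
    obtain ⟨a, b, rfl⟩ := exists_pr x
    rw [dg_succ, dg_one_apply d a]
    have : sh (1 : ℕ → R) = 1 := rfl
    rw [this, dg_one_apply d b]

theorem dg_add_apply : ∀ (d : ℕ) (g h : ℕ → R) (x : F R d),
    dg d (g + h) x = dg d g x + dg d h x
  | 0, g, h, x => add_smul (g 0) (h 0) x
  | d + 1, g, h, x => by
    obtain ⟨a, b, rfl⟩ := exists_pr x
    rw [dg_succ, dg_succ, dg_succ, add_pr, dg_add_apply d g h a]
    have : sh (g + h) = sh g + sh h := rfl
    rw [this, dg_add_apply d _ _ b]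

theorem dg_mul_apply : ∀ (d : ℕ) (g h : ℕ → R) (x : F R d),
    dg d (g * h) x = dg d g (dg d h x)
  | 0, g, h, x => mul_smul (g 0) (h 0) x
  | d + 1, g, h, x => by
    obtain ⟨a, b, rfl⟩ := exists_pr x
    rw [dg_succ, dg_succ, dg_succ, dg_mul_apply d g h a]
    have : sh (g * h) = sh g * sh h := rfl
    rw [this, dg_mul_apply d _ _ b]

theorem dg_zero_apply : ∀ (d : ℕ) (x : F R d), dg d 0 x = 0
  | 0, x => zero_smul R x
  | d + 1, x => by
    obtain ⟨a, b, rfl⟩ := exists_pr x
    rw [dg_succ, dg_zero_apply d a]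
    have : sh (0 : ℕ → R) = 0 := rfl
    rw [this, dg_zero_apply d b, pr_zero]

/-- The diagonal operators, bundled. -/
def DD (R : Type) [CommRing R] (d : ℕ) : (ℕ → R) →+* Module.End R (F R d) where
  toFun := dg d
  map_one' := LinearMap.ext (dg_one_apply d)
  map_mul' g h := LinearMap.ext (dg_mul_apply d g h)
  map_zero' := LinearMap.ext (dg_zero_apply d)
  map_add' g h := LinearMap.ext (dg_add_apply d g h)

theorem DD_apply (d : ℕ) (g : ℕ → R) (x : F R d) : DD R d g x = dg d g x := rfl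

theorem dg_const_apply : ∀ (d : ℕ) (r : R) (x : F R d), dg d (fun _ => r) x = r • x
  | 0, _, _ => rfl
  | d + 1, r, x => by
    obtain ⟨a, b, rfl⟩ := exists_pr x
    rw [dg_succ, dg_const_apply d r a]
    have : sh (fun _ => r : ℕ → R) = fun _ => r := rfl
    rw [this, dg_const_apply d r b, smul_pr]

theorem dg_ee : ∀ (d : ℕ) (g : ℕ → R) (x : F R d), dg d g (ee d x) = ee d (dg d (sh g) x)
  | 0, g, x => by rw [ee_zero, ee_zero, map_zero]
  | d + 1, g, x => by
    obtain ⟨a, b, rfl⟩ := exists_pr x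
    rw [ee_succ, dg_succ, dg_succ, ee_succ, dg_ee d g a, map_add, dg_ee d (sh g) b]

theorem ee_eq_dp : ∀ (d : ℕ) (x : F R d), ee d x = dp d 1 x
  | 0, _ => rfl
  | d + 1, x => by
    obtain ⟨a, b, rfl⟩ := exists_pr x
    rw [ee_succ, dp_succ, ee_eq_dp d a, ee_eq_dp d b, dp_zero]

theorem ee_dp : ∀ (d s : ℕ) (x : F R d), ee d (dp d s x) = ((s : R) + 1) • dp d (s + 1) x
  | d, 0, x => by
    rw [dp_zero, ee_eq_dp, Nat.cast_zero, zero_add, one_smul]
  | 0, s + 1, x => by
    rw [dp_zero_succ, dp_zero_succ, smul_zero, map_zero]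
  | d + 1, s + 1, x => by
    obtain ⟨a, b, rfl⟩ := exists_pr x
    rw [dp_succ, ee_succ, dp_succ, smul_pr, ee_dp d (s + 1) a, map_add, ee_dp d s a,
      ee_dp d (s + 1) b]
    congr 1
    push_cast
    module

theorem dg_dp : ∀ (d s : ℕ) (g : ℕ → R) (x : F R d),
    dg d g (dp d s x) = dp d s (dg d (fun k => g (k + s)) x)
  | d, 0, g, x => by
    rw [dp_zero, dp_zero]
    rfl
  | 0, s + 1, g, x => by
    rw [dp_zero_succ, dp_zero_succ, map_zero]
  | d + 1, s + 1, g, x => by
    obtain ⟨a, b, rfl⟩ := exists_pr x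
    rw [dp_succ, dg_succ, dg_succ, dp_succ, dg_dp d (s + 1) g a, map_add, dg_dp d s (sh g) a,
      dg_dp d (s + 1) (sh g) b]
    have h1 : (fun k => sh g (k + s)) = fun k => g (k + (s + 1)) := rfl
    have h2 : (fun k => sh g (k + (s + 1))) = sh (fun k => g (k + (s + 1))) := by
      funext k
      change g (k + (s + 1) + 1) = g (k + 1 + (s + 1))
      congr 1
      omega
    rw [h1, h2]

theorem dg_th : ∀ (d b : ℕ) (g : ℕ → R) (x : F R d), dg d g (th d b x) = g b • th d b x
  | 0, 0, g, x => rfl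
  | 0, b + 1, g, x => by
    rw [th_zero_succ, smul_zero, map_zero]
  | d + 1, 0, g, x => by
    obtain ⟨a, b, rfl⟩ := exists_pr x
    rw [th_succ_zero, dg_succ, map_add, dg_th d 0 g a, dg_th d 0 g b, map_zero, smul_pr,
      smul_add, smul_zero]
  | d + 1, s + 1, g, x => by
    obtain ⟨a, b, rfl⟩ := exists_pr x
    rw [th_succ_succ, dg_succ, map_add, dg_th d (s + 1) g a, dg_th d (s + 1) g b,
      dg_th d s (sh g) a, smul_pr, smul_add]
    rfl

/-- The indicator of a degree. -/
def dl (a : ℕ) : ℕ → R := fun k => if k = a then 1 else 0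

theorem sh_dl_zero : sh (dl 0 : ℕ → R) = 0 := by
  funext k
  simp [sh, dl]

theorem sh_dl_succ (a : ℕ) : sh (dl (a + 1) : ℕ → R) = dl a := by
  funext k
  simp [sh, dl]

theorem th_dl : ∀ (d a b : ℕ) (_ : d < a + b) (x : F R d), th d b (dg d (dl a) x) = 0
  | 0, a, 0, h, x => by
    have ha : a ≠ 0 := by omega
    rw [th_zero_zero, dg_zero]
    have : (dl a : ℕ → R) 0 = 0 := by simp [dl, ha.symm]
    rw [this, zero_smul]
  | 0, a, b + 1, h, x => by
    rw [th_zero_succ]
  | d + 1, 0, b, h, z => by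
    obtain ⟨x, y, rfl⟩ := exists_pr z
    obtain ⟨b, rfl⟩ : ∃ b', b = b' + 1 := ⟨b - 1, by omega⟩
    rw [dg_succ, sh_dl_zero, dg_zero_apply, th_succ_succ, map_zero,
      th_dl d 0 (b + 1) (by omega) x, th_dl d 0 b (by omega) x, add_zero, pr_zero]
  | d + 1, a + 1, 0, h, z => by
    obtain ⟨x, y, rfl⟩ := exists_pr z
    rw [dg_succ, sh_dl_succ, th_succ_zero, th_dl d (a + 1) 0 (by omega) x,
      th_dl d a 0 (by omega) y, add_zero, pr_zero]
  | d + 1, a + 1, b + 1, h, z => by
    obtain ⟨x, y, rfl⟩ := exists_pr z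
    rw [dg_succ, sh_dl_succ, th_succ_succ, th_dl d (a + 1) (b + 1) (by omega) x,
      th_dl d a (b + 1) (by omega) y, th_dl d (a + 1) b (by omega) x, add_zero, pr_zero]

/-- The operator `T_t`. -/
def TT (d t : ℕ) (x : F R d) : F R d :=
  ∑ p ∈ Finset.HasAntidiagonal.antidiagonal t, ((-1 : R) ^ p.1) • dp d p.2 (th d p.1 x)

theorem TT_add (d t : ℕ) (x y : F R d) : TT d t (x + y) = TT d t x + TT d t y := by
  simp only [TT, map_add, smul_add, Finset.sum_add_distrib]

theorem TT_zero_zero (x : F R 0) : TT 0 0 x = x := by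
  rw [TT, Finset.Nat.antidiagonal_zero, Finset.sum_singleton, th_zero_zero, dp_zero, pow_zero,
    one_smul]

theorem TT_zero_succ (t : ℕ) (x : F R 0) : TT 0 (t + 1) x = 0 := by
  rw [TT]
  refine Finset.sum_eq_zero fun p hp => ?_
  rw [Finset.HasAntidiagonal.mem_antidiagonal] at hp
  obtain ⟨i, j⟩ := p
  rcases i with _ | i
  · rcases j with _ | j
    · simp at hp
    · rw [dp_zero_succ, smul_zero]
  · rw [th_zero_succ, map_zero, smul_zero]

theorem TT_succ_zero (d : ℕ) (x y : F R d) : TT (d + 1) 0 (pr x y) = pr (TT d 0 (x + y)) 0 := by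
  simp only [TT, Finset.Nat.antidiagonal_zero, Finset.sum_singleton, th_succ_zero, dp_zero,
    pow_zero, one_smul, map_add]

/-- A sum of pairs. -/
theorem sum_pr {ι : Type} {d : ℕ} (s : Finset ι) (f g : ι → F R d) :
    ∑ i ∈ s, pr (f i) (g i) = pr (∑ i ∈ s, f i) (∑ i ∈ s, g i) := by
  classical
  induction s using Finset.induction_on with
  | empty => rfl
  | insert a s ha ih => rw [Finset.sum_insert ha, Finset.sum_insert ha, Finset.sum_insert ha, ih,
      add_pr]

theorem TT_succ_succ (d t : ℕ) (x y : F R d) :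
    TT (d + 1) (t + 1) (pr x y) = pr (TT d (t + 1) (x + y)) (TT d t y) := by
  have key : ∀ i j : ℕ, ((-1 : R) ^ i) • dp (d + 1) j (th (d + 1) i (pr x y)) =
      pr (((-1 : R) ^ i) • dp d j (th d i (x + y)))
        ((if j = 0 then 0 else ((-1 : R) ^ i) • dp d (j - 1) (th d i (x + y))) +
          (if i = 0 then 0 else ((-1 : R) ^ i) • dp d j (th d (i - 1) x))) := by
    intro i j
    rcases i with _ | i
    · rcases j with _ | j
      · simp only [th_succ_zero, dp_zero, pow_zero, one_smul, map_add, if_true, add_zero]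
      · simp only [th_succ_zero, dp_succ, pow_zero, one_smul, map_add, if_true, add_zero,
          map_zero, Nat.add_sub_cancel, Nat.succ_ne_zero, if_false]
    · rcases j with _ | j
      · simp only [th_succ_succ, dp_zero, map_add, if_true, Nat.add_sub_cancel,
          Nat.succ_ne_zero, if_false, smul_pr, zero_add]
      · simp only [th_succ_succ, dp_succ, map_add, Nat.add_sub_cancel,
          Nat.succ_ne_zero, if_false, smul_pr, smul_add]
  have h1 : TT (d + 1) (t + 1) (pr x y) =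
      ∑ p ∈ Finset.HasAntidiagonal.antidiagonal (t + 1),
        ((-1 : R) ^ p.1) • dp (d + 1) p.2 (th (d + 1) p.1 (pr x y)) := rfl
  rw [h1, Finset.sum_congr rfl fun p _ => key p.1 p.2, sum_pr, Finset.sum_add_distrib]
  congr 1
  rw [Finset.Nat.sum_antidiagonal_succ' (f := fun p : ℕ × ℕ =>
    if p.2 = 0 then (0 : F R d) else ((-1 : R) ^ p.1) • dp d (p.2 - 1) (th d p.1 (x + y))),
    Finset.Nat.sum_antidiagonal_succ (f := fun p : ℕ × ℕ =>
    if p.1 = 0 then (0 : F R d) else ((-1 : R) ^ p.1) • dp d p.2 (th d (p.1 - 1) x))]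
  simp only [if_true, Nat.succ_ne_zero, if_false, Nat.add_sub_cancel, zero_add]
  rw [TT, ← Finset.sum_add_distrib]
  refine Finset.sum_congr rfl fun p _ => ?_
  rw [map_add, map_add, pow_succ]
  module

/-- `T_t` kills the degrees below `t` and is the identity in degree `t`. -/
theorem TT_dl : ∀ (d t a : ℕ) (_ : a ≤ t) (x : F R d),
    TT d t (dg d (dl a) x) = if a = t then dg d (dl a) x else 0
  | 0, 0, a, h, x => by
    obtain rfl : a = 0 := by omega
    rw [TT_zero_zero, if_pos rfl]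
  | 0, t + 1, a, h, x => by
    rw [TT_zero_succ, dg_zero]
    split_ifs with h1
    · subst h1
      have : (dl (t + 1) : ℕ → R) 0 = 0 := by simp [dl]
      rw [this, zero_smul]
    · rfl
  | d + 1, 0, a, h, z => by
    obtain ⟨x, y, rfl⟩ := exists_pr z
    obtain rfl : a = 0 := by omega
    rw [dg_succ, sh_dl_zero, dg_zero_apply, TT_succ_zero, add_zero, TT_dl d 0 0 le_rfl x,
      if_pos rfl, if_pos rfl]
  | d + 1, t + 1, 0, h, z => by
    obtain ⟨x, y, rfl⟩ := exists_pr z
    rw [dg_succ, sh_dl_zero, dg_zero_apply, TT_succ_succ, add_zero,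
      TT_dl d (t + 1) 0 (by omega) x, if_neg (by omega), if_neg (by omega)]
    have : TT d t (0 : F R d) = 0 := by
      have h2 := TT_add d t (0 : F R d) 0
      rw [add_zero] at h2
      exact left_eq_add.mp h2
    rw [this, pr_zero]
  | d + 1, t + 1, a + 1, h, z => by
    obtain ⟨x, y, rfl⟩ := exists_pr z
    rw [dg_succ, sh_dl_succ, TT_succ_succ, TT_add, TT_dl d (t + 1) (a + 1) h x,
      TT_dl d (t + 1) a (by omega) y, TT_dl d t a (by omega) y]
    rw [if_neg (by omega : ¬ a = t + 1), add_zero]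
    by_cases hat : a = t
    · subst hat
      rw [if_pos rfl, if_pos rfl, if_pos rfl]
    · rw [if_neg (by omega), if_neg (by omega), if_neg (by omega), pr_zero]

end Pool.Agent.helper14.SP
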