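import Pool.Agent.helper14.SP.Stein

/-!
# Splitting off the symmetric part
-/

namespace Pool.Agent.helper14.SP

variable {R : Type} [CommRing R]

/-- The vectors killed by all symmetric functionals. -/
def Fo (R : Type) [CommRing R] (d : ℕ) : Submodule R (F R d) :=
  ⨅ g : ℕ → R, LinearMap.ker (sg d g)

theorem mem_Fo {d : ℕ} {x : F R d} : x ∈ Fo R d ↔ ∀ g, sg d g x = 0 := by
  rw [Fo, Submodule.mem_iInf]
  rfl

theorem ee_mem {d : ℕ} : ∀ x ∈ Fo R d, ee d x ∈ Fo R d := fun x hx =>
  mem_Fo.2 fun g => by rw [sg_ee, mem_Fo.1 hx]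

theorem dg_mem {d : ℕ} (g : ℕ → R) : ∀ x ∈ Fo R d, dg d g x ∈ Fo R d := fun x hx =>
  mem_Fo.2 fun h => by rw [sg_dg, mem_Fo.1 hx]

theorem ep_mem {d : ℕ} : ∀ x ∈ Fo R d, ep d x ∈ Fo R d := fun x hx =>
  mem_Fo.2 fun h => by rw [sg_ep, mem_Fo.1 hx]

/-- The graded structure on the complement. -/
def GO (R : Type) [CommRing R] (d : ℕ) : Gr R (Fo R d) where
  e := (ee d).restrict ee_mem
  D :=
    { toFun := fun g => (dg d g).restrict (dg_mem g)
      map_one' := by
        refine LinearMap.ext fun x => Subtype.ext ?_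
        exact dg_one_apply d x.1
      map_mul' := fun g h => by
        refine LinearMap.ext fun x => Subtype.ext ?_
        exact dg_mul_apply d g h x.1
      map_zero' := by
        refine LinearMap.ext fun x => Subtype.ext ?_
        exact dg_zero_apply d x.1
      map_add' := fun g h => by
        refine LinearMap.ext fun x => Subtype.ext ?_
        exact dg_add_apply d g h x.1 }
  comm g x := Subtype.ext (dg_ee d g x.1)
  const r x := Subtype.ext (dg_const_apply d r x.1)

theorem GO_e {d : ℕ} (x : Fo R d) : ((GO R d).e x : F R d) = ee d x := rfl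

theorem GO_D {d : ℕ} (g : ℕ → R) (x : Fo R d) : ((GO R d).D g x : F R d) = dg d g x := rfl

/-- The idempotent on the complement. -/
def epo (R : Type) [CommRing R] (d : ℕ) : Fo R d →ₗ[R] Fo R d := (ep d).restrict ep_mem

theorem epo_coe {d : ℕ} (x : Fo R d) : (epo R d x : F R d) = ep d x := rfl

theorem GO_supp {d : ℕ} (h : ℕ → R) (hh : ∀ k, 1 ≤ k → k + 1 ≤ d → h k = 0) :
    (GO R d).D h = 0 := by
  refine LinearMap.ext fun x => Subtype.ext ?_
  exact dg_eq_zero (mem_Fo.1 x.2 _) (mem_Fo.1 x.2 _) hh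

/-! ### The projection -/

section Proj

variable {d : ℕ} (u : ℕ → R)

/-- The projection to the symmetric part. -/
def qq (d : ℕ) (u : ℕ → R) : F R d →ₗ[R] F R d :=
  ∑ k ∈ Finset.range (d + 1), (u k • sg d (dl k)).smulRight (es R d k)

theorem qq_apply (x : F R d) :
    qq d u x = ∑ k ∈ Finset.range (d + 1), (u k * sg d (dl k) x) • es R d k := by
  rw [qq, LinearMap.sum_apply]
  rfl

theorem qq_dg (g : ℕ → R) (x : F R d) : qq d u (dg d g x) = dg d g (qq d u x) := by
  rw [qq_apply, qq_apply, map_sum]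
  refine Finset.sum_congr rfl fun k _ => ?_
  rw [sg_dg, map_smul, dg_es, smul_smul]
  have h : (dl k * g : ℕ → R) = g k • dl k := by
    funext l
    simp only [Pi.mul_apply, Pi.smul_apply, dl, smul_eq_mul]
    split_ifs with h1
    · rw [h1]; ring
    · ring
  rw [h, sg_smul]
  congr 1
  ring

variable (hu : ∀ k, k ≤ d → u k * (d.choose k : R) = 1)
include hu

theorem u_succ {k : ℕ} (hk : k < d) : u (k + 1) * ((d : R) - k) = u k * ((k : R) + 1) := by
  have h1 := hu k hk.le
  have h2 := hu (k + 1) hk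
  have h3 := congrArg (Nat.cast : ℕ → R) (Nat.choose_succ_right_eq d k)
  push_cast [Nat.cast_sub hk.le] at h3
  linear_combination (-(u (k + 1) * ((d : R) - k))) * h1 - u (k + 1) * u k * h3 +
    u k * ((k : R) + 1) * h2

theorem qq_ee (x : F R d) : qq d u (ee d x) = ee d (qq d u x) := by
  rw [qq_apply, qq_apply, map_sum, Finset.sum_range_succ', Finset.sum_range_succ]
  have h0 : sg d (dl 0) (ee d x) = 0 := by
    rw [sg_ee]
    have : (fun k => ((d : R) - k) * (dl 0 : ℕ → R) (k + 1)) = (0 : R) • (0 : ℕ → R) := by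
      funext k
      simp [dl]
    rw [this, sg_smul, zero_mul]
  have h1 : ee d ((u d * sg d (dl d) x) • es R d d) = 0 := by
    rw [map_smul, ee_es, es, dp_big d (d + 1) (by omega), smul_zero, smul_zero]
  rw [h0, h1, mul_zero, zero_smul, add_zero, add_zero]
  refine Finset.sum_congr rfl fun k hk => ?_
  rw [Finset.mem_range] at hk
  have h2 : (fun l => ((d : R) - l) * (dl (k + 1) : ℕ → R) (l + 1)) = ((d : R) - k) • dl k := by
    funext l
    simp only [Pi.smul_apply, dl, smul_eq_mul, Nat.add_right_cancel_iff]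
    split_ifs with h
    · rw [h]
    · ring
  rw [sg_ee, h2, sg_smul, map_smul, ee_es, smul_smul]
  congr 1
  linear_combination sg d (dl k) x * u_succ u hu hk

theorem sg_qq (g : ℕ → R) (x : F R d) : sg d g (qq d u x) = sg d g x := by
  rw [qq_apply, map_sum, sg_eq_sum]
  refine Finset.sum_congr rfl fun k hk => ?_
  rw [Finset.mem_range] at hk
  rw [map_smul, sg_es, smul_eq_mul]
  linear_combination (g k * sg d (dl k) x) * hu k (by omega)

/-- The projection to the complement. -/
def pp : F R d →ₗ[R] Fo R d :=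
  (LinearMap.id - qq d u).codRestrict (Fo R d) fun x => mem_Fo.2 fun g => by
    rw [LinearMap.sub_apply, map_sub, sg_qq u hu, LinearMap.id_apply, sub_self]

theorem pp_coe (x : F R d) : (pp u hu x : F R d) = x - qq d u x := rfl

theorem pp_dg (g : ℕ → R) (x : F R d) : pp u hu (dg d g x) = (GO R d).D g (pp u hu x) := by
  refine Subtype.ext ?_
  rw [GO_D, pp_coe, pp_coe, map_sub, qq_dg]

theorem pp_ee (x : F R d) : pp u hu (ee d x) = (GO R d).e (pp u hu x) := by
  refine Subtype.ext ?_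
  rw [GO_e, pp_coe, pp_coe, map_sub, qq_ee u hu]

theorem pp_of_mem (x : Fo R d) : pp u hu (x : F R d) = x := by
  refine Subtype.ext ?_
  rw [pp_coe, qq_apply]
  have : ∀ k ∈ Finset.range (d + 1), (u k * sg d (dl k) (x : F R d)) • es R d k = 0 := by
    intro k _
    rw [mem_Fo.1 x.2, mul_zero, zero_smul]
  rw [Finset.sum_congr rfl this, Finset.sum_const_zero, sub_zero]

end Proj

theorem htf_F [IsDomain R] : ∀ (d : ℕ) (r : R) (x : F R d), r ≠ 0 → r • x = 0 → x = 0
  | 0, r, x, hr, hx => (mul_eq_zero.1 hx).resolve_left hr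
  | d + 1, r, x, hr, hx => by
    obtain ⟨a, b, rfl⟩ := exists_pr x
    rw [smul_pr, ← pr_zero, pr_inj] at hx
    rw [htf_F d r a hr hx.1, htf_F d r b hr hx.2, pr_zero]

/-- The doubling theorem for the complement of the symmetric part. -/
theorem half_Fo [IsDomain R] [CharZero R] (hodd : ∀ k : ℕ, Odd k → IsUnit (k : R)) {k0 n d : ℕ}
    (hk : 2 * k0 = 2 ^ n) (hd : d + 1 = 2 * k0) (u : ℕ → R)
    (hu : ∀ k, k ≤ d → u k * (d.choose k : R) = 1) (j : ℕ) :
    idx (NN ((GO R d).dbl.e + (GO R d).dbl.D (fun k : ℕ => 2 * (k : R))) j) =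
      idx (NN ((GO R d).e + (GO R d).D (fun k : ℕ => 2 * (k : R))) j) ^ 2 := by
  obtain ⟨W, hW⟩ := exists_W (R := R) hodd hk (d := d) (by omega)
  obtain ⟨V, hV⟩ := exists_W (R := R) hodd hk (d := d + 1) (by omega)
  have hg0 : ∀ x : F R d, dg d (g0 k0) x = dg d (fun k : ℕ => 2 * (k : R)) x - (2 * (k0 : R)) • x := by
    intro x
    have h : (g0 k0 : ℕ → R) + (fun _ => 2 * (k0 : R)) = fun k : ℕ => 2 * (k : R) := by
      funext k
      simp only [g0, Pi.add_apply]
      ring
    rw [← h, dg_add_apply, dg_const_apply]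
    abel
  refine half_thm hodd (GO R d) ?_ hk ?_ (((pp u hu).comp W).comp (Fo R d).subtype) ?_ ?_
    (((((pp u hu).comp (pa R d)).comp V).comp (prE R d).toLinearMap).prod
      ((((pp u hu).comp (pb R d)).comp V).comp (prE R d).toLinearMap) |>.comp
        ((Fo R d).subtype.prodMap (Fo R d).subtype)) ?_ ?_ (epo R d) ?_ ?_ j
  · intro r x hr hx
    exact Subtype.ext (htf_F d r x.1 hr (congrArg Subtype.val hx))
  · intro h hh
    exact GO_supp h fun k hk1 hk2 => hh k hk1 (by omega)
  · intro z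
    change (GO R d).D (lo k0) (pp u hu (W z)) = 0
    rw [← pp_dg, (hW _).1, map_zero]
  · intro z
    change (GO R d).E0 k0 (pp u hu (W z)) = (2 ^ n : R) • (GO R d).D (hi k0) z
    rw [Gr.E0_apply, ← pp_dg, ← pp_ee, ← map_add, (hW _).2, map_smul, pp_dg, pp_of_mem]
  · rintro ⟨x, y⟩
    change ((GO R d).D (lo k0) (pp u hu (pa R d (V (pr x y)))),
      (GO R d).D (sh (lo k0)) (pp u hu (pb R d (V (pr x y))))) = 0
    have h1 := (hV (pr (x : F R d) (y : F R d))).1
    obtain ⟨a, b, hab⟩ := exists_pr (V (pr (x : F R d) (y : F R d)))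
    rw [hab, dg_succ, ← pr_zero, pr_inj] at h1
    rw [hab, pa_pr, pb_pr, ← pp_dg, ← pp_dg, h1.1, h1.2, map_zero]
    rfl
  · rintro ⟨x, y⟩
    have h1 := (hV (pr (x : F R d) (y : F R d))).2
    change (GO R d).dbl.E0 k0 (pp u hu (pa R d (V (pr x y))), pp u hu (pb R d (V (pr x y)))) = _
    obtain ⟨a, b, hab⟩ := exists_pr (V (pr (x : F R d) (y : F R d)))
    rw [hab, dg_succ, dg_succ, ee_succ, add_pr, smul_pr, pr_inj] at h1
    rw [hab, pa_pr, pb_pr, Gr.E0_apply, Gr.dbl_e, Gr.dbl_D, Gr.dbl_D, ← pp_dg, ← pp_dg, ← pp_ee,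
      ← pp_ee]
    refine Prod.ext ?_ ?_
    · change pp u hu (ee d a) + pp u hu (dg d (g0 k0) a) = (2 ^ n : R) • (GO R d).D (hi k0) x
      rw [← map_add, h1.1, map_smul, pp_dg, pp_of_mem]
    · change pp u hu a + pp u hu (ee d b) + pp u hu (dg d (sh (g0 k0)) b) =
        (2 ^ n : R) • (GO R d).D (sh (hi k0)) y
      rw [← map_add, ← map_add, h1.2, map_smul, pp_dg, pp_of_mem]
  · intro x
    exact Subtype.ext (ep_ep d x.1)
  · intro x
    refine Subtype.ext ?_
    change (ee d (ep d x) + dg d (g0 k0) (ep d x)) + (2 : R) • ep d x +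
      ep d (ee d x + dg d (g0 k0) x) = (ee d x + dg d (g0 k0) x) + (x : F R d)
    have h1 := bb_ep d (x : F R d)
    rw [bb_apply, bb_apply] at h1
    have hk0 : (2 : R) * (k0 : R) = (d : R) + 1 := by
      exact_mod_cast (congrArg (Nat.cast : ℕ → R) hd).symm
    rw [hg0, hg0, hk0]
    have h2 : ee d (ep d (x : F R d)) = ee d x + dg d (fun k : ℕ => 2 * (k : R)) x -
        (d : R) • (x : F R d) + (2 * (d : R)) • ep d x -
        ep d (ee d x + dg d (fun k : ℕ => 2 * (k : R)) x) -
        dg d (fun k : ℕ => 2 * (k : R)) (ep d x) := by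
      rw [← h1]
      abel
    rw [h2]
    simp only [map_add, map_sub, map_smul]
    module

end Pool.Agent.helper14.SP
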