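import Pool.Agent.helper14.SP.Split

/-!
# The symmetric part
-/

namespace Pool.Agent.helper14.SP

variable {R : Type} [CommRing R]

/-- Sequences of length `d + 1`. -/
abbrev Sq (R : Type) (d : ℕ) : Type := Fin (d + 1) → R

/-- Diagonal operator on sequences. -/
def dS (lam : ℕ → R) (d : ℕ) : Sq R d →ₗ[R] Sq R d where
  toFun x k := lam k * x k
  map_add' x y := by funext k; simp [mul_add]
  map_smul' r x := by funext k; simp only [Pi.smul_apply, smul_eq_mul, RingHom.id_apply]; ring

/-- The raising operator on sequences. -/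
def eS (d : ℕ) : Sq R d →ₗ[R] Sq R d where
  toFun x k := ((k : ℕ) : R) * x ⟨(k : ℕ) - 1, by omega⟩
  map_add' x y := by funext k; simp [mul_add]
  map_smul' r x := by funext k; simp only [Pi.smul_apply, smul_eq_mul, RingHom.id_apply]; ring

theorem dS_apply (lam : ℕ → R) (d : ℕ) (x : Sq R d) (k : Fin (d + 1)) :
    dS lam d x k = lam k * x k := rfl

theorem eS_apply (d : ℕ) (x : Sq R d) (k : Fin (d + 1)) :
    eS d x k = ((k : ℕ) : R) * x ⟨(k : ℕ) - 1, by omega⟩ := rfl

/-- The embedding of sequences as symmetric vectors. -/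
def em (d : ℕ) : Sq R d →ₗ[R] F R d :=
  ∑ k : Fin (d + 1), (LinearMap.proj k : Sq R d →ₗ[R] R).smulRight (es R d k)

theorem em_apply (d : ℕ) (x : Sq R d) : em d x = ∑ k : Fin (d + 1), x k • es R d k := by
  rw [em, LinearMap.sum_apply]
  rfl

theorem dg_em (d : ℕ) (g : ℕ → R) (x : Sq R d) : dg d g (em d x) = em d (dS g d x) := by
  rw [em_apply, em_apply, map_sum]
  refine Finset.sum_congr rfl fun k _ => ?_
  rw [map_smul, dg_es, smul_smul, dS_apply, mul_comm]

theorem ee_em (d : ℕ) (x : Sq R d) : ee d (em d x) = em d (eS d x) := by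
  rw [em_apply, em_apply, map_sum, Fin.sum_univ_castSucc, Fin.sum_univ_succ]
  have h1 : ee d (x (Fin.last d) • es R d (Fin.last d)) = 0 := by
    rw [map_smul, ee_es, Fin.val_last, es, dp_big d (d + 1) (by omega), smul_zero, smul_zero]
  have h2 : eS d x 0 • es R d (0 : Fin (d + 1)) = 0 := by
    rw [eS_apply]
    simp
  rw [h1, h2, add_zero, zero_add]
  refine Finset.sum_congr rfl fun k _ => ?_
  rw [map_smul, ee_es, smul_smul, eS_apply]
  have h3 : (⟨((k.succ : Fin (d + 1)) : ℕ) - 1, by omega⟩ : Fin (d + 1)) = k.castSucc := by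
    apply Fin.ext
    simp
  rw [h3]
  simp only [Fin.val_succ, Fin.val_castSucc]
  push_cast
  rw [mul_comm]

section Split

variable {d : ℕ} (u : ℕ → R) (hu : ∀ k, k ≤ d → u k * (d.choose k : R) = 1)

theorem sg_em (g : ℕ → R) (x : Sq R d) :
    sg d g (em d x) = ∑ k : Fin (d + 1), x k * (g k * (d.choose k : R)) := by
  rw [em_apply, map_sum]
  refine Finset.sum_congr rfl fun k _ => ?_
  rw [map_smul, sg_es, smul_eq_mul]

include hu

theorem sg_dl_em (x : Sq R d) (l : Fin (d + 1)) : u l * sg d (dl l) (em d x) = x l := by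
  rw [sg_em, Finset.sum_eq_single l]
  · have : (dl (l : ℕ) : ℕ → R) l = 1 := by simp [dl]
    rw [this, one_mul]
    linear_combination (x l) * hu l (by omega)
  · intro k _ hkl
    have h : (dl (l : ℕ) : ℕ → R) k = 0 := by
      have : ¬ ((k : ℕ) = l) := fun h => hkl (Fin.ext h)
      simp [dl, this]
    rw [h]
    ring
  · intro h
    exact absurd (Finset.mem_univ l) h

theorem qq_em (x : Sq R d) : qq d u (em d x) = em d x := by
  rw [qq_apply, Finset.sum_range, em_apply]
  refine Finset.sum_congr rfl fun k _ => ?_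
  rw [← em_apply, sg_dl_em u hu]

/-- The splitting. -/
def XI : (Sq R d × Fo R d) ≃ₗ[R] F R d where
  toFun x := em d x.1 + x.2
  map_add' x y := by
    simp only [Prod.fst_add, Prod.snd_add, map_add, Submodule.coe_add]
    abel
  map_smul' r x := by
    simp only [Prod.smul_fst, Prod.smul_snd, map_smul, Submodule.coe_smul, RingHom.id_apply,
      smul_add]
  invFun y := (fun k => u k * sg d (dl k) y, pp u hu y)
  left_inv x := by
    obtain ⟨x, z⟩ := x
    refine Prod.ext ?_ (Subtype.ext ?_)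
    · funext k
      change u k * sg d (dl k) (em d x + (z : F R d)) = x k
      rw [map_add, mem_Fo.1 z.2, add_zero, sg_dl_em u hu]
    · change (pp u hu (em d x + (z : F R d)) : F R d) = z
      rw [map_add, pp_of_mem, Submodule.coe_add, pp_coe, qq_em u hu, sub_self, zero_add]
  right_inv y := by
    change em d (fun k : Fin (d + 1) => u k * sg d (dl k) y) + (pp u hu y : F R d) = y
    rw [pp_coe, qq_apply, Finset.sum_range, em_apply]
    abel

theorem XI_apply (x : Sq R d) (z : Fo R d) : XI u hu (x, z) = em d x + z := rfl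

/-- The operator `B` on the symmetric part. -/
def BS (R : Type) [CommRing R] (d : ℕ) : Sq R d →ₗ[R] Sq R d :=
  eS d + dS (fun k : ℕ => 2 * (k : R)) d

/-- The operator `B` on the complement. -/
def BO (R : Type) [CommRing R] (d : ℕ) : Fo R d →ₗ[R] Fo R d :=
  (GO R d).e + (GO R d).D (fun k : ℕ => 2 * (k : R))

theorem bb_XI (x : Sq R d × Fo R d) :
    bb d (XI u hu x) = XI u hu ((BS R d).prodMap (BO R d) x) := by
  obtain ⟨x, z⟩ := x
  change bb d (em d x + (z : F R d)) = em d (eS d x + dS (fun k : ℕ => 2 * (k : R)) d x) +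
    (ee d (z : F R d) + dg d (fun k : ℕ => 2 * (k : R)) (z : F R d))
  rw [bb_apply, map_add, map_add, ee_em, dg_em, map_add]
  abel

/-- The operator `B` on the double of the symmetric part. -/
def BS2 (R : Type) [CommRing R] (d : ℕ) : Sq R d × Sq R d →ₗ[R] Sq R d × Sq R d := dbl (BS R d)

/-- The operator `B` on the double of the complement. -/
def BO2 (R : Type) [CommRing R] (d : ℕ) : Fo R d × Fo R d →ₗ[R] Fo R d × Fo R d :=
  (GO R d).dbl.e + (GO R d).dbl.D (fun k : ℕ => 2 * (k : R))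

theorem BO2_eq : BO2 R d = dbl (BO R d) := by
  refine LinearMap.ext fun ⟨a, b⟩ => ?_
  rw [BO2, LinearMap.add_apply, Gr.dbl_e, Gr.dbl_D, dbl_apply, BO, LinearMap.add_apply,
    LinearMap.add_apply]
  have h : (sh (fun k : ℕ => 2 * (k : R)) : ℕ → R) =
      (fun k : ℕ => 2 * (k : R)) + (fun _ => 2) := by
    funext k
    simp only [sh, Pi.add_apply]
    push_cast
    ring
  rw [h, Gr.D_add, Gr.const]
  refine Prod.ext rfl ?_
  change a + (GO R d).e b + ((GO R d).D (fun k : ℕ => 2 * (k : R)) b + (2 : R) • b) =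
    a + ((GO R d).e b + (GO R d).D (fun k : ℕ => 2 * (k : R)) b + (2 : R) • b)
  abel

/-- The splitting in the next dimension. -/
def XI2 : ((Sq R d × Sq R d) × (Fo R d × Fo R d)) ≃ₗ[R] F R (d + 1) :=
  ((LinearEquiv.prodProdProdComm R (Sq R d) (Sq R d) (Fo R d) (Fo R d)).trans
    ((XI u hu).prodCongr (XI u hu))).trans (prE R d)

theorem XI2_apply (x y : Sq R d) (z w : Fo R d) :
    XI2 u hu ((x, y), (z, w)) = pr (XI u hu (x, z)) (XI u hu (y, w)) := rfl

theorem bb_XI2 (x : (Sq R d × Sq R d) × (Fo R d × Fo R d)) :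
    bb (d + 1) (XI2 u hu x) = XI2 u hu ((BS2 R d).prodMap (BO2 R d) x) := by
  obtain ⟨⟨x, y⟩, ⟨z, w⟩⟩ := x
  rw [XI2_apply, bb_succ, bb_XI, bb_XI]
  have h1 : ((BS2 R d).prodMap (BO2 R d)) ((x, y), (z, w)) =
      ((BS R d x, x + (BS R d y + (2 : R) • y)), (BO R d z, z + (BO R d w + (2 : R) • w))) := by
    rw [LinearMap.prodMap_apply, BS2, BO2_eq u hu, dbl_apply, dbl_apply]
  rw [h1, XI2_apply]
  congr 1
  rw [LinearMap.prodMap_apply, ← map_smul, ← map_add, ← map_add]
  congr 1
  refine Prod.ext ?_ ?_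
  · change x + BS R d y + (2 : R) • y = x + (BS R d y + (2 : R) • y)
    abel
  · change z + BO R d w + (2 : R) • w = z + (BO R d w + (2 : R) • w)
    abel

theorem idx_bb (j : ℕ) : idx (NN (bb (R := R) d) j) = idx (NN (BS R d) j) * idx (NN (BO R d) j) := by
  rw [← idx_NN_prodMap]
  exact (idx_NN_conj (XI u hu) _ _ (bb_XI u hu) j).symm

theorem idx_bb2 (j : ℕ) :
    idx (NN (bb (R := R) (d + 1)) j) = idx (NN (BS2 R d) j) * idx (NN (BO2 R d) j) := by
  rw [← idx_NN_prodMap]
  exact (idx_NN_conj (XI2 u hu) _ _ (bb_XI2 u hu) j).symm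

end Split

end Pool.Agent.helper14.SP
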