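import Pool.Agent.helper14.SP.StCount

/-!
# Indices on the symmetric part
-/

namespace Pool.Agent.helper14.SP

variable {R : Type} [CommRing R]

/-- The index of the ideal generated by `r` and `2 ^ j`. -/
noncomputable def rr (R : Type) [CommRing R] (r : R) (j : ℕ) : ℕ :=
  idx (NN (LinearMap.lsmul R R r) j)

theorem mem_NN_rr {r : R} {j : ℕ} {x : R} :
    x ∈ NN (LinearMap.lsmul R R r) j ↔ ∃ a b : R, r * a + 2 ^ j * b = x := mem_NN

theorem idx_dS (lam : ℕ → R) (d j : ℕ) :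
    idx (NN (dS lam d) j) = ∏ k : Fin (d + 1), rr R (lam k) j := by
  have h : (NN (dS lam d) j).toAddSubgroup = AddSubgroup.pi Set.univ
      (fun k : Fin (d + 1) => (NN (LinearMap.lsmul R R (lam k)) j).toAddSubgroup) := by
    ext x
    rw [AddSubgroup.mem_pi]
    change x ∈ NN (dS lam d) j ↔
      ∀ k : Fin (d + 1), k ∈ Set.univ → x k ∈ NN (LinearMap.lsmul R R (lam k)) j
    rw [mem_NN]
    constructor
    · rintro ⟨a, b, rfl⟩ k _
      exact mem_NN_rr.2 ⟨a k, b k, rfl⟩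
    · intro hx
      choose a b hab using fun k => mem_NN_rr.1 (hx k (Set.mem_univ k))
      exact ⟨a, b, funext hab⟩
  rw [idx, h, AddSubgroup.index_pi]
  rfl

theorem NN_eq_of_range {M : Type} [AddCommGroup M] [Module R M] {T T' : M →ₗ[R] M}
    (h1 : ∀ x, ∃ y, T x = T' y) (h2 : ∀ x, ∃ y, T' x = T y) (j : ℕ) : NN T j = NN T' j := by
  ext x
  rw [mem_NN, mem_NN]
  constructor
  · rintro ⟨a, b, rfl⟩
    obtain ⟨y, hy⟩ := h1 a
    exact ⟨y, b, by rw [hy]⟩
  · rintro ⟨a, b, rfl⟩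
    obtain ⟨y, hy⟩ := h2 a
    exact ⟨y, b, by rw [hy]⟩

/-- Downward recursion. -/
theorem solve_down (d : ℕ) (base : R) (f : ℕ → R → R) :
    ∃ x : Sq R d, x (Fin.last d) = base ∧
      ∀ (k : ℕ) (h : k + 1 < d + 1), x ⟨k, by omega⟩ = f k (x ⟨k + 1, h⟩) := by
  let X : ℕ → R := fun i => Nat.rec base (fun i r => f (d - (i + 1)) r) i
  refine ⟨fun k => X (d - k), ?_, ?_⟩
  · simp [X]
  · intro k h
    have h1 : d - k = (d - (k + 1)) + 1 := by omega
    change X (d - k) = f k (X (d - (k + 1)))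
    rw [h1]
    change f (d - (d - (k + 1) + 1)) (X (d - (k + 1))) = _
    congr 1
    omega

theorem BS_apply (d : ℕ) (x : Sq R d) (k : Fin (d + 1)) :
    BS R d x k = ((k : ℕ) : R) * x ⟨(k : ℕ) - 1, by omega⟩ + 2 * ((k : ℕ) : R) * x k := rfl

theorem NN_BS (d j : ℕ) : NN (BS R d) j = NN (dS (fun k : ℕ => (k : R)) d) j := by
  refine NN_eq_of_range ?_ ?_ j
  · intro x
    refine ⟨fun k => x ⟨(k : ℕ) - 1, by omega⟩ + 2 * x k, ?_⟩
    funext k
    rw [BS_apply, dS_apply]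
    ring
  · intro c
    obtain ⟨x, -, hx⟩ := solve_down d (0 : R) (fun k r =>
      (if h : k + 1 < d + 1 then c ⟨k + 1, h⟩ else 0) - 2 * r)
    refine ⟨x, ?_⟩
    funext k
    rw [BS_apply, dS_apply]
    obtain ⟨k, hk⟩ := k
    rcases k with _ | k
    · simp
    · have h1 := hx k hk
      rw [dif_pos hk] at h1
      change ((k + 1 : ℕ) : R) * c ⟨k + 1, hk⟩ =
        ((k + 1 : ℕ) : R) * x ⟨k, by omega⟩ + 2 * ((k + 1 : ℕ) : R) * x ⟨k + 1, hk⟩
      rw [h1]
      ring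

/-- The lowering operator. -/
def SS (d : ℕ) : Sq R d →ₗ[R] Sq R d where
  toFun x k := if h : (k : ℕ) + 1 < d + 1 then x ⟨(k : ℕ) + 1, h⟩ else 0
  map_add' x y := by
    funext k
    simp only [Pi.add_apply]
    split_ifs <;> simp
  map_smul' r x := by
    funext k
    simp only [Pi.smul_apply, RingHom.id_apply]
    split_ifs <;> simp

theorem SS_apply (d : ℕ) (x : Sq R d) (k : Fin (d + 1)) :
    SS d x k = if h : (k : ℕ) + 1 < d + 1 then x ⟨(k : ℕ) + 1, h⟩ else 0 := rfl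

/-- The change of coordinates. -/
def CT (R : Type) [CommRing R] (d : ℕ) : Sq R d × Sq R d →ₗ[R] Sq R d × Sq R d :=
  (LinearMap.fst R _ _).prod ((SS d).comp (LinearMap.fst R _ _) +
    (LinearMap.snd R _ _ + (2 : R) • (SS d).comp (LinearMap.snd R _ _)))

theorem CT_apply (d : ℕ) (x y : Sq R d) :
    CT R d (x, y) = (x, SS d x + (y + (2 : R) • SS d y)) := rfl

theorem CT_surj (d : ℕ) : Function.Surjective (CT R d) := by
  rintro ⟨x, z⟩
  obtain ⟨y, hy1, hy2⟩ := solve_down d (z (Fin.last d)) (fun k r =>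
      (if h : k + 1 < d + 1 then z ⟨k, by omega⟩ - x ⟨k + 1, h⟩ else 0) - 2 * r)
  refine ⟨(x, y), ?_⟩
  rw [CT_apply]
  refine Prod.ext rfl ?_
  funext k
  change SS d x k + (y k + 2 * SS d y k) = z k
  obtain ⟨k, hk⟩ := k
  rw [SS_apply, SS_apply]
  by_cases h : k + 1 < d + 1
  · have h1 := hy2 k h
    rw [dif_pos h] at h1
    rw [dif_pos h, dif_pos h, h1]
    ring
  · rw [dif_neg h, dif_neg h]
    have : (⟨k, hk⟩ : Fin (d + 1)) = Fin.last d := by
      apply Fin.ext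
      simp only [Fin.val_last]
      omega
    rw [this, hy1]
    ring

/-- The change of coordinates as an equivalence. -/
noncomputable def CTE (R : Type) [CommRing R] (d : ℕ) : (Sq R d × Sq R d) ≃ₗ[R] (Sq R d × Sq R d) :=
  LinearEquiv.ofBijective (CT R d)
    ⟨OrzechProperty.injective_of_surjective_endomorphism _ (CT_surj d), CT_surj d⟩

theorem CTE_apply (d : ℕ) (x : Sq R d × Sq R d) : CTE R d x = CT R d x := rfl

/-- The modified weights. -/
def lam2 (R : Type) [CommRing R] (N : ℕ) : ℕ → R := fun k => if k = 0 then 2 ^ N else (k : R)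

theorem BS2_key {d n : ℕ} (hd : d + 1 = 2 ^ n) (dk : ℕ → R)
    (hdk : ∀ k, 1 ≤ k → k ≤ d → (k : R) * dk k = 2 ^ n) (a b c c' : Sq R d)
    (h1 : ∀ (k : ℕ) (h : k + 1 < d + 1), c ⟨k + 1, h⟩ = a ⟨k, by omega⟩ + 2 * a ⟨k + 1, h⟩)
    (h2 : ∀ (k : ℕ) (h : k + 1 < d + 1), c' ⟨k + 1, h⟩ = b ⟨k, by omega⟩ - a ⟨k + 1, h⟩ +
      dk (k + 1) * (a (Fin.last d) + 2 * b (Fin.last d)) * (-2) ^ (d - (k + 1)))
    (h3 : c' 0 = (-1) ^ d * (a (Fin.last d) + 2 * b (Fin.last d))) :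
    BS2 R d (a, b) = CT R d ((dS (fun k : ℕ => (k : R)) d).prodMap (dS (lam2 R (d + n)) d) (c, c')) := by
  rw [LinearMap.prodMap_apply, CT_apply, BS2, dbl_apply]
  have hM : (2 : R) ^ n = (d : R) + 1 := by
    exact_mod_cast (congrArg (Nat.cast : ℕ → R) hd).symm
  -- formula for `y'`
  have hy : ∀ k : ℕ, ∀ h : k < d + 1, dS (lam2 R (d + n)) d c' ⟨k, h⟩ =
      (k : R) * (b ⟨k - 1, by omega⟩ - a ⟨k, h⟩) +
        2 ^ n * (a (Fin.last d) + 2 * b (Fin.last d)) * (-2) ^ (d - k) := by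
    intro k h
    rw [dS_apply]
    rcases k with _ | k
    · have e0 : (⟨0, h⟩ : Fin (d + 1)) = 0 := rfl
      rw [e0, h3]
      simp only [lam2, Fin.val_zero, if_true, Nat.cast_zero, zero_mul, zero_add, Nat.sub_zero]
      rw [show ((-2 : R)) = (-1) * 2 by ring, mul_pow, pow_add]
      ring
    · rw [h2 k h]
      simp only [lam2, Nat.succ_ne_zero, if_false, Nat.add_sub_cancel]
      have := hdk (k + 1) (by omega) (by omega)
      linear_combination ((a (Fin.last d) + 2 * b (Fin.last d)) * (-2) ^ (d - (k + 1))) * this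
  have hx : ∀ k : ℕ, ∀ h : k < d + 1, dS (fun k : ℕ => (k : R)) d c ⟨k, h⟩ =
      (k : R) * (a ⟨k - 1, by omega⟩ + 2 * a ⟨k, h⟩) := by
    intro k h
    rw [dS_apply]
    rcases k with _ | k
    · simp
    · rw [h1 k h]
      rfl
  refine Prod.ext ?_ ?_
  · funext k
    obtain ⟨k, hk⟩ := k
    change BS R d a ⟨k, hk⟩ = dS (fun k : ℕ => (k : R)) d c ⟨k, hk⟩
    rw [hx k hk, BS_apply]
    ring
  · funext k
    obtain ⟨k, hk⟩ := k
    change a ⟨k, hk⟩ + (BS R d b ⟨k, hk⟩ + 2 * b ⟨k, hk⟩) =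
      SS d (dS (fun k : ℕ => (k : R)) d c) ⟨k, hk⟩ +
        (dS (lam2 R (d + n)) d c' ⟨k, hk⟩ + 2 * SS d (dS (lam2 R (d + n)) d c') ⟨k, hk⟩)
    rw [SS_apply, SS_apply, BS_apply, hy k hk]
    by_cases h : k + 1 < d + 1
    · rw [dif_pos h, dif_pos h, hx (k + 1) h, hy (k + 1) h]
      have e1 : d - k = (d - (k + 1)) + 1 := by omega
      have e2 : (⟨k + 1 - 1, by omega⟩ : Fin (d + 1)) = ⟨k, hk⟩ := rfl
      rw [e1, e2, pow_succ]
      push_cast
      ring
    · rw [dif_neg h, dif_neg h]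
      have e3 : (⟨k, hk⟩ : Fin (d + 1)) = Fin.last d := by
        apply Fin.ext
        simp only [Fin.val_last]
        omega
      have e4 : k = d := by omega
      subst e4
      have e5 : (⟨k, hk⟩ : Fin (k + 1)) = Fin.last k := rfl
      rw [e5, Nat.sub_self, pow_zero, hM]
      simp only [Fin.val_last]
      ring

theorem idx_BS2 {d n : ℕ} (hd : d + 1 = 2 ^ n) (dk : ℕ → R)
    (hdk : ∀ k, 1 ≤ k → k ≤ d → (k : R) * dk k = 2 ^ n) (j : ℕ) :
    idx (NN (BS2 R d) j) = idx (NN (dS (fun k : ℕ => (k : R)) d) j) *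
      idx (NN (dS (lam2 R (d + n)) d) j) := by
  rw [← idx_NN_prodMap]
  set T := (dS (fun k : ℕ => (k : R)) d).prodMap (dS (lam2 R (d + n)) d) with hT
  have h1 : NN (BS2 R d) j = NN ((CT R d).comp T) j := by
    refine NN_eq_of_range ?_ ?_ j
    · rintro ⟨a, b⟩
      refine ⟨(fun k => a ⟨(k : ℕ) - 1, by omega⟩ + 2 * a k,
        fun k => if (k : ℕ) = 0 then (-1) ^ d * (a (Fin.last d) + 2 * b (Fin.last d)) else
          b ⟨(k : ℕ) - 1, by omega⟩ - a k +
            dk k * (a (Fin.last d) + 2 * b (Fin.last d)) * (-2) ^ (d - (k : ℕ))), ?_⟩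
      rw [LinearMap.comp_apply, hT]
      refine BS2_key hd dk hdk a b _ _ ?_ ?_ ?_
      · intro k h
        rfl
      · intro k h
        rw [if_neg (by simp)]
        rfl
      · rw [if_pos (by simp)]
    · rintro ⟨c, c'⟩
      obtain ⟨a, ha1, ha2⟩ := solve_down d ((-1) ^ d * c' 0) (fun k r =>
        (if h : k + 1 < d + 1 then c ⟨k + 1, h⟩ else 0) - 2 * r)
      obtain ⟨b, hb1, hb2⟩ := solve_down d (0 : R) (fun k _ =>
        (if h : k + 1 < d + 1 then c' ⟨k + 1, h⟩ + a ⟨k + 1, h⟩ -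
          dk (k + 1) * ((-1) ^ d * c' 0) * (-2) ^ (d - (k + 1)) else 0))
      refine ⟨(a, b), ?_⟩
      rw [LinearMap.comp_apply, hT]
      refine (BS2_key hd dk hdk a b _ _ ?_ ?_ ?_).symm
      · intro k h
        have := ha2 k h
        rw [dif_pos h] at this
        rw [this]
        ring
      · intro k h
        have := hb2 k h
        rw [dif_pos h] at this
        rw [this, ha1, hb1]
        ring
      · rw [ha1, hb1, mul_zero, add_zero, ← mul_assoc, ← mul_pow]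
        simp
  rw [h1]
  refine (idx_NN_equiv (CTE R d) (LinearEquiv.refl R _) T _ (fun x => ?_) j).symm
  rw [CTE_apply]
  rfl

/-- The count on the symmetric part. -/
theorem sym_count {d n : ℕ} (hd : d + 1 = 2 ^ n) (dk : ℕ → R)
    (hdk : ∀ k, 1 ≤ k → k ≤ d → (k : R) * dk k = 2 ^ n) (j : ℕ) :
    idx (NN (BS2 R d) j) * rr R 0 j = idx (NN (BS R d) j) ^ 2 * rr R (2 ^ (d + n)) j := by
  rw [idx_BS2 hd dk hdk, NN_BS, idx_dS, idx_dS, Fin.prod_univ_succ, Fin.prod_univ_succ]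
  have h1 : ∀ k : Fin d, rr R (lam2 R (d + n) (k.succ : Fin (d + 1))) j =
      rr R ((((k.succ : Fin (d + 1)) : ℕ) : R)) j := by
    intro k
    rw [lam2, if_neg (by simp)]
  rw [Finset.prod_congr rfl fun k _ => h1 k]
  have h2 : lam2 R (d + n) ((0 : Fin (d + 1)) : ℕ) = 2 ^ (d + n) := by simp [lam2]
  rw [h2]
  simp only [Fin.val_zero, Nat.cast_zero]
  ring

/-- The binomial coefficients of `2 ^ n - 1` are odd. -/
theorem odd_choose {d n : ℕ} (hd : d + 1 = 2 ^ n) : ∀ k, k ≤ d → Odd (d.choose k) := by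
  intro k
  induction k with
  | zero => intro _; simp
  | succ k ih =>
    intro hk
    have h1 := ih (by omega)
    have h2 : (d + 1).choose (k + 1) = d.choose k + d.choose (k + 1) := Nat.choose_succ_succ d k
    have h3 : 2 ∣ (d + 1).choose (k + 1) := by
      rw [hd]
      exact Nat.Prime.dvd_choose_pow Nat.prime_two (by omega) (by omega)
    rw [h2] at h3
    rw [Nat.odd_iff] at h1 ⊢
    omega

/-- The count over a ring in which the odd numbers are invertible. -/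
theorem bb_count [IsDomain R] [CharZero R] (hodd : ∀ k : ℕ, Odd k → IsUnit (k : R)) {n d : ℕ}
    (hn : 1 ≤ n) (hd : d + 1 = 2 ^ n) (j : ℕ) :
    idx (NN (bb (R := R) (d + 1)) j) * rr R 0 j =
      idx (NN (bb (R := R) d) j) ^ 2 * rr R (2 ^ (d + n)) j := by
  obtain ⟨n', rfl⟩ : ∃ n', n = n' + 1 := ⟨n - 1, by omega⟩
  have hu' : ∀ k : ℕ, ∃ u : R, k ≤ d → u * (d.choose k : R) = 1 := by
    intro k
    by_cases hk : k ≤ d
    · obtain ⟨u, hu⟩ := hodd _ (odd_choose hd k hk)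
      refine ⟨((u⁻¹ : Rˣ) : R), fun _ => ?_⟩
      rw [← hu]
      exact Units.inv_mul u
    · exact ⟨0, fun h => absurd h hk⟩
  choose u hu using hu'
  have hdk' : ∀ k : ℕ, ∃ x : R, 1 ≤ k → k ≤ d → (k : R) * x = 2 ^ (n' + 1) := by
    intro k
    by_cases hk : 1 ≤ k ∧ k ≤ d
    · obtain ⟨x, hx⟩ := exists_beta hodd (n' + 1) 0 k (by omega) (by rw [pow_succ]; omega)
      refine ⟨x, fun _ _ => ?_⟩
      rw [Nat.choose_zero_right, mul_one] at hx
      rw [mul_comm]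
      exact hx
    · exact ⟨0, fun h1 h2 => absurd ⟨h1, h2⟩ hk⟩
  choose dk hdk using hdk'
  have h1 := half_Fo hodd (k0 := 2 ^ n') (n := n' + 1) (d := d) (by rw [pow_succ]; ring)
    (by rw [hd, pow_succ]; ring) u hu j
  have h2 := sym_count hd dk hdk j
  rw [idx_bb u hu, idx_bb2 u hu]
  change idx (NN (BO2 R d) j) = idx (NN (BO R d) j) ^ 2 at h1
  rw [h1]
  calc idx (NN (BS2 R d) j) * idx (NN (BO R d) j) ^ 2 * rr R 0 j
      = (idx (NN (BS2 R d) j) * rr R 0 j) * idx (NN (BO R d) j) ^ 2 := by ring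
    _ = (idx (NN (BS R d) j) ^ 2 * rr R (2 ^ (d + (n' + 1))) j) * idx (NN (BO R d) j) ^ 2 := by
        rw [h2]
    _ = _ := by ring

end Pool.Agent.helper14.SP
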