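import Pool.Agent.helper14.SP.Half

/-!
# Symmetric functionals, the idempotent and the complement of the symmetric part
-/

namespace Pool.Agent.helper14.SP

variable {R : Type} [CommRing R]

/-- The functional weighting the coordinates of degree `k` by `g k`. -/
def sg : (d : ℕ) → (ℕ → R) → F R d →ₗ[R] R
  | 0, g => ((g 0) • LinearMap.id : R →ₗ[R] R)
  | d + 1, g => (sg d g).comp (pa R d) + (sg d (fun k => g (k + 1))).comp (pb R d)

theorem sg_zero (g : ℕ → R) (x : F R 0) : sg 0 g x = g 0 * (show R from x) := rfl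

theorem sg_succ (d : ℕ) (g : ℕ → R) (a b : F R d) :
    sg (d + 1) g (pr a b) = sg d g a + sg d (sh g) b := rfl

theorem sg_dg : ∀ (d : ℕ) (g h : ℕ → R) (x : F R d), sg d g (dg d h x) = sg d (g * h) x
  | 0, g, h, x => (mul_assoc (g 0) (h 0) (show R from x)).symm
  | d + 1, g, h, x => by
    obtain ⟨a, b, rfl⟩ := exists_pr x
    rw [dg_succ, sg_succ, sg_succ, sg_dg d g h a, sg_dg d (sh g) (sh h) b]
    rfl

theorem sg_add : ∀ (d : ℕ) (g h : ℕ → R) (x : F R d), sg d (g + h) x = sg d g x + sg d h x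
  | 0, g, h, x => add_mul (g 0) (h 0) (show R from x)
  | d + 1, g, h, x => by
    obtain ⟨a, b, rfl⟩ := exists_pr x
    have : sh (g + h) = sh g + sh h := rfl
    rw [sg_succ, sg_succ, sg_succ, this, sg_add d g h a, sg_add d _ _ b]
    abel

theorem sg_smul : ∀ (d : ℕ) (r : R) (g : ℕ → R) (x : F R d), sg d (r • g) x = r * sg d g x
  | 0, r, g, x => mul_assoc r (g 0) (show R from x)
  | d + 1, r, g, x => by
    obtain ⟨a, b, rfl⟩ := exists_pr x
    have : sh (r • g) = r • sh g := rfl
    rw [sg_succ, sg_succ, this, sg_smul d r g a, sg_smul d r _ b]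
    ring

theorem sg_ee : ∀ (d : ℕ) (g : ℕ → R) (x : F R d),
    sg d g (ee d x) = sg d (fun k => ((d : R) - k) * g (k + 1)) x
  | 0, g, x => by
    rw [ee_zero, map_zero, sg_zero]
    simp
  | d + 1, g, x => by
    obtain ⟨a, b, rfl⟩ := exists_pr x
    rw [ee_succ, sg_succ, sg_succ, map_add, sg_ee d g a, sg_ee d (sh g) b]
    have h1 : (fun k => ((d : R) - k) * sh g (k + 1)) =
        sh (fun k => (((d + 1 : ℕ) : R) - k) * g (k + 1)) := by
      funext k
      simp only [sh]
      push_cast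
      ring
    have h2 : (fun k => (((d + 1 : ℕ) : R) - k) * g (k + 1)) =
        (fun k => ((d : R) - k) * g (k + 1)) + sh g := by
      funext k
      simp only [sh, Pi.add_apply]
      push_cast
      ring
    rw [← h1, h2, sg_add]
    ring

theorem sg_eq_sum (d : ℕ) (g : ℕ → R) (x : F R d) :
    sg d g x = ∑ a ∈ Finset.range (d + 1), g a * sg d (dl a) x := by
  have h1 : sg d g x = sg d 1 (dg d g x) := by rw [sg_dg, one_mul]
  rw [h1, dg_eq_sum, map_sum]
  refine Finset.sum_congr rfl fun a _ => ?_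
  rw [map_smul, sg_dg, one_mul, smul_eq_mul]

theorem sg_dl_big (d a : ℕ) (h : d < a) (x : F R d) : sg d (dl a) x = 0 := by
  have h1 : sg d (dl a) x = sg d 1 (dg d (dl a) x) := by rw [sg_dg, one_mul]
  rw [h1, dg_dl_big d a h, map_zero]

/-! ### The idempotent -/

/-- The idempotent `ε`. -/
def ep : (d : ℕ) → F R d →ₗ[R] F R d
  | 0 => 0
  | d + 1 => prL ((ep d).comp (pa R d) - pb R d + (2 : R) • (ep d).comp (pb R d))
      (pb R d - (ep d).comp (pb R d))

theorem ep_zero (x : F R 0) : ep 0 x = 0 := rfl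

theorem ep_succ (d : ℕ) (a b : F R d) :
    ep (d + 1) (pr a b) = pr (ep d a - b + (2 : R) • ep d b) (b - ep d b) := rfl

theorem ep_ep : ∀ (d : ℕ) (x : F R d), ep d (ep d x) = ep d x
  | 0, x => by rw [ep_zero, ep_zero]
  | d + 1, x => by
    obtain ⟨a, b, rfl⟩ := exists_pr x
    rw [ep_succ, ep_succ]
    simp only [map_add, map_sub, map_smul, ep_ep d]
    congr 1 <;> module

/-- The operator `B = e + 2 D`. -/
def bb (d : ℕ) : F R d →ₗ[R] F R d := ee d + dg d (fun k : ℕ => 2 * (k : R))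

theorem bb_apply (d : ℕ) (x : F R d) : bb d x = ee d x + dg d (fun k : ℕ => 2 * (k : R)) x := rfl

theorem bb_zero (x : F R 0) : bb 0 x = 0 := by
  rw [bb_apply, ee_zero, dg_zero]
  simp

theorem bb_succ (d : ℕ) (a b : F R d) :
    bb (d + 1) (pr a b) = pr (bb d a) (a + bb d b + (2 : R) • b) := by
  rw [bb_apply, ee_succ, dg_succ, add_pr, bb_apply, bb_apply]
  have h : (sh (fun k : ℕ => 2 * (k : R)) : ℕ → R) =
      (fun k : ℕ => 2 * (k : R)) + (fun _ => 2) := by
    funext k
    simp only [sh, Pi.add_apply]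
    push_cast
    ring
  rw [h, dg_add_apply, dg_const_apply]
  congr 1
  abel

theorem bb_ep : ∀ (d : ℕ) (x : F R d),
    bb d (ep d x) + ep d (bb d x) = bb d x - (d : R) • x + (2 * (d : R)) • ep d x
  | 0, x => by
    rw [bb_zero, bb_zero, ep_zero, ep_zero]
    simp
  | d + 1, x => by
    obtain ⟨a, b, rfl⟩ := exists_pr x
    rw [ep_succ, bb_succ, bb_succ, ep_succ, add_pr, smul_pr, smul_pr, sub_pr, add_pr]
    have ha := bb_ep d a
    have hb := bb_ep d b
    have ha' : bb d (ep d a) = bb d a - (d : R) • a + (2 * (d : R)) • ep d a - ep d (bb d a) := by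
      rw [← ha]; abel
    have hb' : bb d (ep d b) = bb d b - (d : R) • b + (2 * (d : R)) • ep d b - ep d (bb d b) := by
      rw [← hb]; abel
    simp only [map_add, map_sub, map_smul, ha', hb', ep_ep]
    push_cast
    congr 1 <;> module

/-- The action of `ε` on the symmetric functionals. -/
def cc : ℕ → (ℕ → R) → R
  | 0, _ => 0
  | l + 1, g => 2 * cc l g - g l + g (l + 1) - cc l (fun k => g (k + 1))

theorem sg_ep : ∀ (d : ℕ) (g : ℕ → R) (x : F R d), sg d g (ep d x) = sg d (fun l => cc l g) x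
  | 0, g, x => by
    rw [ep_zero, map_zero, sg_zero]
    simp [cc]
  | d + 1, g, x => by
    obtain ⟨a, b, rfl⟩ := exists_pr x
    rw [ep_succ, sg_succ, sg_succ]
    simp only [map_add, map_sub, map_smul, smul_eq_mul, sg_ep d]
    have h1 : sh (fun l => cc l g) =
        (2 : R) • (fun l => cc l g) + ((-1 : R) • g + (sh g + (-1 : R) • fun l => cc l (sh g))) := by
      funext l
      change 2 * cc l g - g l + g (l + 1) - cc l (sh g) =
        2 * cc l g + (-1 * g l + (g (l + 1) + -1 * cc l (sh g)))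
      ring
    rw [h1, sg_add, sg_add, sg_add, sg_smul, sg_smul, sg_smul]
    ring

/-! ### The symmetric vectors -/

/-- The basis vector of degree zero. -/
def one (R : Type) [CommRing R] : (d : ℕ) → F R d
  | 0 => (1 : R)
  | d + 1 => pr (one R d) 0

/-- The basis vector of degree `d`. -/
def top (R : Type) [CommRing R] : (d : ℕ) → F R d
  | 0 => (1 : R)
  | d + 1 => pr 0 (top R d)

theorem dg_dl_zero : ∀ (d : ℕ) (x : F R d), dg d (dl 0) x = sg d (dl 0) x • one R d
  | 0, x => by
    change (dl 0 : ℕ → R) 0 * (show R from x) = ((dl 0 : ℕ → R) 0 * (show R from x)) * 1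
    rw [mul_one]
  | d + 1, x => by
    obtain ⟨a, b, rfl⟩ := exists_pr x
    have h0 : sg d (0 : ℕ → R) b = 0 := by
      have := sg_smul d 0 (0 : ℕ → R) b
      rwa [zero_smul, zero_mul] at this
    rw [dg_succ, sg_succ, sh_dl_zero, dg_zero_apply, h0, add_zero, dg_dl_zero d a]
    change pr _ _ = sg d (dl 0) a • pr (one R d) 0
    rw [smul_pr, smul_zero]

theorem dg_dl_top : ∀ (d : ℕ) (x : F R d), dg d (dl d) x = sg d (dl d) x • top R d
  | 0, x => by
    change (dl 0 : ℕ → R) 0 * (show R from x) = ((dl 0 : ℕ → R) 0 * (show R from x)) * 1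
    rw [mul_one]
  | d + 1, x => by
    obtain ⟨a, b, rfl⟩ := exists_pr x
    rw [dg_succ, sg_succ, sh_dl_succ, dg_dl_big d (d + 1) (by omega), sg_dl_big d (d + 1) (by omega),
      zero_add, dg_dl_top d b]
    change pr _ _ = sg d (dl d) b • pr 0 (top R d)
    rw [smul_pr, smul_zero]

/-- Support of the vectors without symmetric part. -/
theorem dg_eq_zero {d : ℕ} {x : F R d} (h0 : sg d (dl 0) x = 0) (h1 : sg d (dl d) x = 0)
    {h : ℕ → R} (hh : ∀ k, 1 ≤ k → k + 1 ≤ d → h k = 0) : dg d h x = 0 := by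
  rw [dg_eq_sum]
  refine Finset.sum_eq_zero fun a ha => ?_
  rw [Finset.mem_range] at ha
  by_cases ha0 : a = 0
  · rw [ha0, dg_dl_zero, h0, zero_smul, smul_zero]
  by_cases ha1 : a = d
  · rw [ha1, dg_dl_top, h1, zero_smul, smul_zero]
  · rw [hh a (by omega) (by omega), zero_smul]

/-- The symmetric vector of degree `k`. -/
def es (R : Type) [CommRing R] (d k : ℕ) : F R d := dp d k (one R d)

theorem dg_one : ∀ (d : ℕ) (g : ℕ → R), dg d g (one R d) = g 0 • one R d
  | 0, g => rfl
  | d + 1, g => by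
    change dg (d + 1) g (pr (one R d) 0) = g 0 • pr (one R d) 0
    rw [dg_succ, smul_pr, dg_one d g, map_zero, smul_zero]

theorem dg_es (d k : ℕ) (g : ℕ → R) : dg d g (es R d k) = g k • es R d k := by
  rw [es, dg_dp, dg_one, map_smul, zero_add]

theorem ee_es (d k : ℕ) : ee d (es R d k) = ((k : R) + 1) • es R d (k + 1) := ee_dp d k _

theorem dp_big : ∀ (d s : ℕ) (_ : d < s) (x : F R d), dp d s x = 0
  | d, 0, h, x => by omega
  | 0, s + 1, h, x => rfl
  | d + 1, s + 1, h, x => by
    obtain ⟨a, b, rfl⟩ := exists_pr x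
    rw [dp_succ, dp_big d (s + 1) (by omega), dp_big d s (by omega), dp_big d (s + 1) (by omega),
      add_zero, pr_zero]

theorem sg_es : ∀ (d k : ℕ) (g : ℕ → R), sg d g (es R d k) = g k * (d.choose k : R)
  | 0, 0, g => by
    change g 0 * 1 = _
    simp
  | 0, k + 1, g => by
    change sg 0 g (dp 0 (k + 1) (one R 0)) = _
    rw [dp_zero_succ, map_zero]
    simp
  | d + 1, 0, g => by
    have h1 := sg_es d 0 g
    rw [es, dp_zero] at h1 ⊢
    change sg (d + 1) g (pr (one R d) 0) = _
    rw [sg_succ, map_zero, add_zero, h1]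
    simp
  | d + 1, k + 1, g => by
    have h1 := sg_es d (k + 1) g
    have h2 := sg_es d k (sh g)
    rw [es] at h1 h2 ⊢
    change sg (d + 1) g (dp (d + 1) (k + 1) (pr (one R d) 0)) = _
    rw [dp_succ, sg_succ, h1, map_add, h2, map_zero, map_zero, add_zero]
    rw [Nat.choose_succ_succ]
    simp only [sh]
    push_cast
    ring

end Pool.Agent.helper14.SP
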