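import Pool.Agent.helper14.SP.Base
import Pool.Agent.helper14.SP.Defs

/-!
# Counting torsion
-/

namespace Pool.Agent.helper14.SP

/-- The image of the multiplication by `2 ^ j`. -/
def mI (A : Type) [AddCommGroup A] (j : ℕ) : AddSubgroup A :=
  (nsmulAddMonoidHom (2 ^ j) : A →+ A).range

theorem mem_mI {A : Type} [AddCommGroup A] {j : ℕ} {x : A} : x ∈ mI A j ↔ ∃ y, 2 ^ j • y = x :=
  Iff.rfl

theorem index_mI_congr {A B : Type} [AddCommGroup A] [AddCommGroup B] (e : A ≃+ B) (j : ℕ) :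
    (mI A j).index = (mI B j).index := by
  have h : mI A j = (mI B j).comap e.toAddMonoidHom := by
    ext x
    rw [AddSubgroup.mem_comap, mem_mI, mem_mI]
    constructor
    · rintro ⟨y, rfl⟩
      exact ⟨e y, (map_nsmul e _ _).symm⟩
    · rintro ⟨y, hy⟩
      refine ⟨e.symm y, e.injective ?_⟩
      rw [map_nsmul, e.apply_symm_apply]
      exact hy
  rw [h]
  exact AddSubgroup.index_comap_of_surjective _ e.surjective

theorem index_mI_prod {A B : Type} [AddCommGroup A] [AddCommGroup B] (j : ℕ) :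
    (mI (A × B) j).index = (mI A j).index * (mI B j).index := by
  rw [← AddSubgroup.index_prod]
  congr 1
  ext ⟨x, y⟩
  rw [AddSubgroup.mem_prod, mem_mI, mem_mI, mem_mI]
  constructor
  · rintro ⟨⟨a, b⟩, h⟩
    exact ⟨⟨a, congrArg Prod.fst h⟩, ⟨b, congrArg Prod.snd h⟩⟩
  · rintro ⟨⟨a, ha⟩, ⟨b, hb⟩⟩
    exact ⟨(a, b), Prod.ext ha hb⟩

theorem index_mI_int (j : ℕ) : (mI ℤ j).index = 2 ^ j := by
  have h : mI ℤ j = AddSubgroup.zmultiples ((2 ^ j : ℕ) : ℤ) := by
    ext x
    rw [mem_mI, AddSubgroup.mem_zmultiples_iff]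
    constructor
    · rintro ⟨y, rfl⟩
      exact ⟨y, by simp [mul_comm]⟩
    · rintro ⟨y, rfl⟩
      exact ⟨y, by simp [mul_comm]⟩
  rw [h, Int.index_zmultiples, Int.natAbs_natCast]

theorem tc_primary (A : Type) [AddCommGroup A] (j : ℕ) : tc (Syl2 A) j = tc A j := by
  exact Nat.card_congr
    { toFun := fun x => ⟨x.1.1, congrArg Subtype.val x.2⟩
      invFun := fun x => ⟨⟨x.1, ⟨j, x.2⟩⟩, Subtype.ext x.2⟩
      left_inv := fun _ => rfl
      right_inv := fun _ => rfl }

section Tors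

variable {A : Type} [AddCommGroup A] [AddGroup.FG A] (deg : A →+ ℤ) (δ : A) (hδ : deg δ = 1)
  (htor : ∀ x, deg x = 0 → ∃ N : ℤ, N ≠ 0 ∧ N • x = 0)

include htor in
theorem mem_torsion_iff (x : A) : x ∈ AddCommGroup.torsion A ↔ deg x = 0 := by
  rw [AddCommGroup.mem_torsion, isOfFinAddOrder_iff_zsmul_eq_zero]
  constructor
  · rintro ⟨n, hn, h⟩
    have h1 : n • deg x = 0 := by rw [← map_zsmul, h, map_zero]
    rw [smul_eq_mul] at h1
    exact (mul_eq_zero.1 h1).resolve_left hn
  · intro h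
    exact htor x h

theorem finite_torsion : Finite (AddCommGroup.torsion A) := by
  have : Module.Finite ℤ A := Module.Finite.iff_addGroup_fg.mpr inferInstance
  have : Module.Finite ℤ (AddCommGroup.torsion A) :=
    Module.Finite.of_injective ((AddCommGroup.torsion A).subtype.toIntLinearMap)
      Subtype.val_injective
  refine Module.finite_of_fg_torsion _ ?_
  intro x
  have hx := x.2
  rw [AddCommGroup.mem_torsion, isOfFinAddOrder_iff_zsmul_eq_zero] at hx
  obtain ⟨n, hn, h⟩ := hx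
  exact ⟨⟨n, mem_nonZeroDivisors_of_ne_zero hn⟩, Subtype.ext h⟩

/-- The splitting of the torsion. -/
def splitTor : A ≃+ (AddCommGroup.torsion A × ℤ) where
  toFun x := (⟨x - deg x • δ, (mem_torsion_iff deg htor _).2 (by
    rw [map_sub, map_zsmul, hδ, smul_eq_mul, mul_one, sub_self])⟩, deg x)
  invFun y := y.1 + y.2 • δ
  left_inv x := by simp
  right_inv y := by
    have h1 : deg (y.1 : A) = 0 := (mem_torsion_iff deg htor _).1 y.1.2
    have h2 : deg ((y.1 : A) + y.2 • δ) = y.2 := by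
      rw [map_add, h1, zero_add, map_zsmul, hδ, smul_eq_mul, mul_one]
    refine Prod.ext (Subtype.ext ?_) h2
    change ((y.1 : A) + y.2 • δ) - deg ((y.1 : A) + y.2 • δ) • δ = y.1
    rw [h2]
    abel
  map_add' x y := by
    refine Prod.ext (Subtype.ext ?_) (map_add deg x y)
    change (x + y) - deg (x + y) • δ = (x - deg x • δ) + (y - deg y • δ)
    rw [map_add, add_smul]
    abel

include hδ htor in
theorem tors_count (j : ℕ) : tc (Syl2 (Tor A)) j * 2 ^ j = (mI A j).index := by
  have : Finite (Tor A) := finite_torsion (A := A)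
  rw [index_mI_congr (splitTor deg δ hδ htor) j, index_mI_prod, index_mI_int, tc_primary]
  congr 1
  exact (index_eq_tc (Tor A) j).symm

end Tors

end Pool.Agent.helper14.SP
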