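import Pool.Agent.helper33.SP.SpecC1S

/-!
# Project sp, module UJ14: hypotheses of the product rule
-/

namespace TP

open DP MeasureTheory

theorem UJ14_br (x w : V) : sd x (br w) ≤ sd x w + 1 ∧ sd x w ≤ sd x (br w) + 1 := by
  unfold br
  split_ifs
  · omega
  · unfold sd
    simp only
    omega

theorem UJ14_conn {c c' : V → Bool} {R : Set V} (h : ∀ w ∈ R, c w = c' w) :
    Conn c true R = Conn c' true R := by
  funext u v
  unfold Conn
  congr 1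
  ext w
  constructor
  · rintro ⟨h1, h2⟩
    exact ⟨h1, (h w h1) ▸ h2⟩
  · rintro ⟨h1, h2⟩
    exact ⟨h1, (h w h1).symm ▸ h2⟩

theorem UJ14_four {c c' : V → Bool} {x : V} {m n : ℕ} (h : ∀ w ∈ ann x m n, c w = c' w) :
    four c x m n ↔ four c' x m n := by
  unfold four twoCl
  rw [UJ14_conn h]

theorem UJ14_gate {c c' : V → Bool} {x : V} {m n : ℕ} (h : ∀ w ∈ ann x m n, c w = c' w) :
    Gate c x m n ↔ Gate c' x m n := by
  unfold Gate Three
  rw [UJ14_four h, UJ14_conn h]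

/-- Far end points. -/
theorem UJ14_hcross {c c' : V → Bool} {i N : ℕ} {x : V}
    (hR : box x (2 ^ N) ⊆ rect 1 (2 * 2 ^ i) 0 (hh (2 ^ i)))
    (h : ∀ s t : V, 2 ^ N ≤ sd x s → 2 ^ N ≤ sd x t →
      (Conn c true (rect 1 (2 * 2 ^ i) 0 (hh (2 ^ i))) s t ↔
        Conn c' true (rect 1 (2 * 2 ^ i) 0 (hh (2 ^ i))) s t)) :
    hcross c true 1 (2 * 2 ^ i) 0 (hh (2 ^ i)) ↔ hcross c' true 1 (2 * 2 ^ i) 0 (hh (2 ^ i)) := by
  have hl : ((x.1 - 2 ^ N, x.2) : V) ∈ box x (2 ^ N) := by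
    show sd x (x.1 - 2 ^ N, x.2) ≤ 2 ^ N
    unfold sd
    have : ((x.1 - (x.1 - 2 ^ N) : ℤ)).natAbs = 2 ^ N := by
      rw [show (x.1 - (x.1 - 2 ^ N) : ℤ) = ((2 ^ N : ℕ) : ℤ) by push_cast; ring]
      exact Int.natAbs_natCast _
    simp only
    rw [this]
    simp
  have hr : ((x.1 + 2 ^ N, x.2) : V) ∈ box x (2 ^ N) := by
    show sd x (x.1 + 2 ^ N, x.2) ≤ 2 ^ N
    unfold sd
    have : ((x.1 - (x.1 + 2 ^ N) : ℤ)).natAbs = 2 ^ N := by
      rw [show (x.1 - (x.1 + 2 ^ N) : ℤ) = -((2 ^ N : ℕ) : ℤ) by push_cast; ring]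
      rw [Int.natAbs_neg]
      exact Int.natAbs_natCast _
    simp only
    rw [this]
    simp
  have h1 : (1 : ℤ) ≤ x.1 - 2 ^ N := (hR hl).1
  have h2 : x.1 + 2 ^ N ≤ (2 * 2 ^ i : ℤ) := (hR hr).2.1
  have key : ∀ u : V, (u.1 = 1 ∨ u.1 = 2 * 2 ^ i) → 2 ^ N ≤ sd x u := by
    intro u hu
    unfold sd
    refine le_max_of_le_left ?_
    have e : ((2 ^ N : ℕ) : ℤ) = 2 ^ N := by push_cast; ring
    rcases hu with hu | hu <;> rw [hu]
    · have : ((2 ^ N : ℕ) : ℤ) ≤ x.1 - 1 := by rw [e]; linarith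
      omega
    · have : ((2 ^ N : ℕ) : ℤ) ≤ 2 * 2 ^ i - x.1 := by rw [e]; linarith
      omega
  unfold hcross
  constructor
  · rintro ⟨u, v, hu, hv, huv⟩
    exact ⟨u, v, hu, hv, (h u v (key u (Or.inl hu)) (key v (Or.inr hv))).1 huv⟩
  · rintro ⟨u, v, hu, hv, huv⟩
    exact ⟨u, v, hu, hv, (h u v (key u (Or.inl hu)) (key v (Or.inr hv))).2 huv⟩

theorem UJ14_pmf {F : Set (V → Bool)} {b b' : V → Bool} (h : b ∈ F ↔ b' ∈ F) :
    pmf F b = pmf F b' := by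
  classical
  unfold pmf
  by_cases hb : b ∈ F
  · rw [Set.indicator_of_mem hb, Set.indicator_of_mem (h.1 hb)]
    rfl
  · rw [Set.indicator_of_notMem hb, Set.indicator_of_notMem (fun h' => hb (h.2 h'))]

theorem UJ14 (h11 : UJ11_stmt) (h12 : UJ12_stmt) : UJ14_stmt := by
  intro i t p m g N x b'' htp hg hm hN hR
  -- powers
  have q1 : 2 ^ t + 2 ≤ 2 ^ (p - g - 1) := by
    have h1 : 2 ^ (t + 2) ≤ 2 ^ (p - g - 1) := Nat.pow_le_pow_right (by norm_num) (by omega)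
    have h2 : 2 ^ (t + 2) = 4 * 2 ^ t := by ring
    have h3 : 0 < 2 ^ t := by positivity
    omega
  have q2 : 2 ^ (p - g - 1) < 2 ^ (p - 1) := Nat.pow_lt_pow_right (by norm_num) (by omega)
  have q3 : 2 * 2 ^ (p - 1) = 2 ^ p := by
    obtain ⟨p', rfl⟩ : ∃ p', p = p' + 1 := ⟨p - 1, by omega⟩
    simp only [Nat.add_sub_cancel]
    ring
  have q4 : 2 ^ p < 2 ^ (p + m) := Nat.pow_lt_pow_right (by norm_num) (by omega)
  have q5 : 2 ^ (p + m + 1) = 2 * 2 ^ (p + m) := by ring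
  have q6 : 2 ^ (p + m + 1) < 2 ^ (p + m + g + 1) := Nat.pow_lt_pow_right (by norm_num) (by omega)
  have q7 : 2 ^ (p + m + g + 1) ≤ 2 ^ N := Nat.pow_le_pow_right (by norm_num) (by omega)
  have q0 : 0 < 2 ^ (p - g - 1) := by positivity
  have q8 : 0 < 2 ^ (p - 1) := by positivity
  have q9 : 0 < 2 ^ (p + m) := by positivity
  have hbox : box x (2 ^ (p + m + g + 1)) ⊆ rect 1 (2 * 2 ^ i) 0 (hh (2 ^ i)) := by
    intro v hv
    exact hR (le_trans (show sd x v ≤ _ from hv) q7)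
  -- change inside the small box
  have hfar : ∀ (b : V → Bool) (w : V), 2 ^ (p - g - 1) ≤ sd x w →
      col b w = col (mx {v | sd x v ≤ 2 ^ t} b b'') w := by
    intro b w hw
    have h1 := (UJ14_br x w).2
    show b (br w) = mx {v | sd x v ≤ 2 ^ t} b b'' (br w)
    unfold mx
    rw [if_neg]
    intro h2
    have h2' : sd x (br w) ≤ 2 ^ t := h2
    omega
  constructor
  · intro b hb
    have hb' : ¬ four (col b) x (2 ^ (p - g - 1)) (2 ^ (p + m + g + 1)) := hb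
    have h1 : (b ∈ Fc i ↔ mx {v | sd x v ≤ 2 ^ t} b b'' ∈ Fc i) := by
      show hcross (col b) true 1 (2 * 2 ^ i) 0 (hh (2 ^ i)) ↔
        hcross (col (mx {v | sd x v ≤ 2 ^ t} b b'')) true 1 (2 * 2 ^ i) 0 (hh (2 ^ i))
      refine UJ14_hcross hR fun s u hs hu => ?_
      exact h11 (col b) (col (mx {v | sd x v ≤ 2 ^ t} b b'')) _ x s u (2 ^ (p - g - 1))
        (2 ^ (p + m + g + 1)) (by omega) (by omega) hb' (fun v hv => hfar b v hv) hbox
        (le_trans q7 hs) (le_trans q7 hu)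
    rw [UJ14_pmf h1, sub_self]
  · intro b₁ b₂ h12' hgt hth1 hth2
    have hg1 : Gate (col b₁) x (2 ^ (p - g - 1)) (2 ^ (p - 1)) := hgt.1
    have hg2 : Gate (col b₁) x (2 ^ (p + m + 1)) (2 ^ (p + m + g + 1)) := hgt.2
    have hf1 : four (col b₁) x (2 ^ (p - g - 1)) (2 ^ (p + m + g + 1)) := hth1
    have hf2 : four (col b₂) x (2 ^ (p - g - 1)) (2 ^ (p + m + g + 1)) := hth2
    have hag : ∀ w : V, sd x w ≤ 2 ^ (p - 1) ∨ 2 ^ (p + m + 1) ≤ sd x w →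
        b₁ (br w) = b₂ (br w) := by
      intro w hw
      apply h12'
      intro hA
      have hA1 : 2 ^ p < sd x (br w) := hA.1
      have hA2 : sd x (br w) < 2 ^ (p + m) := hA.2
      have hb := UJ14_br x w
      rcases hw with hw | hw <;> omega
    have A : (b₁ ∈ Fc i ↔ b₂ ∈ Fc i) := by
      show hcross (col b₁) true 1 (2 * 2 ^ i) 0 (hh (2 ^ i)) ↔
        hcross (col b₂) true 1 (2 * 2 ^ i) 0 (hh (2 ^ i))
      refine UJ14_hcross hR fun s u hs hu => ?_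
      exact h12 (col b₁) (col b₂) _ x s u (2 ^ (p - g - 1)) (2 ^ (p - 1)) (2 ^ (p + m + 1))
        (2 ^ (p + m + g + 1)) (by omega) q2 (by omega) q6 hg1 hg2 hf1 hf2
        (fun v hv => hag v hv) hbox (le_trans q7 hs) (le_trans q7 hu)
    have B : (mx {v | sd x v ≤ 2 ^ t} b₁ b'' ∈ Fc i ↔ mx {v | sd x v ≤ 2 ^ t} b₂ b'' ∈ Fc i) := by
      show hcross (col (mx {v | sd x v ≤ 2 ^ t} b₁ b'')) true 1 (2 * 2 ^ i) 0 (hh (2 ^ i)) ↔
        hcross (col (mx {v | sd x v ≤ 2 ^ t} b₂ b'')) true 1 (2 * 2 ^ i) 0 (hh (2 ^ i))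
      refine UJ14_hcross hR fun s u hs hu => ?_
      refine h12 (col (mx {v | sd x v ≤ 2 ^ t} b₁ b'')) (col (mx {v | sd x v ≤ 2 ^ t} b₂ b'')) _ x s u
        (2 ^ (p - g - 1)) (2 ^ (p - 1)) (2 ^ (p + m + 1))
        (2 ^ (p + m + g + 1)) (by omega) q2 (by omega) q6 ?_ ?_ ?_ ?_
        ?_ hbox (le_trans q7 hs) (le_trans q7 hu)
      · exact (UJ14_gate (fun w hw => hfar b₁ w hw.1)).1 hg1
      · refine (UJ14_gate (fun w hw => hfar b₁ w ?_)).1 hg2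
        have : 2 ^ (p + m + 1) ≤ sd x w := hw.1
        omega
      · exact (UJ14_four (fun w hw => hfar b₁ w hw.1)).1 hf1
      · exact (UJ14_four (fun w hw => hfar b₂ w hw.1)).1 hf2
      · intro v hv
        show mx {v | sd x v ≤ 2 ^ t} b₁ b'' (br v) = mx {v | sd x v ≤ 2 ^ t} b₂ b'' (br v)
        unfold mx
        split_ifs
        · rfl
        · exact hag v hv
    rw [UJ14_pmf A, UJ14_pmf B]

end TP
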